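import Pool.Agent.Lib_helper15.AQ.TP.Facts
import Mathlib.NumberTheory.LSeries.PrimesInAP

/-!
# AQ (MP_892e4c_nt), (LB): block TA0
-/

set_option autoImplicit false

namespace Pool.Agent.AQ.TPA

open Finset Pool.Agent.PENT Pool.Agent.AQ.NC
open Pool.Agent.TPA (PX ell lc)

variable [Cst]

theorem gcl_of_chi_pr {a : ℕ} (ha : Adm a) {n : ℕ} (hn : Nat.Coprime n R) (hc : chi n = 1) :
    Gcl a n := by
  have : NeZero a := ⟨ha.pos.ne'⟩
  have hu : IsUnit (n : ZMod a) := (ZMod.isUnit_iff_coprime n a).2 (ha.cop_iff.2 hn)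
  obtain ⟨p, hpR, hp, hpn⟩ := Nat.forall_exists_prime_gt_and_eq_mod hu R
  have hndvd : ¬ p ∣ R := fun h => absurd (Nat.le_of_dvd R_pos h) (by omega)
  have hcop : Nat.Coprime p R := (Nat.Prime.coprime_iff_not_dvd hp).2 hndvd
  have hmod : p ≡ n [MOD a] := (ZMod.natCast_eq_natCast_iff p n a).1 hpn
  have hchi : chi p = 1 := by
    rw [chi_congr hcop hn (hmod.of_dvd ha.dv)]
    exact hc
  obtain ⟨-, -, t, C, hC⟩ := (sp_iff hp hndvd).2 hchi
  refine ⟨p, t, C, by exact_mod_cast hp.pos, ?_, ?_, ?_⟩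
  · rw [Nat.isCoprime_iff_coprime]
    exact ha.cop_iff.2 hcop
  · have h1 := (Nat.modEq_iff_dvd.1 hmod.symm)
    exact h1
  · rw [← hC]
    change t ^ 2 + Pool.Agent.AQ.D - t ^ 2 = Pool.Agent.AQ.D
    ring

theorem ta0_chi {d : ℕ} : (∀ p : ℕ, p.Prime → p ∣ d → Sp p) → 0 < d → chi d = 1 := by
  induction d using Nat.recOnMul with
  | zero => intro _ h; omega
  | one =>
    intro _ _
    unfold chi
    exact jacobiSym.one_right _
  | prime p hp =>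
    intro h _
    have h1 := h p hp dvd_rfl
    exact (sp_iff hp h1.2.1).1 h1
  | mul a b iha ihb =>
    intro h hpos
    have ha : 0 < a := Nat.pos_of_mul_pos_right hpos
    have hb : 0 < b := Nat.pos_of_mul_pos_left hpos
    rw [chi_mul ha hb, iha (fun p hp hd => h p hp (hd.mul_right b)) ha,
      ihb (fun p hp hd => h p hp (hd.mul_left a)) hb, one_mul]

theorem chi_dp_pr {P : ℝ} {d : ℕ} (h : DP P d) : chi d = 1 :=
  ta0_chi (fun p hp hd => (h.2 p hp hd).1) (dp_pos h)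

theorem gcl_eight_pr {P : ℝ} {d9 : ℕ} (h : DP P d9) :
    ∃ ρ : ℤ, Gcl M0 ρ ∧ ∀ n : ℤ, (M0 : ℤ) ∣ n * zz.1 - d9 ↔ (M0 : ℤ) ∣ n - ρ := by
  have hz0 : (0 : ℤ) < zz.1 := z1_pos
  have hzc : Nat.Coprime zz.1.natAbs R := by
    have h1 := z_unit
    rw [Int.isCoprime_iff_gcd_eq_one] at h1
    exact h1
  have hzM : IsCoprime zz.1 (M0 : ℤ) := by
    rw [Int.isCoprime_iff_gcd_eq_one]
    have h1 : Nat.Coprime zz.1.natAbs M0 := adm_M0.cop_iff.2 hzc
    exact h1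
  obtain ⟨u, w, huw⟩ := hzM
  have hM : (0 : ℤ) < (M0 : ℤ) := by exact_mod_cast M0_pos
  obtain ⟨r, hr⟩ : ∃ r : ℕ, (r : ℤ) = u * d9 % M0 + M0 :=
    ⟨(u * d9 % M0 + M0).toNat, by
      have := Int.emod_nonneg (u * (d9 : ℤ)) hM.ne'
      omega⟩
  have hr0 : 0 < r := by
    have := Int.emod_nonneg (u * (d9 : ℤ)) hM.ne'
    omega
  have hrM : (M0 : ℤ) ∣ (r : ℤ) - u * d9 := by
    rw [hr]
    have h1 : u * (d9 : ℤ) % M0 + M0 - u * d9 = M0 - (u * d9 - u * (d9 : ℤ) % M0) := by ring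
    rw [h1]
    exact dvd_sub dvd_rfl Int.dvd_self_sub_emod
  have hrz : (M0 : ℤ) ∣ (r : ℤ) * zz.1 - d9 := by
    obtain ⟨k, hk⟩ := hrM
    refine ⟨k * zz.1 - w * d9, ?_⟩
    linear_combination zz.1 * hk + (d9 : ℤ) * huw
  have hd9 : Nat.Coprime d9 R := dp_cop_R h
  have hmod : r * zz.1.natAbs ≡ d9 [MOD M0] := by
    have hz : ((zz.1.natAbs : ℕ) : ℤ) = zz.1 := Int.natAbs_of_nonneg hz0.le
    apply Nat.ModEq.symm
    rw [Nat.modEq_iff_dvd]
    rw [Nat.cast_mul, hz]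
    exact hrz
  have hmodR : r * zz.1.natAbs ≡ d9 [MOD R] := hmod.of_dvd R_dvd_M0
  have hrzc : Nat.Coprime (r * zz.1.natAbs) R := by
    have h1 : Nat.gcd (r * zz.1.natAbs) R = Nat.gcd d9 R := hmodR.gcd_eq
    rw [Nat.coprime_iff_gcd_eq_one, h1]
    exact hd9
  have hrc : Nat.Coprime r R := Nat.Coprime.coprime_mul_right hrzc
  have hznat : 0 < zz.1.natAbs := Int.natAbs_pos.2 hz0.ne'
  have hchi : chi r = 1 := by
    have h1 : chi (r * zz.1.natAbs) = chi d9 := chi_congr hrzc hd9 hmodR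
    rw [chi_mul hr0 hznat, chi_dp_pr h] at h1
    have h2 : chi zz.1.natAbs = 1 := z_chi
    rw [h2, mul_one] at h1
    exact h1
  refine ⟨r, gcl_of_chi_pr adm_M0 hrc hchi, fun n => ⟨fun hn => ?_, fun hn => ?_⟩⟩
  · have h1 : (M0 : ℤ) ∣ (n - r) * zz.1 := by
      have h2 := dvd_sub hn hrz
      have h3 : n * zz.1 - d9 - ((r : ℤ) * zz.1 - d9) = (n - r) * zz.1 := by ring
      rwa [h3] at h2
    have hcop : IsCoprime (M0 : ℤ) zz.1 := ⟨w, u, by linear_combination huw⟩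
    exact hcop.dvd_of_dvd_mul_right h1
  · have h1 := dvd_add (hn.mul_right zz.1) hrz
    have h3 : (n - r) * zz.1 + ((r : ℤ) * zz.1 - d9) = n * zz.1 - d9 := by ring
    rwa [h3] at h1

alias gcl_of_chi := gcl_of_chi_pr
alias chi_dp := chi_dp_pr
alias gcl_eight := gcl_eight_pr

end Pool.Agent.AQ.TPA
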