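import Pool.Agent.Lib_helper15.AQ.TP.Facts
import Pool.Agent.Lib_helper15.TPF.TA1

/-!
# AQ (MP_892e4c_nt), (LB), block TA1 (helper44): the Mertens product from below
-/

set_option autoImplicit false

namespace Pool.Agent.AQ.TPA

open Finset Pool.Agent.PENT Pool.Agent.AQ.NC
open Pool.Agent.TPA (PX ell lc)

variable [Cst]

theorem ta1_le (P1 : ℕ) : Pool.Agent.TPA.kp P1 ≤ kp P1 := by
  classical
  unfold Pool.Agent.TPA.kp kp gpr
  rw [← Finset.filter_filter, Finset.prod_filter (fun p => ¬ p ∣ R)]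
  have hf : ∀ p ∈ (Icc 3 P1).filter Nat.Prime, 0 ≤ 1 - 1 / (p : ℝ) ∧ 1 - 1 / (p : ℝ) ≤ 1 := by
    intro p hp
    have h3 : (3 : ℝ) ≤ p := by exact_mod_cast (mem_Icc.1 (mem_filter.1 hp).1).1
    have h1 : 0 ≤ 1 / (p : ℝ) := by positivity
    have h2 : 1 / (p : ℝ) ≤ 1 := by
      rw [div_le_one (by linarith)]
      linarith
    exact ⟨by linarith, by linarith⟩
  refine prod_le_prod (fun p hp => (hf p hp).1) fun p hp => ?_
  split_ifs
  · exact (hf p hp).2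
  · exact le_rfl

theorem kp_lower_pr : ∃ c : ℝ, 0 < c ∧ ∀ P1 : ℕ, 3 ≤ P1 → c / Real.log P1 ≤ kp P1 := by
  obtain ⟨c, hc, h⟩ := Pool.Agent.TPA.kp_lower_pr
  exact ⟨c, hc, fun P1 h3 => (h P1 h3).trans (ta1_le P1)⟩

alias kp_lower := kp_lower_pr

end Pool.Agent.AQ.TPA
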