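import Pool.Agent.Lib_helper15.AQ.TP.Facts
import Pool.Agent.Lib_helper8.PENT.B.zb
import Pool.Agent.Lib_helper8.PENT.B.zc

/-!
# AQ (MP_892e4c_nt), (LB), block TB1: the number of the admissible classes (helper15)
-/

set_option autoImplicit false

namespace Pool.Agent.AQ.TPA

open Finset Pool.Agent.PENT Pool.Agent.AQ.NC
open Pool.Agent.TPA (PX ell lc)

open Classical in
/-- `K` if `P` holds, otherwise `0` -/
noncomputable def tb1_i (P : Prop) (K : ℝ) : ℝ := if P then K else 0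

theorem tb1_i_pos {P : Prop} (h : P) (K : ℝ) : tb1_i P K = K := by
  unfold tb1_i
  rw [if_pos h]

theorem tb1_i_neg {P : Prop} (h : ¬ P) (K : ℝ) : tb1_i P K = 0 := by
  unfold tb1_i
  rw [if_neg h]

theorem tb1_i_congr {P Q : Prop} (h : P ↔ Q) (K : ℝ) : tb1_i P K = tb1_i Q K := by
  rw [propext h]

/-! ### boxes -/

section

variable [Cst]

/-- the integer points of the box -/
noncomputable def tb1_B (A y : ℝ) : Finset (ℤ × ℤ) :=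
  (Ioc (⌈A⌉ - 1) ⌊A + ee * A⌋) ×ˢ (Ioc (⌈A * y⌉ - 1) ⌊A * y + ee * A⌋)

theorem tb1_mem {A y : ℝ} {w : ℤ × ℤ} (h : w ∈ tb1_B A y) : Bt A y w := by
  unfold tb1_B at h
  rw [mem_product, mem_Ioc, mem_Ioc] at h
  obtain ⟨⟨h1, h2⟩, h3, h4⟩ := h
  have g1 : ⌈A⌉ ≤ w.1 := by omega
  have g3 : ⌈A * y⌉ ≤ w.2 := by omega
  exact ⟨Int.ceil_le.1 g1, Int.le_floor.1 h2, Int.ceil_le.1 g3, Int.le_floor.1 h4⟩

omit [Cst] in
theorem tb1_len {L c : ℝ} (hL : 2 ≤ L) :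
    L / 2 ≤ ((⌊c + L⌋ - (⌈c⌉ - 1) : ℤ) : ℝ) := by
  have h1 := Int.lt_floor_add_one (c + L)
  have h2 := Int.ceil_lt_add_one c
  push_cast
  linarith

theorem tb1_box {m : ℕ} (hm : 0 < m) {δ : ℝ} (hδ : 0 < δ) (hδ1 : δ ≤ 1) {A y : ℝ}
    (hA : 12 * m / (δ * ee) ≤ A) {h : ℤ → ℤ → ℝ} (hh : Per m h)
    (h01 : ∀ s t, 0 ≤ h s t ∧ h s t ≤ 1) (hav : δ ≤ av m h) :
    1 / 8 * ee ^ 2 * A ^ 2 * av m h ≤ ∑ w ∈ tb1_B A y, h w.1 w.2 := by
  have hee := ee_pos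
  have hm1 : (1 : ℝ) ≤ m := by exact_mod_cast hm
  have hA2 : 12 * m ≤ A * (δ * ee) := (div_le_iff₀ (by positivity)).1 hA
  have hA2' : 12 * m ≤ δ * (ee * A) := by linarith
  have hA200 : 2 ≤ ee * A := by
    by_contra hne
    push Not at hne
    by_cases h0 : 0 ≤ ee * A
    · have : δ * (ee * A) ≤ 1 * (ee * A) := mul_le_mul_of_nonneg_right hδ1 h0
      linarith
    · push Not at h0
      have : δ * (ee * A) < 0 := mul_neg_of_pos_of_neg hδ h0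
      linarith
  have l1 := tb1_len (c := A) hA200
  have l2 := tb1_len (c := A * y) hA200
  set L : ℝ := ((⌊A + ee * A⌋ - (⌈A⌉ - 1) : ℤ) : ℝ) with hL
  set L' : ℝ := ((⌊A * y + ee * A⌋ - (⌈A * y⌉ - 1) : ℤ) : ℝ) with hL'
  have pL : 0 < L := by linarith
  have pL' : 0 < L' := by linarith
  have o1 : ⌈A⌉ - 1 ≤ ⌊A + ee * A⌋ := by
    have : (0 : ℝ) < ((⌊A + ee * A⌋ - (⌈A⌉ - 1) : ℤ) : ℝ) := pL
    have : 0 < ⌊A + ee * A⌋ - (⌈A⌉ - 1) := by exact_mod_cast this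
    omega
  have o2 : ⌈A * y⌉ - 1 ≤ ⌊A * y + ee * A⌋ := by
    have : (0 : ℝ) < ((⌊A * y + ee * A⌋ - (⌈A * y⌉ - 1) : ℤ) : ℝ) := pL'
    have : 0 < ⌊A * y + ee * A⌋ - (⌈A * y⌉ - 1) := by exact_mod_cast this
    omega
  have key := box_av hm hh h01 _ _ _ _ o1 o2
  rw [← hL, ← hL'] at key
  have key2 := (abs_le.1 key).1
  have s1 : ∑ w ∈ tb1_B A y, h w.1 w.2 =
      ∑ s ∈ Ioc (⌈A⌉ - 1) ⌊A + ee * A⌋,
        ∑ t ∈ Ioc (⌈A * y⌉ - 1) ⌊A * y + ee * A⌋, h s t := by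
    unfold tb1_B
    rw [sum_product]
  rw [s1]
  have m1 : 6 * (m : ℝ) ≤ δ * L := by
    have := mul_le_mul_of_nonneg_left l1 hδ.le
    linarith
  have m2 : 6 * (m : ℝ) ≤ δ * L' := by
    have := mul_le_mul_of_nonneg_left l2 hδ.le
    linarith
  have e1 : (m : ℝ) * L ≤ δ / 6 * (L * L') := by nlinarith
  have e2 : (m : ℝ) * L' ≤ δ / 6 * (L * L') := by nlinarith
  have e3 : (m : ℝ) ^ 2 ≤ δ / 6 * (L * L') := by
    have q1 : (6 * (m : ℝ)) * (6 * m) ≤ (δ * L) * (δ * L') :=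
      mul_le_mul m1 m2 (by positivity) (by positivity)
    have q2 : (δ * L) * (δ * L') ≤ δ * (L * L') := by
      have : 0 ≤ L * L' := by positivity
      nlinarith
    nlinarith [mul_pos pL pL']
  have e4 : δ * (L * L') ≤ av m h * (L * L') :=
    mul_le_mul_of_nonneg_right hav (by positivity)
  have e5 : (ee * A / 2) * (ee * A / 2) ≤ L * L' := mul_le_mul l1 l2 (by positivity) pL.le
  have e6 : (ee * A / 2) * (ee * A / 2) * av m h ≤ L * L' * av m h :=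
    mul_le_mul_of_nonneg_right e5 (hδ.le.trans hav)
  nlinarith

end

/-! ### one prime -/

theorem tb1_card {p : ℕ} (hp : p.Prime) {c : ℤ} (hc : ¬ (p : ℤ) ∣ c) (e : ℤ) :
    (p : ℝ) - 1 ≤ ∑ b ∈ range p, (if ¬ (p : ℤ) ∣ c * b - e then (1 : ℝ) else 0) := by
  classical
  have hp' : Prime (p : ℤ) := Nat.prime_iff_prime_int.1 hp
  have h1 : ((range p).filter (fun b : ℕ => (p : ℤ) ∣ c * b - e)).card ≤ 1 := by
    rw [card_le_one]
    intro x hx y hy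
    obtain ⟨x1, x2⟩ := mem_filter.1 hx
    obtain ⟨y1, y2⟩ := mem_filter.1 hy
    have h3 : (p : ℤ) ∣ c * ((x : ℤ) - y) := by
      have := dvd_sub x2 y2
      have e0 : c * (x : ℤ) - e - (c * y - e) = c * ((x : ℤ) - y) := by ring
      rwa [e0] at this
    have h4 := (hp'.dvd_or_dvd h3).resolve_left hc
    have x3 := mem_range.1 x1
    have y3 := mem_range.1 y1
    obtain ⟨k, hk⟩ := h4
    have hk0 : k = 0 := by
      by_contra hne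
      rcases lt_or_gt_of_ne hne with h | h
      · have : (p : ℤ) * k ≤ -(p : ℤ) := by nlinarith [hp.pos]
        omega
      · have : (p : ℤ) ≤ (p : ℤ) * k := by nlinarith [hp.pos]
        omega
    rw [hk0, mul_zero] at hk
    omega
  have h2 := card_filter_add_card_filter_not (s := range p) (fun b : ℕ => (p : ℤ) ∣ c * b - e)
  rw [card_range] at h2
  rw [← sum_filter, sum_const, nsmul_eq_mul, mul_one]
  have h5 : (p : ℝ) ≤ 1 + (((range p).filter (fun b : ℕ => ¬ (p : ℤ) ∣ c * b - e)).card : ℝ) := by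
    exact_mod_cast (by omega : p ≤ 1 +
      ((range p).filter (fun b : ℕ => ¬ (p : ℤ) ∣ c * b - e)).card)
  linarith

theorem tb1_zero {p : ℕ} (hp : p.Prime) {a : ℕ} (ha : a ∈ range p) (h0 : a ≠ 0) :
    ¬ (p : ℤ) ∣ (a : ℤ) := by
  intro h
  have := Nat.le_of_dvd (by omega) (Int.natCast_dvd_natCast.1 h)
  have := mem_range.1 ha
  omega

/-- the indicator of `p ∤ dt v (s, t)` -/
noncomputable def tb1_x (v : ℤ × ℤ) (p : ℕ) (s t : ℤ) : ℝ :=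
  if ¬ (p : ℤ) ∣ dt v (s, t) then 1 else 0

theorem tb1_full {p : ℕ} (f : ℕ → ℝ) (hf : ∀ b ∈ range p, f b = 1) :
    ∑ b ∈ range p, f b = p := by
  rw [sum_congr rfl hf, sum_const, card_range, nsmul_eq_mul, mul_one]

theorem tb1_x_sum {p : ℕ} (hp : p.Prime) {v : ℤ × ℤ}
    (hv : ¬ ((p : ℤ) ∣ v.1 ∧ (p : ℤ) ∣ v.2)) :
    (p : ℝ) * (p - 1) ≤ ∑ a ∈ range p, ∑ b ∈ range p, tb1_x v p a b := by
  have hp0 : (0 : ℝ) < p := by exact_mod_cast hp.pos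
  have hp1 : (1 : ℝ) ≤ p := by exact_mod_cast hp.one_lt.le
  have hp' : Prime (p : ℤ) := Nat.prime_iff_prime_int.1 hp
  have h0 : ∀ a b : ℕ, 0 ≤ tb1_x v p a b := by
    intro a b
    unfold tb1_x
    split_ifs
    · exact le_rfl
    · exact zero_le_one
  by_cases h1 : (p : ℤ) ∣ v.1
  · have h2 : ¬ (p : ℤ) ∣ v.2 := fun h => hv ⟨h1, h⟩
    have h3 : ∀ a ∈ (range p).erase 0, (p : ℝ) ≤ ∑ b ∈ range p, tb1_x v p a b := by
      intro a ha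
      obtain ⟨a0, a1⟩ := mem_erase.1 ha
      refine le_of_eq (tb1_full _ fun b _ => ?_).symm
      unfold tb1_x
      rw [if_pos]
      intro hd
      have hd' : (p : ℤ) ∣ v.1 * b - v.2 * a := hd
      have : (p : ℤ) ∣ v.2 * a := by
        have := dvd_sub (h1.mul_right (b : ℤ)) hd'
        rwa [sub_sub_cancel] at this
      rcases hp'.dvd_or_dvd this with h | h
      · exact h2 h
      · exact tb1_zero hp a1 a0 h
    calc (p : ℝ) * (p - 1) = ∑ _a ∈ (range p).erase 0, (p : ℝ) := by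
          rw [sum_const, card_erase_of_mem (mem_range.2 hp.pos), card_range, nsmul_eq_mul,
            Nat.cast_sub hp.one_lt.le]
          push_cast
          ring
      _ ≤ ∑ a ∈ (range p).erase 0, ∑ b ∈ range p, tb1_x v p a b := sum_le_sum h3
      _ ≤ _ := sum_le_sum_of_subset_of_nonneg (erase_subset _ _)
          fun a _ _ => sum_nonneg fun b _ => h0 a b
  · calc (p : ℝ) * (p - 1) = ∑ _a ∈ range p, ((p : ℝ) - 1) := by
          rw [sum_const, card_range, nsmul_eq_mul]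
      _ ≤ _ := sum_le_sum fun a _ => tb1_card hp h1 (v.2 * a)

theorem tb1_x_av {p : ℕ} (hp : p.Prime) {v : ℤ × ℤ}
    (hv : ¬ ((p : ℤ) ∣ v.1 ∧ (p : ℤ) ∣ v.2)) : 1 - 1 / (p : ℝ) ≤ av p (tb1_x v p) := by
  have hp0 : (0 : ℝ) < p := by exact_mod_cast hp.pos
  have key := tb1_x_sum hp hv
  unfold Pool.Agent.PENT.av
  rw [le_div_iff₀ (by positivity)]
  refine le_trans (le_of_eq ?_) key
  field_simp

/-- the indicator of `p ∤ dt v (s, t)` and `p ∤ dt (s, t) z` -/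
noncomputable def tb1_y [Cst] (v : ℤ × ℤ) (p : ℕ) (s t : ℤ) : ℝ :=
  if (¬ (p : ℤ) ∣ dt v (s, t)) ∧ ¬ (p : ℤ) ∣ dt (s, t) zz then 1 else 0

theorem tb1_y_ge [Cst] {p : ℕ} (v : ℤ × ℤ) (a b : ℕ) :
    tb1_x v p a b + tb1_x zz p a b - 1 + (if a = 0 ∧ b = 0 then 1 else 0) ≤ tb1_y v p a b := by
  have e : (p : ℤ) ∣ dt ((a : ℤ), (b : ℤ)) zz ↔ (p : ℤ) ∣ dt zz ((a : ℤ), (b : ℤ)) := by
    have : dt ((a : ℤ), (b : ℤ)) zz = -dt zz ((a : ℤ), (b : ℤ)) := by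
      simp only [dt]; ring
    rw [this, dvd_neg]
  by_cases h0 : a = 0 ∧ b = 0
  · obtain ⟨rfl, rfl⟩ := h0
    simp [tb1_y, tb1_x, dt]
  · unfold tb1_y tb1_x
    rw [if_neg h0]
    by_cases h1 : (p : ℤ) ∣ dt v ((a : ℤ), (b : ℤ))
    · have h3 : ¬ ((¬ (p : ℤ) ∣ dt v ((a : ℤ), (b : ℤ))) ∧
          ¬ (p : ℤ) ∣ dt ((a : ℤ), (b : ℤ)) zz) := fun h => h.1 h1
      rw [if_neg h3, if_neg (not_not.2 h1)]
      split_ifs <;> norm_num
    · by_cases h2 : (p : ℤ) ∣ dt zz ((a : ℤ), (b : ℤ))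
      · have h3 : ¬ ((¬ (p : ℤ) ∣ dt v ((a : ℤ), (b : ℤ))) ∧
          ¬ (p : ℤ) ∣ dt ((a : ℤ), (b : ℤ)) zz) := fun h => h.2 (e.2 h2)
        rw [if_neg h3, if_pos h1, if_neg (not_not.2 h2)]
        norm_num
      · have h3 : (¬ (p : ℤ) ∣ dt v ((a : ℤ), (b : ℤ))) ∧
          ¬ (p : ℤ) ∣ dt ((a : ℤ), (b : ℤ)) zz := ⟨h1, fun h => h2 (e.1 h)⟩
        rw [if_pos h3, if_pos h1, if_pos h2]
        norm_num

theorem tb1_y_av [Cst] {p : ℕ} (hp : p.Prime) {v : ℤ × ℤ}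
    (hv : ¬ ((p : ℤ) ∣ v.1 ∧ (p : ℤ) ∣ v.2)) : (1 - 1 / (p : ℝ)) ^ 2 ≤ av p (tb1_y v p) := by
  have hp0 : (0 : ℝ) < p := by exact_mod_cast hp.pos
  have hz : ¬ ((p : ℤ) ∣ zz.1 ∧ (p : ℤ) ∣ zz.2) := by
    rintro ⟨h1, h2⟩
    have h3 : IsCoprime zz.1 zz.2 := z_cop
    exact (Nat.prime_iff_prime_int.1 hp).not_isUnit (h3.isUnit_of_dvd' h1 h2)
  have k1 := tb1_x_sum hp hv
  have k2 := tb1_x_sum hp hz
  have k3 : ∑ a ∈ range p, ∑ b ∈ range p, (if a = 0 ∧ b = 0 then (1 : ℝ) else 0) = 1 := by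
    rw [sum_eq_single_of_mem 0 (mem_range.2 hp.pos)]
    · rw [sum_eq_single_of_mem 0 (mem_range.2 hp.pos)]
      · simp
      · intro b _ hb
        rw [if_neg (fun h => hb h.2)]
    · intro a _ ha
      apply sum_eq_zero
      intro b _
      rw [if_neg (fun h => ha h.1)]
  have k4 : ∑ a ∈ range p, ∑ b ∈ range p, (tb1_x v p a b + tb1_x zz p a b - 1 +
      (if a = 0 ∧ b = 0 then (1 : ℝ) else 0)) ≤ ∑ a ∈ range p, ∑ b ∈ range p, tb1_y v p a b :=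
    sum_le_sum fun a _ => sum_le_sum fun b _ => tb1_y_ge v a b
  have k5 : ∑ a ∈ range p, ∑ b ∈ range p, (tb1_x v p a b + tb1_x zz p a b - 1 +
      (if a = 0 ∧ b = 0 then (1 : ℝ) else 0)) =
      ∑ a ∈ range p, ∑ b ∈ range p, tb1_x v p a b + ∑ a ∈ range p, ∑ b ∈ range p, tb1_x zz p a b -
        (p : ℝ) * p + 1 := by
    simp only [sum_add_distrib, sum_sub_distrib, k3, sum_const, card_range, nsmul_eq_mul, mul_one]
  have key : ((p : ℝ) - 1) * (p - 1) ≤ ∑ a ∈ range p, ∑ b ∈ range p, tb1_y v p a b := by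
    rw [k5] at k4
    nlinarith
  unfold Pool.Agent.PENT.av
  rw [le_div_iff₀ (by positivity)]
  refine le_trans (le_of_eq ?_) key
  field_simp

theorem tb1_x_per (v : ℤ × ℤ) (p : ℕ) : Per p (tb1_x v p) := by
  intro s t s' t' h1 h2
  have e : (p : ℤ) ∣ dt v (s, t) ↔ (p : ℤ) ∣ dt v (s', t') := by
    have : (p : ℤ) ∣ dt v (s, t) - dt v (s', t') := by
      have e0 : dt v (s, t) - dt v (s', t') = v.1 * (t - t') - v.2 * (s - s') := by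
        simp only [dt]; ring
      rw [e0]
      exact dvd_sub (h2.mul_left _) (h1.mul_left _)
    exact ⟨fun h => by have := dvd_sub h this; rwa [sub_sub_cancel] at this,
      fun h => by have := dvd_add this h; rwa [sub_add_cancel] at this⟩
  unfold tb1_x
  rw [if_congr (not_congr e) rfl rfl]

theorem tb1_y_per [Cst] (v : ℤ × ℤ) (p : ℕ) : Per p (tb1_y v p) := by
  intro s t s' t' h1 h2
  have e : ∀ w : ℤ × ℤ, (p : ℤ) ∣ dt w (s, t) ↔ (p : ℤ) ∣ dt w (s', t') := by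
    intro w
    have : (p : ℤ) ∣ dt w (s, t) - dt w (s', t') := by
      have e0 : dt w (s, t) - dt w (s', t') = w.1 * (t - t') - w.2 * (s - s') := by
        simp only [dt]; ring
      rw [e0]
      exact dvd_sub (h2.mul_left _) (h1.mul_left _)
    exact ⟨fun h => by have := dvd_sub h this; rwa [sub_sub_cancel] at this,
      fun h => by have := dvd_add this h; rwa [sub_add_cancel] at this⟩
  have e' : (p : ℤ) ∣ dt (s, t) zz ↔ (p : ℤ) ∣ dt (s', t') zz := by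
    have q1 : ∀ a b : ℤ, dt (a, b) zz = -dt zz (a, b) := fun a b => by simp only [dt]; ring
    rw [q1, q1, dvd_neg, dvd_neg]
    exact e zz
  unfold tb1_y
  rw [if_congr (and_congr (not_congr (e v)) (not_congr e')) rfl rfl]

/-- the indicator of the class `(1, -i)` modulo `M0` -/
noncomputable def tb1_c [Cst] (i : ℕ) (s t : ℤ) : ℝ :=
  if (M0 : ℤ) ∣ s - 1 ∧ (M0 : ℤ) ∣ t + (i : ℤ) then 1 else 0

theorem tb1_c_per [Cst] (i : ℕ) : Per M0 (tb1_c i) := by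
  intro s t s' t' h1 h2
  have e1 : (M0 : ℤ) ∣ s - 1 ↔ (M0 : ℤ) ∣ s' - 1 := by
    constructor
    · intro h
      have := dvd_sub h h1
      have e : s - 1 - (s - s') = s' - 1 := by ring
      rwa [e] at this
    · intro h
      have := dvd_add h h1
      have e : s' - 1 + (s - s') = s - 1 := by ring
      rwa [e] at this
  have e2 : (M0 : ℤ) ∣ t + (i : ℤ) ↔ (M0 : ℤ) ∣ t' + (i : ℤ) := by
    constructor
    · intro h
      have := dvd_sub h h2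
      have e : t + (i : ℤ) - (t - t') = t' + i := by ring
      rwa [e] at this
    · intro h
      have := dvd_add h h2
      have e : t' + (i : ℤ) + (t - t') = t + i := by ring
      rwa [e] at this
  unfold tb1_c
  rw [if_congr (and_congr e1 e2) rfl rfl]

theorem tb1_c01 [Cst] (i : ℕ) (s t : ℤ) : tb1_c i s t = 0 ∨ tb1_c i s t = 1 := by
  unfold tb1_c
  split_ifs
  · exact Or.inr rfl
  · exact Or.inl rfl

theorem tb1_c_av [Cst] (i : ℕ) : 1 / (M0 : ℝ) ^ 2 ≤ av M0 (tb1_c i) := by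
  have hM : (0 : ℝ) < M0 := by exact_mod_cast M0_pos
  have hMz : (0 : ℤ) < (M0 : ℤ) := by exact_mod_cast M0_pos
  have h0 : ∀ a b : ℕ, 0 ≤ tb1_c i a b := by
    intro a b
    rcases tb1_c01 i a b with h | h <;> rw [h] <;> norm_num
  obtain ⟨a, ha⟩ : ∃ a : ℕ, (a : ℤ) = 1 % (M0 : ℤ) :=
    ⟨(1 % (M0 : ℤ)).toNat, Int.toNat_of_nonneg (Int.emod_nonneg _ hMz.ne')⟩
  obtain ⟨b, hb⟩ : ∃ b : ℕ, (b : ℤ) = (-(i : ℤ)) % (M0 : ℤ) :=
    ⟨((-(i : ℤ)) % (M0 : ℤ)).toNat, Int.toNat_of_nonneg (Int.emod_nonneg _ hMz.ne')⟩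
  have ha' : a ∈ range M0 := by
    rw [mem_range]
    have : (a : ℤ) < (M0 : ℤ) := by rw [ha]; exact Int.emod_lt_of_pos _ hMz
    exact_mod_cast this
  have hb' : b ∈ range M0 := by
    rw [mem_range]
    have : (b : ℤ) < (M0 : ℤ) := by rw [hb]; exact Int.emod_lt_of_pos _ hMz
    exact_mod_cast this
  have h1 : tb1_c i a b = 1 := by
    unfold tb1_c
    rw [if_pos]
    constructor
    · rw [ha]
      have : (M0 : ℤ) ∣ 1 - 1 % (M0 : ℤ) := Int.dvd_self_sub_emod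
      have := (dvd_neg).2 this
      rwa [neg_sub] at this
    · rw [hb]
      have : (M0 : ℤ) ∣ -(i : ℤ) - (-(i : ℤ)) % (M0 : ℤ) := Int.dvd_self_sub_emod
      have := (dvd_neg).2 this
      have e : -(-(i : ℤ) - (-(i : ℤ)) % (M0 : ℤ)) = (-(i : ℤ)) % (M0 : ℤ) + i := by ring
      rwa [e] at this
  have key : (1 : ℝ) ≤ ∑ a ∈ range M0, ∑ b ∈ range M0, tb1_c i a b := by
    rw [← h1]
    refine le_trans ?_ (single_le_sum (f := fun a : ℕ => ∑ b ∈ range M0, tb1_c i a b)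
      (fun a _ => sum_nonneg fun b _ => h0 a b) ha')
    exact single_le_sum (f := fun b : ℕ => tb1_c i a b) (fun b _ => h0 a b) hb'
  unfold Pool.Agent.PENT.av
  apply div_le_div_of_nonneg_right key (by positivity)

/-! ### the primes `≤ P1` -/

section

variable [Cst]

theorem tb1_memT {P1 p : ℕ} : p ∈ gpr P1 ↔ p.Prime ∧ ¬ p ∣ R ∧ p ≤ P1 := by
  classical
  unfold gpr
  rw [mem_filter, mem_Icc]
  constructor
  · rintro ⟨⟨h1, h2⟩, h3, h4⟩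
    exact ⟨h3, h4, h2⟩
  · rintro ⟨h1, h2, h3⟩
    refine ⟨⟨?_, h3⟩, h1, h2⟩
    have h4 := h1.two_le
    rcases Nat.eq_or_lt_of_le h4 with h | h
    · exact absurd (h ▸ two_dvd_R) h2
    · exact h

/-- the product of the modulus and of the good primes -/
noncomputable def tb1_m (P1 : ℕ) : ℕ := M0 * ∏ p ∈ gpr P1, p

/-- the bound for the sides -/
noncomputable def tb1_A (P1 : ℕ) : ℝ :=
  12 * (tb1_m P1 : ℝ) / ((1 / (M0 : ℝ) ^ 2 * kp P1 ^ 2) * ee)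

theorem tb1_f1 {P1 p : ℕ} (hp : p ∈ gpr P1) : 0 < 1 - 1 / (p : ℝ) := by
  have h2 : (2 : ℝ) ≤ p := by exact_mod_cast (tb1_memT.1 hp).1.two_le
  have : 1 / (p : ℝ) ≤ 1 / 2 := div_le_div_of_nonneg_left (by norm_num) (by norm_num) h2
  linarith

theorem tb1_kp0 (P1 : ℕ) : 0 < kp P1 := prod_pos fun _ hp => tb1_f1 hp

/-- the general count for one box -/
theorem tb1_count {P1 : ℕ} (i : ℕ) (x : ℕ → ℤ → ℤ → ℝ) (hx : ∀ p, Per p (x p))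
    (h01 : ∀ p s t, x p s t = 0 ∨ x p s t = 1) {k : ℕ} (hk : k ≤ 2)
    (hav : ∀ p : ℕ, p.Prime → ¬ p ∣ R → p ≤ P1 → (1 - 1 / (p : ℝ)) ^ k ≤ av p (x p))
    {A y : ℝ} (hA : tb1_A P1 ≤ A) :
    1 / 8 * ee ^ 2 * A ^ 2 * (1 / (M0 : ℝ) ^ 2 * kp P1 ^ k) ≤
      ∑ w ∈ tb1_B A y, tb1_i (((M0 : ℤ) ∣ w.1 - 1 ∧ (M0 : ℤ) ∣ w.2 + (i : ℤ)) ∧
        ∀ p : ℕ, p.Prime → ¬ p ∣ R → p ≤ P1 → x p w.1 w.2 = 1) 1 := by
  have hM1 : (1 : ℝ) ≤ M0 := by exact_mod_cast M0_pos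
  have hMR : (0 : ℝ) < 1 / (M0 : ℝ) ^ 2 := by positivity
  have hM2 : 1 / (M0 : ℝ) ^ 2 ≤ 1 := by
    rw [div_le_one (by positivity)]
    exact one_le_pow₀ hM1
  have hT : ∀ p ∈ gpr P1, p.Prime := fun p hp => (tb1_memT.1 hp).1
  have hf2 : ∀ p ∈ gpr P1, 1 - 1 / (p : ℝ) ≤ 1 := by
    intro p hp
    have : 0 ≤ 1 / (p : ℝ) := by positivity
    linarith
  have hκ0 : 0 < kp P1 := tb1_kp0 P1
  have hκ1 : kp P1 ≤ 1 := prod_le_one (fun p hp => (tb1_f1 hp).le) hf2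
  have hm : 0 < tb1_m P1 := Nat.mul_pos M0_pos (prod_pos fun p hp => (hT p hp).pos)
  -- the product of the local indicators
  obtain ⟨q1, q2⟩ := av_prod (q := M0) M0_pos (f := tb1_c i) (tb1_c_per i) (gpr P1) (fun p => p)
    x (fun p hp => (hT p hp).pos) (fun p hp => by
      rw [Nat.coprime_comm, (hT p hp).coprime_iff_not_dvd]
      exact fun h => (tb1_memT.1 hp).2.1 (M0_prime (hT p hp) h))
    (fun p hp p' hp' hne => (Nat.coprime_primes (hT p hp) (hT p' hp')).2 hne) (fun p _ => hx p)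
  set h : ℤ → ℤ → ℝ := fun s t => tb1_c i s t * ∏ p ∈ gpr P1, x p s t with hh
  have hp01 : ∀ s t, 0 ≤ ∏ p ∈ gpr P1, x p s t ∧ ∏ p ∈ gpr P1, x p s t ≤ 1 := by
    intro s t
    refine ⟨prod_nonneg fun p _ => ?_, prod_le_one (fun p _ => ?_) fun p _ => ?_⟩
    · rcases h01 p s t with h | h <;> rw [h] <;> norm_num
    · rcases h01 p s t with h | h <;> rw [h] <;> norm_num
    · rcases h01 p s t with h | h <;> rw [h] <;> norm_num
  have hh01 : ∀ s t, 0 ≤ h s t ∧ h s t ≤ 1 := by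
    intro s t
    obtain ⟨r1, r2⟩ := hp01 s t
    simp only [hh]
    rcases tb1_c01 i s t with h | h <;> rw [h]
    · simp
    · rw [one_mul]; exact ⟨r1, r2⟩
  have hlow : 1 / (M0 : ℝ) ^ 2 * kp P1 ^ k ≤ av (tb1_m P1) h := by
    unfold tb1_m
    rw [q2]
    apply mul_le_mul (tb1_c_av i) _ (by positivity) (hMR.le.trans (tb1_c_av i))
    unfold kp
    rw [← prod_pow]
    exact prod_le_prod (fun p hp => pow_nonneg (tb1_f1 hp).le k)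
      fun p hp => hav p (hT p hp) (tb1_memT.1 hp).2.1 (tb1_memT.1 hp).2.2
  have hδ : 1 / (M0 : ℝ) ^ 2 * kp P1 ^ 2 ≤ 1 / (M0 : ℝ) ^ 2 * kp P1 ^ k :=
    mul_le_mul_of_nonneg_left (pow_le_pow_of_le_one hκ0.le hκ1 hk) hMR.le
  have hδ1 : 1 / (M0 : ℝ) ^ 2 * kp P1 ^ 2 ≤ 1 := mul_le_one₀ hM2 (by positivity)
    (pow_le_one₀ hκ0.le hκ1)
  have key := tb1_box (A := A) (y := y) hm (δ := 1 / (M0 : ℝ) ^ 2 * kp P1 ^ 2) (by positivity)
    hδ1 hA q1 hh01 (hδ.trans hlow)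
  have hee := ee_pos
  refine le_trans (mul_le_mul_of_nonneg_left hlow (by positivity)) (key.trans (le_of_eq ?_))
  refine sum_congr rfl fun w _ => ?_
  simp only [hh]
  by_cases hc : (M0 : ℤ) ∣ w.1 - 1 ∧ (M0 : ℤ) ∣ w.2 + (i : ℤ)
  · have hc1 : tb1_c i w.1 w.2 = 1 := by unfold tb1_c; rw [if_pos hc]
    rw [hc1, one_mul]
    by_cases hw : ∀ p : ℕ, p.Prime → ¬ p ∣ R → p ≤ P1 → x p w.1 w.2 = 1
    · rw [tb1_i_pos ⟨hc, hw⟩]
      exact prod_eq_one fun p hp => hw p (hT p hp) (tb1_memT.1 hp).2.1 (tb1_memT.1 hp).2.2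
    · rw [tb1_i_neg (fun h => hw h.2)]
      push Not at hw
      obtain ⟨p, hp, hpR, hpP, hne⟩ := hw
      exact prod_eq_zero (tb1_memT.2 ⟨hp, hpR, hpP⟩) ((h01 p w.1 w.2).resolve_right hne)
  · have hc1 : tb1_c i w.1 w.2 = 0 := by unfold tb1_c; rw [if_neg hc]
    rw [hc1, zero_mul, tb1_i_neg (fun h => hc h.1)]

/-- the class of the vertex `i` -/
def tb1_K (i : ℕ) (w : ℤ × ℤ) : Prop := (M0 : ℤ) ∣ w.1 - 1 ∧ (M0 : ℤ) ∣ w.2 + (i : ℤ)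

/-- `dt v w` is prime to the good primes `≤ P1` -/
def tb1_R (P1 : ℕ) (v w : ℤ × ℤ) : Prop :=
  ∀ p : ℕ, p.Prime → ¬ p ∣ R → p ≤ P1 → ¬ (p : ℤ) ∣ dt v w

theorem tb1_R_right {P1 : ℕ} {v w : ℤ × ℤ} (h : tb1_R P1 v w) {p : ℕ} (hp : p.Prime)
    (hR : ¬ p ∣ R) (hP : p ≤ P1) : ¬ ((p : ℤ) ∣ w.1 ∧ (p : ℤ) ∣ w.2) := by
  rintro ⟨h1, h2⟩
  exact h p hp hR hP (dvd_sub (h2.mul_left _) (h1.mul_left _))

theorem tb1_cX {P1 : ℕ} (i : ℕ) {v : ℤ × ℤ}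
    (hv : ∀ p : ℕ, p.Prime → ¬ p ∣ R → p ≤ P1 → ¬ ((p : ℤ) ∣ v.1 ∧ (p : ℤ) ∣ v.2))
    {A y : ℝ} (hA : tb1_A P1 ≤ A) :
    1 / 8 * ee ^ 2 * A ^ 2 * (1 / (M0 : ℝ) ^ 2 * kp P1 ^ 1) ≤
      ∑ w ∈ tb1_B A y, tb1_i (tb1_K i w ∧ tb1_R P1 v w) 1 := by
  refine (tb1_count (A := A) (y := y) i (fun p => tb1_x v p) (fun p => tb1_x_per v p) (fun p s t => ?_)
    (k := 1) (by norm_num) (fun p hp hR hP => ?_) hA).trans (le_of_eq ?_)
  · unfold tb1_x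
    split_ifs
    · exact Or.inl rfl
    · exact Or.inr rfl
  · rw [pow_one]
    exact tb1_x_av hp (hv p hp hR hP)
  · refine sum_congr rfl fun w _ => tb1_i_congr (and_congr Iff.rfl ?_) 1
    refine forall_congr' fun p => forall_congr' fun _ => forall_congr' fun _ =>
      forall_congr' fun _ => ?_
    unfold tb1_x
    split_ifs with h
    · exact ⟨fun h0 => absurd h0 (by norm_num), fun h0 => absurd h h0⟩
    · exact ⟨fun _ => h, fun _ => rfl⟩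

theorem tb1_cY {P1 : ℕ} (i : ℕ) {v : ℤ × ℤ}
    (hv : ∀ p : ℕ, p.Prime → ¬ p ∣ R → p ≤ P1 → ¬ ((p : ℤ) ∣ v.1 ∧ (p : ℤ) ∣ v.2))
    {A y : ℝ} (hA : tb1_A P1 ≤ A) :
    1 / 8 * ee ^ 2 * A ^ 2 * (1 / (M0 : ℝ) ^ 2 * kp P1 ^ 2) ≤
      ∑ w ∈ tb1_B A y, tb1_i (tb1_K i w ∧ (tb1_R P1 v w ∧ tb1_R P1 w zz)) 1 := by
  refine (tb1_count (A := A) (y := y) i (fun p => tb1_y v p) (fun p => tb1_y_per v p) (fun p s t => ?_)
    (k := 2) le_rfl (fun p hp hR hP => tb1_y_av hp (hv p hp hR hP)) hA).trans (le_of_eq ?_)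
  · unfold tb1_y
    split_ifs
    · exact Or.inr rfl
    · exact Or.inl rfl
  · refine sum_congr rfl fun w _ => tb1_i_congr (and_congr Iff.rfl ?_) 1
    have e : ∀ p : ℕ, (tb1_y v p w.1 w.2 = 1 ↔
        (¬ (p : ℤ) ∣ dt v w) ∧ ¬ (p : ℤ) ∣ dt w zz) := by
      intro p
      unfold tb1_y
      split_ifs with h
      · exact ⟨fun _ => h, fun _ => rfl⟩
      · exact ⟨fun h0 => absurd h0 (by norm_num), fun h0 => absurd h0 h⟩
    unfold tb1_R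
    constructor
    · intro h
      exact ⟨fun p hp hR hP => ((e p).1 (h p hp hR hP)).1,
        fun p hp hR hP => ((e p).1 (h p hp hR hP)).2⟩
    · rintro ⟨h1, h2⟩ p hp hR hP
      exact (e p).2 ⟨h1 p hp hR hP, h2 p hp hR hP⟩

end

/-! ### the four sums -/

theorem tb1_step {α : Type} (B : Finset α) (P : Prop) (Q : α → Prop) {n K : ℝ} (hK : 0 ≤ K)
    (h : P → n ≤ ∑ d ∈ B, tb1_i (Q d) 1) :
    tb1_i P (n * K) ≤ ∑ d ∈ B, tb1_i (P ∧ Q d) K := by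
  by_cases hP : P
  · rw [tb1_i_pos hP]
    calc n * K ≤ (∑ d ∈ B, tb1_i (Q d) 1) * K :=
          mul_le_mul_of_nonneg_right (h hP) hK
      _ = ∑ d ∈ B, tb1_i (P ∧ Q d) K := by
          rw [sum_mul]
          refine sum_congr rfl fun d _ => ?_
          by_cases hQ : Q d
          · rw [tb1_i_pos hQ, tb1_i_pos ⟨hP, hQ⟩, one_mul]
          · rw [tb1_i_neg hQ, tb1_i_neg (fun h => hQ h.2), zero_mul]
  · rw [tb1_i_neg hP]
    refine sum_nonneg fun d _ => ?_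
    rw [tb1_i_neg fun h => hP h.1]

theorem tb1_vec_inj : Function.Injective
    (fun w : (ℤ × ℤ) × (ℤ × ℤ) × (ℤ × ℤ) × (ℤ × ℤ) =>
      (![w.1, w.2.1, w.2.2.1, w.2.2.2] : Fin 4 → ℤ × ℤ)) := by
  rintro ⟨a, b, c, d⟩ ⟨a', b', c', d'⟩ h
  have h0 : a = a' := congrFun h 0
  have h1 : b = b' := congrFun h 1
  have h2 : c = c' := congrFun h 2
  have h3 : d = d' := congrFun h 3
  rw [h0, h1, h2, h3]

theorem tiny_count_pr [Cst] : ∃ c : ℝ, 0 < c ∧ ∀ P1 : ℕ, 3 ≤ P1 → ∃ A₀ : ℝ, ∀ A : ℕ → ℝ,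
    (∀ i, 1 ≤ i → i ≤ 4 → A₀ ≤ A i) → ∃ G : Finset (Fin 4 → ℤ × ℤ),
      (∀ y ∈ G, (∀ i, 1 ≤ i → i ≤ 4 → Bt (A i) (sg (2 * i)) (vx y i) ∧
          (M0 : ℤ) ∣ (vx y i).1 - 1 ∧ (M0 : ℤ) ∣ (vx y i).2 + (i : ℤ)) ∧
        ∀ b, b ≤ 4 → ∀ p : ℕ, p.Prime → ¬ p ∣ R → p ≤ P1 → ¬ (p : ℤ) ∣ De (vx y) b) ∧
      c * kp P1 ^ 5 * (A 1 * A 2 * A 3 * A 4) ^ 2 ≤ (G.card : ℝ) := by
  classical
  have hee := ee_pos
  have hM : (0 : ℝ) < M0 := by exact_mod_cast M0_pos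
  refine ⟨(1 / 8 * ee ^ 2) ^ 4 * (1 / (M0 : ℝ) ^ 2) ^ 4, by positivity, fun P1 hP1 => ?_⟩
  refine ⟨tb1_A P1, fun A hA => ?_⟩
  have a1 := hA 1 (by norm_num) (by norm_num)
  have a2 := hA 2 (by norm_num) (by norm_num)
  have a3 := hA 3 (by norm_num) (by norm_num)
  have a4 := hA 4 (by norm_num) (by norm_num)
  have hκ0 : 0 < kp P1 := tb1_kp0 P1
  set κ : ℝ := kp P1 with hκ
  set B1 := tb1_B (A 1) (sg (2 * 1)) with hB1
  set B2 := tb1_B (A 2) (sg (2 * 2)) with hB2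
  set B3 := tb1_B (A 3) (sg (2 * 3)) with hB3
  set B4 := tb1_B (A 4) (sg (2 * 4)) with hB4
  set N1 : ℝ := 1 / 8 * ee ^ 2 * A 1 ^ 2 * (1 / (M0 : ℝ) ^ 2 * κ ^ 1) with hN1
  set N2 : ℝ := 1 / 8 * ee ^ 2 * A 2 ^ 2 * (1 / (M0 : ℝ) ^ 2 * κ ^ 1) with hN2
  set N3 : ℝ := 1 / 8 * ee ^ 2 * A 3 ^ 2 * (1 / (M0 : ℝ) ^ 2 * κ ^ 1) with hN3
  set N4 : ℝ := 1 / 8 * ee ^ 2 * A 4 ^ 2 * (1 / (M0 : ℝ) ^ 2 * κ ^ 2) with hN4
  have n1 : 0 ≤ N1 := by positivity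
  have n2 : 0 ≤ N2 := by positivity
  have n3 : 0 ≤ N3 := by positivity
  have n4 : 0 ≤ N4 := by positivity
  have k4 : 0 ≤ N4 * 1 := by rw [mul_one]; exact n4
  have k3 : 0 ≤ N3 * (N4 * 1) := mul_nonneg n3 k4
  have k2 : 0 ≤ N2 * (N3 * (N4 * 1)) := mul_nonneg n2 k3
  let Q1 : ℤ × ℤ → Prop := fun a => tb1_K 1 a ∧ tb1_R P1 (1, 0) a
  let Q2 : ℤ × ℤ → ℤ × ℤ → Prop := fun a b => tb1_K 2 b ∧ tb1_R P1 a b
  let Q3 : ℤ × ℤ → ℤ × ℤ → Prop := fun b c => tb1_K 3 c ∧ tb1_R P1 b c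
  let Q4 : ℤ × ℤ → ℤ × ℤ → Prop := fun c d => tb1_K 4 d ∧ (tb1_R P1 c d ∧ tb1_R P1 d zz)
  -- the tuples
  set T : Finset ((ℤ × ℤ) × (ℤ × ℤ) × (ℤ × ℤ) × (ℤ × ℤ)) :=
    (B1 ×ˢ (B2 ×ˢ (B3 ×ˢ B4))).filter (fun w => ((Q1 w.1 ∧
      Q2 w.1 w.2.1) ∧ Q3 w.2.1 w.2.2.1) ∧ Q4 w.2.2.1 w.2.2.2) with hT
  have hcard : (T.card : ℝ) = ∑ a ∈ B1, ∑ b ∈ B2, ∑ c ∈ B3, ∑ d ∈ B4,
      tb1_i (((Q1 a ∧ Q2 a b) ∧ Q3 b c) ∧ Q4 c d) 1 := by
    rw [hT, card_filter]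
    push_cast
    rw [sum_product]
    refine sum_congr rfl fun a _ => ?_
    rw [sum_product]
    refine sum_congr rfl fun b _ => ?_
    rw [sum_product]
    refine sum_congr rfl fun c _ => sum_congr rfl fun d _ => ?_
    by_cases hP : ((Q1 a ∧ Q2 a b) ∧ Q3 b c) ∧ Q4 c d
    · rw [tb1_i_pos hP, if_pos hP]
    · rw [tb1_i_neg hP, if_neg hP]
  have c4 : ∀ a b c : ℤ × ℤ, tb1_i ((Q1 a ∧ Q2 a b) ∧ Q3 b c)
      (N4 * 1) ≤ ∑ d ∈ B4, tb1_i (((Q1 a ∧ Q2 a b) ∧ Q3 b c) ∧ Q4 c d) 1 := fun a b c =>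
    tb1_step B4 ((Q1 a ∧ Q2 a b) ∧ Q3 b c) (fun d => Q4 c d) zero_le_one fun h =>
        tb1_cY 4 (fun p hp hR hP => tb1_R_right h.2.2 hp hR hP) a4
  have c3 : ∀ a b : ℤ × ℤ, tb1_i (Q1 a ∧ Q2 a b) (N3 * (N4 * 1)) ≤
      ∑ c ∈ B3, tb1_i ((Q1 a ∧ Q2 a b) ∧ Q3 b c) (N4 * 1) :=
    fun a b => tb1_step B3 (Q1 a ∧ Q2 a b) (fun c => Q3 b c)
      k4 fun h => tb1_cX 3 (fun p hp hR hP => tb1_R_right h.2.2 hp hR hP) a3
  have c2 : ∀ a : ℤ × ℤ, tb1_i (Q1 a) (N2 * (N3 * (N4 * 1))) ≤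
      ∑ b ∈ B2, tb1_i (Q1 a ∧ Q2 a b) (N3 * (N4 * 1)) :=
    fun a => tb1_step B2 (Q1 a) (fun b => Q2 a b)
      k3 fun h => tb1_cX 2 (fun p hp hR hP => tb1_R_right h.2 hp hR hP) a2
  have c1 : N1 * (N2 * (N3 * (N4 * 1))) ≤
      ∑ a ∈ B1, tb1_i (Q1 a) (N2 * (N3 * (N4 * 1))) := by
    have := tb1_step B1 True (fun a => Q1 a) (n := N1)
      (K := N2 * (N3 * (N4 * 1))) k2 fun _ => tb1_cX 1 (fun p hp _ _ => by
        rintro ⟨h1, -⟩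
        have h2 : ((p : ℕ) : ℤ) ∣ ((1 : ℕ) : ℤ) := h1
        exact hp.one_lt.ne' (Nat.dvd_one.1 (Int.natCast_dvd_natCast.1 h2)))
        a1
    rw [tb1_i_pos trivial] at this
    refine this.trans (le_of_eq (sum_congr rfl fun a _ => ?_))
    exact tb1_i_congr ⟨fun h => h.2, fun h => ⟨trivial, h⟩⟩ _
  have hlow : N1 * (N2 * (N3 * (N4 * 1))) ≤ (T.card : ℝ) := by
    rw [hcard]
    exact c1.trans (sum_le_sum fun a _ => (c2 a).trans (sum_le_sum fun b _ =>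
      (c3 a b).trans (sum_le_sum fun c _ => c4 a b c)))
  refine ⟨T.image (fun w => (![w.1, w.2.1, w.2.2.1, w.2.2.2] : Fin 4 → ℤ × ℤ)), ?_, ?_⟩
  · intro y hy
    obtain ⟨w, hw, rfl⟩ := mem_image.1 hy
    obtain ⟨h1, ⟨⟨⟨s1, r1⟩, s2, r2⟩, s3, r3⟩, s4, r4, r5⟩ := mem_filter.1 hw
    rw [mem_product, mem_product, mem_product] at h1
    obtain ⟨b1, b2, b3, b4⟩ := h1
    have v0 : vx (![w.1, w.2.1, w.2.2.1, w.2.2.2] : Fin 4 → ℤ × ℤ) 0 = (1, 0) := rfl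
    have v1 : vx (![w.1, w.2.1, w.2.2.1, w.2.2.2] : Fin 4 → ℤ × ℤ) 1 = w.1 := rfl
    have v2 : vx (![w.1, w.2.1, w.2.2.1, w.2.2.2] : Fin 4 → ℤ × ℤ) 2 = w.2.1 := rfl
    have v3 : vx (![w.1, w.2.1, w.2.2.1, w.2.2.2] : Fin 4 → ℤ × ℤ) 3 = w.2.2.1 := rfl
    have v4 : vx (![w.1, w.2.1, w.2.2.1, w.2.2.2] : Fin 4 → ℤ × ℤ) 4 = w.2.2.2 := rfl
    have v5 : vx (![w.1, w.2.1, w.2.2.1, w.2.2.2] : Fin 4 → ℤ × ℤ) 5 = zz := rfl
    constructor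
    · intro i i1 i4
      interval_cases i
      · rw [v1]; exact ⟨tb1_mem b1, s1.1, s1.2⟩
      · rw [v2]; exact ⟨tb1_mem b2, s2.1, s2.2⟩
      · rw [v3]; exact ⟨tb1_mem b3, s3.1, s3.2⟩
      · rw [v4]; exact ⟨tb1_mem b4, s4.1, s4.2⟩
    · intro b hb p hp hR hP
      unfold De
      interval_cases b
      · rw [v0, v1]; exact r1 p hp hR hP
      · rw [v1, v2]; exact r2 p hp hR hP
      · rw [v2, v3]; exact r3 p hp hR hP
      · rw [v3, v4]; exact r4 p hp hR hP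
      · rw [v4, v5]; exact r5 p hp hR hP
  · rw [card_image_of_injective _ tb1_vec_inj]
    refine le_trans (le_of_eq ?_) hlow
    rw [hN1, hN2, hN3, hN4]
    ring

alias tiny_count := tiny_count_pr

end Pool.Agent.AQ.TPA
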