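import Pool.Agent.Lib_helper15.AQ.TP.Facts

/-!
# AQ (MP_892e4c_nt), (LB), block TB3: few non-primitive vectors (helper35, port)
-/

set_option autoImplicit false

namespace Pool.Agent.AQ.TPA

open Finset Pool.Agent.PENT Pool.Agent.AQ.NC
open Pool.Agent.TPA (PX ell lc)

variable [Cst]

/-- the side of the boxes -/
noncomputable def tb3_M : ℝ := 2 + Sl

theorem tb3_M_pos : 0 < tb3_M := by
  unfold tb3_M
  linarith [Sl_pos]

/-- the box of the integer points with coordinates in `[1, M a]` -/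
noncomputable def tb3_bx (a : ℝ) : Finset (ℤ × ℤ) := (Icc (1 : ℤ) ⌊tb3_M * a⌋) ×ˢ (Icc (1 : ℤ) ⌊tb3_M * a⌋)

theorem tb3_card_Icc (x : ℝ) (hx : 0 ≤ x) : ((Icc (1 : ℤ) ⌊x⌋).card : ℝ) ≤ x := by
  rw [Int.card_Icc]
  have h0 : 0 ≤ ⌊x⌋ := Int.floor_nonneg.2 hx
  have h1 : (⌊x⌋ + 1 - 1).toNat = ⌊x⌋.toNat := by congr 1; ring
  rw [h1]
  have h2 : ((⌊x⌋.toNat : ℤ) : ℝ) = (⌊x⌋ : ℝ) := by rw [Int.toNat_of_nonneg h0]
  have h3 : ((⌊x⌋.toNat : ℕ) : ℝ) = ((⌊x⌋.toNat : ℤ) : ℝ) := by push_cast; rfl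
  rw [h3, h2]
  exact Int.floor_le x

theorem tb3_card_sq (x : ℝ) (hx : 0 ≤ x) :
    (((Icc (1 : ℤ) ⌊x⌋) ×ˢ (Icc (1 : ℤ) ⌊x⌋)).card : ℝ) ≤ x ^ 2 := by
  rw [card_product]
  push_cast
  rw [sq]
  exact mul_le_mul (tb3_card_Icc x hx) (tb3_card_Icc x hx) (by positivity) hx

open Classical in
/-- the points of the box divisible by some prime `> P` -/
noncomputable def tb3_np (a : ℝ) (P : ℕ) : Finset (ℤ × ℤ) :=
  (tb3_bx a).filter (fun v => ∃ d : ℕ, P < d ∧ (d : ℤ) ∣ v.1 ∧ (d : ℤ) ∣ v.2)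

theorem tb3_np_card (a : ℝ) (ha : 0 ≤ a) (P : ℕ) (hP : 1 ≤ P) :
    ((tb3_np a P).card : ℝ) ≤ (tb3_M * a) ^ 2 * (1 / P) := by
  classical
  set N : ℕ := ⌊tb3_M * a⌋.toNat with hN
  have hM := tb3_M_pos
  have hf0 : 0 ≤ ⌊tb3_M * a⌋ := Int.floor_nonneg.2 (by positivity)
  have hNf : (N : ℤ) = ⌊tb3_M * a⌋ := by rw [hN, Int.toNat_of_nonneg hf0]
  have hsub : tb3_np a P ⊆ (Ioc P N).biUnion (fun d : ℕ =>
      ((Icc (1 : ℤ) ⌊tb3_M * a / d⌋) ×ˢ (Icc (1 : ℤ) ⌊tb3_M * a / d⌋)).image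
        (fun w : ℤ × ℤ => ((d : ℤ) * w.1, (d : ℤ) * w.2))) := by
    intro v hv
    unfold tb3_np at hv
    rw [mem_filter] at hv
    obtain ⟨hv, d, hd, ⟨x, hx⟩, ⟨y, hy⟩⟩ := hv
    unfold tb3_bx at hv
    rw [mem_product, mem_Icc, mem_Icc] at hv
    obtain ⟨⟨h1, h2⟩, ⟨h3, h4⟩⟩ := hv
    have hd0 : (0 : ℤ) < d := by exact_mod_cast (by omega : 0 < d)
    have hd0' : (0 : ℝ) < d := by exact_mod_cast hd0
    have hx1 : 1 ≤ x := by
      by_contra hc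
      have : x ≤ 0 := by omega
      nlinarith
    have hy1 : 1 ≤ y := by
      by_contra hc
      have : y ≤ 0 := by omega
      nlinarith
    have hx2 : x ≤ ⌊tb3_M * a / d⌋ := by
      rw [Int.le_floor, le_div_iff₀ hd0']
      have h5 : ((v.1 : ℤ) : ℝ) ≤ tb3_M * a := le_trans (by exact_mod_cast h2) (Int.floor_le _)
      rw [hx] at h5
      push_cast at h5
      linarith
    have hy2 : y ≤ ⌊tb3_M * a / d⌋ := by
      rw [Int.le_floor, le_div_iff₀ hd0']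
      have h5 : ((v.2 : ℤ) : ℝ) ≤ tb3_M * a := le_trans (by exact_mod_cast h4) (Int.floor_le _)
      rw [hy] at h5
      push_cast at h5
      linarith
    rw [mem_biUnion]
    refine ⟨d, ?_, ?_⟩
    · rw [mem_Ioc]
      refine ⟨hd, ?_⟩
      have : (d : ℤ) ≤ N := by
        rw [hNf]
        refine le_trans ?_ h2
        rw [hx]
        nlinarith
      exact_mod_cast this
    · rw [mem_image]
      exact ⟨(x, y), by rw [mem_product, mem_Icc, mem_Icc]; exact ⟨⟨hx1, hx2⟩, ⟨hy1, hy2⟩⟩,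
        Prod.ext hx.symm hy.symm⟩
  have h1 : ((tb3_np a P).card : ℝ) ≤ ∑ d ∈ Ioc P N, (tb3_M * a / d) ^ 2 := by
    have h2 : (tb3_np a P).card ≤ ∑ d ∈ Ioc P N,
        ((Icc (1 : ℤ) ⌊tb3_M * a / d⌋) ×ˢ (Icc (1 : ℤ) ⌊tb3_M * a / d⌋)).card :=
      (card_le_card hsub).trans (card_biUnion_le.trans (sum_le_sum fun d _ => card_image_le))
    have h3 : ((tb3_np a P).card : ℝ) ≤ ((∑ d ∈ Ioc P N,
        ((Icc (1 : ℤ) ⌊tb3_M * a / d⌋) ×ˢ (Icc (1 : ℤ) ⌊tb3_M * a / d⌋)).card : ℕ) : ℝ) := by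
      exact_mod_cast h2
    refine h3.trans ?_
    push_cast
    exact sum_le_sum fun d _ => tb3_card_sq _ (by positivity)
  refine h1.trans ?_
  have h2 : ∑ d ∈ Ioc P N, (tb3_M * a / (d : ℝ)) ^ 2 =
      (tb3_M * a) ^ 2 * ∑ d ∈ Ioc P N, ((d : ℝ) ^ 2)⁻¹ := by
    rw [mul_sum]
    refine sum_congr rfl fun d _ => ?_
    rw [div_pow, div_eq_mul_inv]
  rw [h2]
  refine mul_le_mul_of_nonneg_left ?_ (by positivity)
  by_cases hPN : P ≤ N
  · have h3 := sum_Ioc_inv_sq_le_sub (α := ℝ) (by omega : P ≠ 0) hPN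
    have h4 : (0 : ℝ) ≤ (N : ℝ)⁻¹ := by positivity
    rw [one_div]
    linarith
  · rw [Ioc_eq_empty (by omega), sum_empty]
    positivity

theorem tb3_mem_bx {a : ℝ} (ha : 1 + 1 / gp ≤ a) {i : ℕ} (h1 : 1 ≤ i) (h4 : i ≤ 4) {v : ℤ × ℤ}
    (h : Bt a (sg (2 * i)) v) : v ∈ tb3_bx a := by
  obtain ⟨g1, g2, g3, g4⟩ := h
  have hgp := gp_pos
  have hg1 : 0 < 1 / gp := by positivity
  have ha0 : 0 < a := by linarith
  have ha1 : 1 ≤ a := by linarith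
  have hsg := sg_ge (l := 2 * i) (by omega)
  have hsg' := sg_le' (l := 2 * i) (by omega)
  have hee := ee_le
  have hee0 := ee_pos
  have k1 : 1 ≤ a * gp := by
    have : (1 / gp) * gp ≤ a * gp := mul_le_mul_of_nonneg_right (by linarith) hgp.le
    rwa [one_div, inv_mul_cancel₀ hgp.ne'] at this
  have k2 : a * gp ≤ a * sg (2 * i) := mul_le_mul_of_nonneg_left hsg ha0.le
  have k3 : a * sg (2 * i) ≤ a * Sl := mul_le_mul_of_nonneg_left hsg' ha0.le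
  have k4 : ee * a ≤ 1 / 400 * a := mul_le_mul_of_nonneg_right hee ha0.le
  have hS := Sl_pos
  have k5 : 0 < a * Sl := mul_pos ha0 hS
  unfold tb3_bx tb3_M
  rw [mem_product, mem_Icc, mem_Icc]
  refine ⟨⟨?_, ?_⟩, ⟨?_, ?_⟩⟩
  · have : (1 : ℝ) ≤ (v.1 : ℝ) := by linarith
    exact_mod_cast this
  · rw [Int.le_floor]; linarith
  · have : (1 : ℝ) ≤ (v.2 : ℝ) := by linarith
    exact_mod_cast this
  · rw [Int.le_floor]; linarith

theorem tb3_vx (y : Fin 4 → ℤ × ℤ) (j : Fin 4) : vx y (j.val + 1) = y j := by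
  unfold vx
  rw [if_neg (by omega), dif_pos (by omega)]
  rfl

open Classical in
/-- block TB3: few non-primitive vectors without small prime factors -/
theorem tiny_prim_pr : ∃ C A₀ : ℝ, 0 < C ∧ ∀ A : ℕ → ℝ, (∀ i, 1 ≤ i → i ≤ 4 → A₀ ≤ A i) →
    ∀ P1 : ℕ, 1 ≤ P1 → ∀ G : Finset (Fin 4 → ℤ × ℤ), (∀ y ∈ G, (∀ i, 1 ≤ i → i ≤ 4 →
      Bt (A i) (sg (2 * i)) (vx y i) ∧ ∀ p : ℕ, p.Prime → p ≤ P1 →
        ¬ ((p : ℤ) ∣ (vx y i).1 ∧ (p : ℤ) ∣ (vx y i).2))) →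
    ((G.filter (fun y => ¬ ∀ i, 1 ≤ i → i ≤ 4 → IsCoprime (vx y i).1 (vx y i).2)).card : ℝ) ≤
      C * (1 / P1 + ∑ i ∈ Icc 1 4, 1 / A i) * (A 1 * A 2 * A 3 * A 4) ^ 2 := by
  have hM := tb3_M_pos
  refine ⟨4 * tb3_M ^ 8, 1 + 1 / gp, by positivity, ?_⟩
  intro A hA P1 hP1 G hG
  have hgp := gp_pos
  have hg1 : 0 < 1 / gp := by positivity
  have hApos' : ∀ j : Fin 4, 1 + 1 / gp ≤ A (j.val + 1) := fun j => hA _ (by omega) (by omega)
  have hApos : ∀ j : Fin 4, 1 ≤ A (j.val + 1) := fun j => by linarith [hApos' j]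
  have hsub : (G.filter (fun y => ¬ ∀ i, 1 ≤ i → i ≤ 4 → IsCoprime (vx y i).1 (vx y i).2)) ⊆
      (univ : Finset (Fin 4)).biUnion (fun i => Fintype.piFinset (fun j : Fin 4 =>
        if j = i then tb3_np (A (j.val + 1)) P1 else tb3_bx (A (j.val + 1)))) := by
    intro y hz
    simp only [mem_filter] at hz
    obtain ⟨hz, hne⟩ := hz
    push Not at hne
    obtain ⟨i, h1, h4, hi⟩ := hne
    have hbx : ∀ j : Fin 4, y j ∈ tb3_bx (A (j.val + 1)) := by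
      intro j
      have := (hG y hz (j.val + 1) (by omega) (by omega)).1
      rw [tb3_vx] at this
      exact tb3_mem_bx (hApos' j) (by omega) (by omega) this
    rw [mem_biUnion]
    refine ⟨⟨i - 1, by omega⟩, mem_univ _, ?_⟩
    rw [Fintype.mem_piFinset]
    intro j
    split_ifs with hj
    · unfold tb3_np
      rw [mem_filter]
      refine ⟨hbx j, ?_⟩
      have hji : j.val + 1 = i := by rw [hj]; show i - 1 + 1 = i; omega
      have hv : vx y i = y j := by rw [← hji, tb3_vx]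
      rw [hv] at hi
      rw [Int.isCoprime_iff_gcd_eq_one] at hi
      obtain ⟨p, hp, hpd⟩ := Nat.exists_prime_and_dvd hi
      have hd1 : (p : ℤ) ∣ (y j).1 := (Int.natCast_dvd_natCast.2 hpd).trans (Int.gcd_dvd_left ..)
      have hd2 : (p : ℤ) ∣ (y j).2 := (Int.natCast_dvd_natCast.2 hpd).trans (Int.gcd_dvd_right ..)
      refine ⟨p, ?_, hd1, hd2⟩
      by_contra hc
      have := (hG y hz i h1 h4).2 p hp (by omega)
      rw [hv] at this
      exact this ⟨hd1, hd2⟩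
    · exact hbx j
  have hcard : ∀ i : Fin 4, ((Fintype.piFinset (fun j : Fin 4 =>
        if j = i then tb3_np (A (j.val + 1)) P1 else tb3_bx (A (j.val + 1)))).card : ℝ) ≤
      tb3_M ^ 8 * (1 / P1) * (A 1 * A 2 * A 3 * A 4) ^ 2 := by
    intro i
    rw [Fintype.card_piFinset]
    push_cast
    have h1 : ∏ j : Fin 4, (((if j = i then tb3_np (A (j.val + 1)) P1 else
        tb3_bx (A (j.val + 1))).card : ℕ) : ℝ) ≤
        ∏ j : Fin 4, ((tb3_M * A (j.val + 1)) ^ 2 * (if j = i then 1 / (P1 : ℝ) else 1)) := by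
      refine prod_le_prod (fun _ _ => by positivity) ?_
      intro j _
      have h0 : 0 ≤ A (j.val + 1) := by linarith [hApos j]
      split_ifs with hj
      · exact tb3_np_card _ h0 P1 hP1
      · rw [mul_one]
        exact tb3_card_sq _ (by positivity)
    refine h1.trans (le_of_eq ?_)
    rw [prod_mul_distrib, prod_ite_eq']
    simp only [mem_univ, if_true]
    have h2 : ∏ j : Fin 4, (tb3_M * A (j.val + 1)) ^ 2 =
        tb3_M ^ 8 * (A 1 * A 2 * A 3 * A 4) ^ 2 := by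
      rw [Fin.prod_univ_four]
      show (tb3_M * A (0 + 1)) ^ 2 * (tb3_M * A (1 + 1)) ^ 2 * (tb3_M * A (2 + 1)) ^ 2 * (tb3_M * A (3 + 1)) ^ 2 = _
      norm_num
      ring
    rw [h2]
    ring
  have h1 : ((G.filter (fun y => ¬ ∀ i, 1 ≤ i → i ≤ 4 →
      IsCoprime (vx y i).1 (vx y i).2)).card : ℝ) ≤
      ∑ i : Fin 4, tb3_M ^ 8 * (1 / (P1 : ℝ)) * (A 1 * A 2 * A 3 * A 4) ^ 2 := by
    refine le_trans ?_ (sum_le_sum fun i _ => hcard i)
    have := (card_le_card hsub).trans card_biUnion_le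
    exact_mod_cast this
  refine h1.trans ?_
  rw [sum_const, card_univ, Fintype.card_fin, nsmul_eq_mul]
  push_cast
  have h2 : 0 ≤ ∑ i ∈ Icc 1 4, 1 / A i := by
    refine sum_nonneg fun i hi => ?_
    rw [mem_Icc] at hi
    have h9 := hA i hi.1 hi.2
    have h10 : 0 < A i := by linarith
    positivity
  have h3 : 0 ≤ (A 1 * A 2 * A 3 * A 4) ^ 2 := by positivity
  have h4 : 4 * tb3_M ^ 8 * (1 / (P1 : ℝ)) ≤ 4 * tb3_M ^ 8 * (1 / P1 + ∑ i ∈ Icc 1 4, 1 / A i) := by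
    refine mul_le_mul_of_nonneg_left ?_ (by positivity)
    linarith
  calc _ = 4 * tb3_M ^ 8 * (1 / (P1 : ℝ)) * (A 1 * A 2 * A 3 * A 4) ^ 2 := by ring
    _ ≤ _ := mul_le_mul_of_nonneg_right h4 h3

alias tiny_prim := tiny_prim_pr

end Pool.Agent.AQ.TPA
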