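import Pool.Agent.Lib_helper15.AQ.TP.Facts
import Pool.Agent.Lib_helper15.AQ.TPF.TA1
import Pool.Agent.Lib_helper15.AQ.TPF.TB1
import Pool.Agent.Lib_helper15.AQ.TPF.TB2
import Pool.Agent.Lib_helper15.AQ.TPF.TB3

/-!
# AQ (MP_892e4c_nt), (LB): block TB4, port of `TPF/TB4` (helper96)
-/

set_option autoImplicit false

namespace Pool.Agent.AQ.TPA

open Finset Pool.Agent.PENT Pool.Agent.AQ.NC
open Pool.Agent.TPA (PX ell lc)

theorem tb4_one_sub {ι : Type*} (s : Finset ι) (f : ι → ℝ) (h0 : ∀ i ∈ s, 0 ≤ f i)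
    (h1 : ∀ i ∈ s, f i ≤ 1) : 1 - ∑ i ∈ s, f i ≤ ∏ i ∈ s, (1 - f i) := by
  classical
  induction s using Finset.induction_on with
  | empty => simp
  | @insert a s ha ih =>
    rw [Finset.sum_insert ha, Finset.prod_insert ha]
    have i1 := ih (fun i hi => h0 i (Finset.mem_insert_of_mem hi))
      (fun i hi => h1 i (Finset.mem_insert_of_mem hi))
    have i2 : 0 ≤ f a := h0 a (Finset.mem_insert_self _ _)
    have i3 : f a ≤ 1 := h1 a (Finset.mem_insert_self _ _)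
    have i4 : 0 ≤ ∑ i ∈ s, f i :=
      Finset.sum_nonneg (fun i hi => h0 i (Finset.mem_insert_of_mem hi))
    have i5 : (1 - f a) * (1 - ∑ i ∈ s, f i) ≤ (1 - f a) * ∏ i ∈ s, (1 - f i) :=
      mul_le_mul_of_nonneg_left i1 (by linarith)
    nlinarith [mul_nonneg i2 i4]

theorem tb4_totient {n : ℕ} (hn : 0 < n) :
    1 - ∑ p ∈ n.primeFactors, 1 / (p : ℝ) ≤ (n.totient : ℝ) / n := by
  have h1 := Nat.totient_eq_mul_prod_factors n
  have h2 : (n.totient : ℝ) = n * ∏ p ∈ n.primeFactors, (1 - 1 / (p : ℝ)) := by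
    have := congrArg (fun x : ℚ => (x : ℝ)) h1
    push_cast at this
    simpa [one_div] using this
  have hn0 : (0 : ℝ) < n := by exact_mod_cast hn
  rw [h2, mul_div_cancel_left₀ _ hn0.ne']
  apply tb4_one_sub
  · intro p _; positivity
  · intro p hp
    have h3 : (1 : ℝ) ≤ p := by exact_mod_cast (Nat.prime_of_mem_primeFactors hp).one_le
    rw [div_le_one (by linarith)]
    exact h3

/-- the primes above `m` -/
theorem tb4_big {n M : ℕ} {m : ℝ} (hn : 0 < n) (hm : 0 < m)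
    (hM : ∀ p : ℕ, ¬ p ≤ M → m ≤ (p : ℝ)) :
    ∑ p ∈ n.primeFactors.filter (fun p => ¬ p ≤ M), 1 / (p : ℝ) ≤ 2 * Real.log n / m := by
  calc ∑ p ∈ n.primeFactors.filter (fun p => ¬ p ≤ M), 1 / (p : ℝ)
      ≤ ∑ p ∈ n.primeFactors.filter (fun p => ¬ p ≤ M), 1 / m := by
        apply Finset.sum_le_sum
        intro p hp
        exact one_div_le_one_div_of_le hm (hM p (Finset.mem_filter.1 hp).2)
    _ = (n.primeFactors.filter (fun p => ¬ p ≤ M)).card * (1 / m) := by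
        rw [Finset.sum_const, nsmul_eq_mul]
    _ ≤ (2 * Real.log n) * (1 / m) := by
        apply mul_le_mul_of_nonneg_right _ (by positivity)
        refine le_trans ?_ (card_pf_le hn)
        exact_mod_cast Finset.card_filter_le _ _
    _ = _ := by ring

/-- the primes up to `M` on average -/
theorem tb4_loss {Z : Type*} (G : Finset Z) (d : Z → ℕ) {P1 M : ℕ} (hP1 : 1 ≤ P1)
    (hM : 1 ≤ M) {C σ Q : ℝ} (hC : 0 ≤ C) (hσ : 0 ≤ σ) (hQ : 0 ≤ Q)
    (hP : ∀ z ∈ G, ∀ p : ℕ, p.Prime → p ≤ P1 → ¬ p ∣ d z)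
    (hc : ∀ p : ℕ, p.Prime → ((G.filter (fun z => p ∣ d z)).card : ℝ) ≤ C * (1 / p + σ) * Q) :
    ∑ z ∈ G, ∑ p ∈ (d z).primeFactors.filter (fun p => p ≤ M), 1 / (p : ℝ) ≤
      C * Q * (1 / P1 + σ * (1 + Real.log M)) := by
  classical
  have h1 : ∑ z ∈ G, ∑ p ∈ (d z).primeFactors.filter (fun p => p ≤ M), 1 / (p : ℝ) ≤
      ∑ z ∈ G, ∑ p ∈ (Ioc P1 M).filter Nat.Prime, if p ∣ d z then 1 / (p : ℝ) else 0 := by
    apply Finset.sum_le_sum
    intro z hz
    rw [← Finset.sum_filter]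
    apply Finset.sum_le_sum_of_subset_of_nonneg
    · intro p hp
      obtain ⟨h1, h2⟩ := Finset.mem_filter.1 hp
      have hp' := Nat.prime_of_mem_primeFactors h1
      have hd := Nat.dvd_of_mem_primeFactors h1
      refine Finset.mem_filter.2 ⟨Finset.mem_filter.2 ⟨Finset.mem_Ioc.2 ⟨?_, h2⟩, hp'⟩, hd⟩
      by_contra hne
      exact hP z hz p hp' (by omega) hd
    · intro p _ _
      positivity
  refine h1.trans ?_
  rw [Finset.sum_comm]
  have h2 : ∀ p ∈ (Ioc P1 M).filter Nat.Prime,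
      ∑ z ∈ G, (if p ∣ d z then 1 / (p : ℝ) else 0) ≤
        C * Q * (((p : ℝ) ^ 2)⁻¹ + σ * (1 / (p : ℝ))) := by
    intro p hp
    have hp' := (Finset.mem_filter.1 hp).2
    have hp0 : (0 : ℝ) < p := by exact_mod_cast hp'.pos
    rw [← Finset.sum_filter, Finset.sum_const, nsmul_eq_mul]
    calc ((G.filter (fun z => p ∣ d z)).card : ℝ) * (1 / (p : ℝ))
        ≤ (C * (1 / p + σ) * Q) * (1 / (p : ℝ)) :=
          mul_le_mul_of_nonneg_right (hc p hp') (by positivity)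
      _ = _ := by field_simp
  refine (Finset.sum_le_sum h2).trans ?_
  rw [← Finset.mul_sum]
  apply mul_le_mul_of_nonneg_left _ (mul_nonneg hC hQ)
  rw [Finset.sum_add_distrib, ← Finset.mul_sum]
  apply add_le_add
  · by_cases hPM : P1 ≤ M
    · calc ∑ p ∈ (Ioc P1 M).filter Nat.Prime, ((p : ℝ) ^ 2)⁻¹
          ≤ ∑ p ∈ Ioc P1 M, ((p : ℝ) ^ 2)⁻¹ := by
            apply Finset.sum_le_sum_of_subset_of_nonneg (Finset.filter_subset _ _)
            intro p _ _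
            positivity
        _ ≤ (P1 : ℝ)⁻¹ - (M : ℝ)⁻¹ := sum_Ioc_inv_sq_le_sub (by omega) hPM
        _ ≤ 1 / (P1 : ℝ) := by
            rw [one_div]
            have : (0 : ℝ) ≤ (M : ℝ)⁻¹ := by positivity
            linarith
    · rw [Finset.Ioc_eq_empty (by omega)]
      simp
  · apply mul_le_mul_of_nonneg_left _ hσ
    calc ∑ p ∈ (Ioc P1 M).filter Nat.Prime, 1 / (p : ℝ)
        ≤ ∑ p ∈ Icc 1 M, 1 / (p : ℝ) := by
          apply Finset.sum_le_sum_of_subset_of_nonneg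
          · intro p hp
            have := Finset.mem_Ioc.1 (Finset.mem_filter.1 hp).1
            exact Finset.mem_Icc.2 ⟨by omega, this.2⟩
          · intro p _ _
            positivity
      _ = (harmonic M : ℝ) := by
          rw [harmonic_eq_sum_Icc]
          push_cast
          simp [one_div]
      _ ≤ _ := harmonic_le_one_add_log M

theorem tb4_mf {α : Type*} (p : α → Prop) (inst : DecidablePred p) (s : Finset α) (x : α) :
    x ∈ @Finset.filter α p inst s ↔ x ∈ s ∧ p x := Finset.mem_filter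

variable [Cst]

/-- the scales with `A 0 = 1`, `A 5 = z.1` -/
noncomputable def tb4_A (A : ℕ → ℝ) (i : ℕ) : ℝ :=
  if 1 ≤ i ∧ i ≤ 4 then A i else if i = 0 then 1 else (zz.1 : ℝ)

/-- the constant of the determinants -/
noncomputable def tb4_B : ℝ := 2 * Sl + 1

theorem tb4_B_pos : 0 < tb4_B := by
  unfold tb4_B
  linarith [Sl_pos]

theorem tb4_z1 : (1 : ℝ) ≤ (zz.1 : ℝ) := by
  have h : (1 : ℤ) ≤ zz.1 := by
    have : (0 : ℤ) < zz.1 := z1_pos
    omega
  exact_mod_cast h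

theorem tb4_nb {A : ℕ → ℝ} (hA : ∀ i, 0 < tb4_A A i) {y : Fin 4 → ℤ × ℤ}
    (h : ∀ i, 1 ≤ i → i ≤ 4 → Bt (A i) (sg (2 * i)) (vx y i)) {i : ℕ} (hi : i ≤ 5) :
    Nr (HH * ee) (tb4_A A i) (sg (2 * i)) (vx y i) := by
  refine nr_mono ee_le_hee (hA i).le ?_
  have hee := ee_pos
  unfold tb4_A
  by_cases h1 : 1 ≤ i ∧ i ≤ 4
  · rw [if_pos h1]
    have h2 := hA i
    unfold tb4_A at h2
    rw [if_pos h1] at h2
    exact nr_of_bt h2.le (h i h1.1 h1.2)
  · rw [if_neg h1]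
    have h2 : i = 0 ∨ i = 5 := by omega
    rcases h2 with rfl | rfl
    · rw [if_pos rfl, mul_zero, sg_zero]
      have e : vx y 0 = (1, 0) := by simp [vx]
      rw [e]
      constructor
      · simp only [Int.cast_one, sub_self, abs_zero, mul_one]
        exact hee.le
      · simp only [Int.cast_zero, mul_zero, sub_self, abs_zero, mul_one]
        exact hee.le
    · rw [if_neg (by norm_num), show 2 * 5 = 10 by norm_num, sg_ten]
      have e : vx y 5 = zz := by simp [vx]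
      rw [e]
      have := zz1_pos
      constructor
      · rw [sub_self, abs_zero]; positivity
      · rw [← zz2_eq, sub_self, abs_zero]; positivity

theorem tb4_De {A : ℕ → ℝ} (hA : ∀ i, 0 < tb4_A A i) {y : Fin 4 → ℤ × ℤ}
    (h : ∀ i, 1 ≤ i → i ≤ 4 → Bt (A i) (sg (2 * i)) (vx y i)) {b : ℕ} (hb : b ≤ 4) :
    0 < De (vx y) b ∧ (De (vx y) b : ℝ) ≤ tb4_B * (tb4_A A b * tb4_A A (b + 1)) := by
  have h1 := nr_sep (l := 2 * b) (m := 2 * (b + 1)) (by omega) (by omega) (hA b) (hA (b + 1))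
    (tb4_nb hA h (by omega : b ≤ 5)) (tb4_nb hA h (by omega : b + 1 ≤ 5))
  have h2 := sg_sep (l := 2 * b) (m := 2 * (b + 1)) (by omega) (by omega)
  rw [sgn_ee, one_mul] at h1 h2
  rw [one_mul] at h1
  have hAA : 0 < tb4_A A b * tb4_A A (b + 1) := mul_pos (hA b) (hA (b + 1))
  have hgp := gp_pos
  have hS := Sl_pos
  unfold De
  constructor
  · have : (0 : ℝ) < dt (vx y b) (vx y (b + 1)) := by
      refine lt_of_lt_of_le ?_ h1.1
      have : 0 < sg (2 * (b + 1)) - sg (2 * b) := by linarith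
      positivity
    exact_mod_cast this
  · refine h1.2.trans ?_
    apply mul_le_mul_of_nonneg_right _ hAA.le
    unfold tb4_B
    linarith

/-- membership in `TinF` -/
theorem tb4_mem {P1 : ℕ} {S : Finset ℕ} {A : ℕ → ℝ} (hA : ∀ i, 1 ≤ i → i ≤ 4 → 0 ≤ A i)
    {y : Fin 4 → ℤ × ℤ} (hb : ∀ i, 1 ≤ i → i ≤ 4 → Bt (A i) (sg (2 * i)) (vx y i))
    (hl : ∀ i, 1 ≤ i → i ≤ 4 → (M0 : ℤ) ∣ (vx y i).1 - 1 ∧ (M0 : ℤ) ∣ (vx y i).2 + (i : ℤ))
    (hc : ∀ i, 1 ≤ i → i ≤ 4 → IsCoprime (vx y i).1 (vx y i).2)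
    (hd : ∀ b, b ≤ 4 → ∀ p : ℕ, p.Prime → ¬ p ∣ R → p ≤ P1 → ¬ (p : ℤ) ∣ De (vx y) b)
    (he : ∀ p ∈ S, ∀ a b, a < b → b ≤ 5 → ¬ (p : ℤ) ∣ dt (vx y a) (vx y b)) :
    y ∈ TinF P1 S A := by
  classical
  unfold TinF
  rw [Finset.mem_filter]
  refine ⟨?_, ⟨by simp [vx], by simp [vx], hb, hl, hc, hd, he⟩⟩
  rw [Fintype.mem_piFinset]
  intro i
  have hi : i.val + 1 ≤ 4 := by omega
  have e : vx y (i.val + 1) = y i := by
    unfold vx
    rw [if_neg (by omega), dif_pos hi]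
    congr 1
  obtain ⟨h1, h2, h3, h4⟩ := hb (i.val + 1) (by omega) hi
  rw [e] at h1 h2 h3 h4
  have hA0 := hA (i.val + 1) (by omega) hi
  have s0 := sg_nonneg (2 * (i.val + 1))
  have s1 := sg_le' (l := 2 * (i.val + 1)) (by omega)
  have hee := ee_le
  have hS := Sl_pos
  have b1 : ee * A (i.val + 1) ≤ 1 / 400 * A (i.val + 1) := mul_le_mul_of_nonneg_right hee hA0
  have b2 : A (i.val + 1) * sg (2 * (i.val + 1)) ≤ A (i.val + 1) * Sl :=
    mul_le_mul_of_nonneg_left s1 hA0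
  have c2 : 0 ≤ A (i.val + 1) * sg (2 * (i.val + 1)) := mul_nonneg hA0 s0
  have c3 : 0 ≤ A (i.val + 1) * Sl := mul_nonneg hA0 hS.le
  rw [Finset.mem_product, Finset.mem_Icc, Finset.mem_Icc]
  refine ⟨⟨?_, ?_⟩, ?_, ?_⟩
  · have : (0 : ℝ) ≤ ((y i).1 : ℝ) := by linarith
    exact_mod_cast this
  · have : ((y i).1 : ℝ) ≤ (⌈(2 + Sl) * A (i.val + 1)⌉ : ℝ) := by
      refine le_trans ?_ (Int.le_ceil _)
      nlinarith
    exact_mod_cast this
  · have : (0 : ℝ) ≤ ((y i).2 : ℝ) := by linarith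
    exact_mod_cast this
  · have : ((y i).2 : ℝ) ≤ (⌈(2 + Sl) * A (i.val + 1)⌉ : ℝ) := by
      refine le_trans ?_ (Int.le_ceil _)
      nlinarith
    exact_mod_cast this

/-- the modulus `Dq` divides the determinant and is positive -/
theorem tb4_Dq {P1 : ℕ} {S : Finset ℕ} {A : ℕ → ℝ} {v : ℕ → ℤ × ℤ} (h : Tin P1 S A v) {b : ℕ}
    (hD : 0 < De v b) : 0 < Dq v b ∧ Dq v b ∣ (De v b).natAbs ∧ (Dq v b : ℝ) ≤ (De v b : ℝ) := by
  have h1 := h.De_eq b
  have h2 : 0 < (De v b).natAbs := by omega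
  have h3 : Dq v b ∣ (De v b).natAbs := ⟨if b = 4 then gb else 1, by rw [h1]; ring⟩
  refine ⟨Nat.pos_of_dvd_of_pos h3 h2, h3, ?_⟩
  have h4 : Dq v b ≤ (De v b).natAbs := Nat.le_of_dvd h2 h3
  have h5 : (((De v b).natAbs : ℕ) : ℝ) = (De v b : ℝ) := by
    rw [Nat.cast_natAbs, abs_of_pos hD]
  rw [← h5]
  exact_mod_cast h4

/-- the term of one class -/
theorem tb4_term {A : ℕ → ℝ} (hA : ∀ i, 0 < tb4_A A i) {P1 : ℕ} {S : Finset ℕ}
    {y : Fin 4 → ℤ × ℤ} (ht : Tin P1 S A (vx y)) {M : ℕ} {m T : ℝ}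
    (hm : 0 < m) (hM : ∀ p : ℕ, ¬ p ≤ M → m ≤ (p : ℝ))
    (hT : ∀ b ∈ range 5, tb4_B * (tb4_A A b * tb4_A A (b + 1)) ≤ T)
    (hTm : 2 * Real.log T / m ≤ 1 / 20) :
    (tb4_B ^ 5 * zz.1 * (A 1 * A 2 * A 3 * A 4) ^ 2)⁻¹ * (3 / 4 - ∑ b ∈ range 5,
      ∑ p ∈ (Dq (vx y) b).primeFactors.filter (fun p => p ≤ M), 1 / (p : ℝ)) ≤
    ∏ b ∈ range 5, (((Dq (vx y) b).totient : ℝ) / (Dq (vx y) b : ℝ) ^ 2) := by
  have h := ht.bx
  have hD : ∀ b ∈ range 5, 0 < De (vx y) b ∧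
      (De (vx y) b : ℝ) ≤ tb4_B * (tb4_A A b * tb4_A A (b + 1)) := by
    intro b hb
    exact tb4_De hA h (by have := Finset.mem_range.1 hb; omega)
  have hq : ∀ b ∈ range 5, 0 < Dq (vx y) b ∧ (Dq (vx y) b : ℝ) ≤ (De (vx y) b : ℝ) := by
    intro b hb
    have := tb4_Dq ht (hD b hb).1
    exact ⟨this.1, this.2.2⟩
  have hposR : ∀ b ∈ range 5, (0 : ℝ) < Dq (vx y) b := by
    intro b hb
    exact_mod_cast (hq b hb).1
  have hBp := tb4_B_pos
  have hz1 := tb4_z1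
  -- the product of the determinants
  have hprod : ∏ b ∈ range 5, (Dq (vx y) b : ℝ) ≤
      tb4_B ^ 5 * zz.1 * (A 1 * A 2 * A 3 * A 4) ^ 2 := by
    calc ∏ b ∈ range 5, (Dq (vx y) b : ℝ)
        ≤ ∏ b ∈ range 5, tb4_B * (tb4_A A b * tb4_A A (b + 1)) :=
          Finset.prod_le_prod (fun b hb => (hposR b hb).le)
            (fun b hb => (hq b hb).2.trans (hD b hb).2)
      _ = _ := by
          simp [Finset.prod_range_succ, tb4_A]
          ring
  have hprod0 : 0 < ∏ b ∈ range 5, (Dq (vx y) b : ℝ) := Finset.prod_pos hposR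
  -- the totients
  have htot : 3 / 4 - ∑ b ∈ range 5,
      ∑ p ∈ (Dq (vx y) b).primeFactors.filter (fun p => p ≤ M), 1 / (p : ℝ) ≤
      ∏ b ∈ range 5, (((Dq (vx y) b).totient : ℝ) / (Dq (vx y) b : ℝ)) := by
    have h1 : ∀ b ∈ range 5, 1 - (((Dq (vx y) b).totient : ℝ) / (Dq (vx y) b : ℝ)) ≤
        (∑ p ∈ (Dq (vx y) b).primeFactors.filter (fun p => p ≤ M), 1 / (p : ℝ)) +
          1 / 20 := by
      intro b hb
      have g1 := tb4_totient (hq b hb).1
      rw [← Finset.sum_filter_add_sum_filter_not _ (fun p => p ≤ M)] at g1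
      have g2 := tb4_big (hq b hb).1 hm hM
      have g3 : 2 * Real.log (Dq (vx y) b : ℝ) / m ≤ 2 * Real.log T / m := by
        apply div_le_div_of_nonneg_right _ hm.le
        apply mul_le_mul_of_nonneg_left _ (by norm_num)
        apply Real.log_le_log
        · exact hposR b hb
        · exact ((hq b hb).2.trans (hD b hb).2).trans (hT b hb)
      linarith
    have h2 := tb4_one_sub (range 5)
      (fun b => 1 - (((Dq (vx y) b).totient : ℝ) / (Dq (vx y) b : ℝ)))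
      (by
        intro b hb
        have : (((Dq (vx y) b).totient : ℝ) / (Dq (vx y) b : ℝ)) ≤ 1 := by
          rw [div_le_one (hposR b hb)]
          exact_mod_cast Nat.totient_le _
        show 0 ≤ 1 - (((Dq (vx y) b).totient : ℝ) / (Dq (vx y) b : ℝ))
        linarith)
      (by
        intro b hb
        have : 0 ≤ (((Dq (vx y) b).totient : ℝ) / (Dq (vx y) b : ℝ)) :=
          div_nonneg (Nat.cast_nonneg _) (hposR b hb).le
        show 1 - (((Dq (vx y) b).totient : ℝ) / (Dq (vx y) b : ℝ)) ≤ 1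
        linarith)
    simp only [sub_sub_cancel] at h2
    refine le_trans ?_ h2
    have h3 := Finset.sum_le_sum h1
    rw [Finset.sum_add_distrib, Finset.sum_const, Finset.card_range, nsmul_eq_mul] at h3
    push_cast at h3
    linarith
  have hsplit : ∏ b ∈ range 5, (((Dq (vx y) b).totient : ℝ) / (Dq (vx y) b : ℝ) ^ 2) =
      (∏ b ∈ range 5, (Dq (vx y) b : ℝ))⁻¹ *
      ∏ b ∈ range 5, (((Dq (vx y) b).totient : ℝ) / (Dq (vx y) b : ℝ)) := by
    rw [← Finset.prod_inv_distrib, ← Finset.prod_mul_distrib]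
    apply Finset.prod_congr rfl
    intro b hb
    have := (hposR b hb).ne'
    field_simp
  have hprodn : 0 ≤ ∏ b ∈ range 5, (((Dq (vx y) b).totient : ℝ) / (Dq (vx y) b : ℝ)) :=
    Finset.prod_nonneg (fun b hb => div_nonneg (Nat.cast_nonneg _) (hposR b hb).le)
  rw [hsplit]
  have hinv : (tb4_B ^ 5 * zz.1 * (A 1 * A 2 * A 3 * A 4) ^ 2)⁻¹ ≤
      (∏ b ∈ range 5, (Dq (vx y) b : ℝ))⁻¹ := inv_anti₀ hprod0 hprod
  have hinv0 : 0 ≤ (tb4_B ^ 5 * (zz.1 : ℝ) * (A 1 * A 2 * A 3 * A 4) ^ 2)⁻¹ := by positivity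
  exact (mul_le_mul_of_nonneg_left htot hinv0).trans (mul_le_mul_of_nonneg_right hinv hprodn)

omit [Cst] in
/-- the constants for large `m` -/
theorem tb4_large (B C2 C3 θ : ℝ) (hB : 0 < B) (hθ : 0 < θ) (K : ℕ) : ∃ A₀ : ℝ, ∀ m ≥ A₀,
    1 ≤ m ∧ C3 * (4 / m) ≤ θ ∧ 5 * C2 * (4 / m * (1 + Real.log m)) ≤ θ ∧
    2 * Real.log (B * m ^ (2 * K)) / m ≤ 1 / 20 := by
  have t0 : Filter.Tendsto (fun m : ℝ => 1 / m) Filter.atTop (nhds 0) := by
    simpa [one_div] using tendsto_inv_atTop_zero (𝕜 := ℝ)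
  have t1 : Filter.Tendsto (fun m : ℝ => Real.log m / m) Filter.atTop (nhds 0) := by
    simpa using Real.tendsto_pow_log_div_mul_add_atTop 1 0 1 one_ne_zero
  have u1 : Filter.Tendsto (fun m : ℝ => 4 * C3 * (1 / m)) Filter.atTop (nhds 0) := by
    simpa using t0.const_mul (4 * C3)
  have u2 : Filter.Tendsto (fun m : ℝ => 20 * C2 * (1 / m + Real.log m / m)) Filter.atTop
      (nhds 0) := by
    simpa using (t0.add t1).const_mul (20 * C2)
  have u3 : Filter.Tendsto (fun m : ℝ => 2 * Real.log B * (1 / m) + 4 * K * (Real.log m / m))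
      Filter.atTop (nhds 0) := by
    simpa using (t0.const_mul (2 * Real.log B)).add (t1.const_mul (4 * (K : ℝ)))
  obtain ⟨A₀, hA₀⟩ := Filter.eventually_atTop.1
    ((Filter.eventually_ge_atTop (1 : ℝ)).and ((u1.eventually_le_const hθ).and
      ((u2.eventually_le_const hθ).and
        (u3.eventually_le_const (show (0 : ℝ) < 1 / 20 by norm_num)))))
  refine ⟨A₀, fun m hm => ?_⟩
  obtain ⟨a1, a2, a3, a4⟩ := hA₀ m hm
  have hm0 : 0 < m := by linarith
  refine ⟨a1, ?_, ?_, ?_⟩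
  · refine le_trans (le_of_eq ?_) a2
    ring
  · refine le_trans (le_of_eq ?_) a3
    ring
  · refine le_trans (le_of_eq ?_) a4
    rw [Real.log_mul hB.ne' (by positivity), Real.log_pow]
    push_cast
    ring

theorem tb4_dvd_both {y : Fin 4 → ℤ × ℤ} {p : ℕ} {i : ℕ} (h1 : (p : ℤ) ∣ (vx y i).1)
    (h2 : (p : ℤ) ∣ (vx y i).2) : (p : ℤ) ∣ De (vx y) i := by
  unfold De dt
  exact dvd_sub (h1.mul_right _) (h2.mul_right _)

/-- block TB4 (uses TA1, TB1, TB2, TB3): the sum over the tiny vectors -/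
theorem tiny_sum_pr : ∃ (B₀ : ℕ) (c : ℝ), 0 < c ∧ 3 ≤ B₀ ∧ ∀ P1 : ℕ, B₀ ≤ P1 → ∀ K : ℕ,
    ∃ η A₀ : ℝ, 0 < η ∧ ∀ A : ℕ → ℝ, (∀ i, 1 ≤ i → i ≤ 4 → A₀ ≤ A i) →
    (∀ i j, 1 ≤ i → i ≤ 4 → 1 ≤ j → j ≤ 4 → A i ≤ A j ^ K) → ∀ S : Finset ℕ,
    (∀ p ∈ S, p.Prime ∧ ¬ (p : ℤ) ∣ zz.2) → ∑ p ∈ S, 1 / (p : ℝ) ≤ η →
    (∀ i, 1 ≤ i → i ≤ 4 → (S.card : ℝ) ≤ η * A i) →
    c * Real.log P1 ^ (-5 : ℝ) ≤ ∑ y ∈ TinF P1 S A,
      ∏ b ∈ range 5, (((Dq (vx y) b).totient : ℝ) / (Dq (vx y) b : ℝ) ^ 2) := by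
  classical
  obtain ⟨c0, hc0, hkp⟩ := kp_lower
  obtain ⟨c1, hc1, hcount⟩ := tiny_count
  obtain ⟨C2, A2, hC2, hdt⟩ := tiny_dt
  obtain ⟨C3, A3, hC3, hprim⟩ := tiny_prim
  have hκ0 : 0 < c1 * c0 ^ 5 := by positivity
  have hBp := tb4_B_pos
  have hz1 := tb4_z1
  have hz0 : (0 : ℝ) < zz.1 := by linarith
  -- the choice of `B₀`
  have hB : ∃ B₀ : ℕ, ∀ P1 ≥ B₀,
      (C3 + 5 * C2) * (Real.log (P1 : ℕ) ^ 5 / (P1 : ℕ)) ≤ c1 * c0 ^ 5 / 20 := by
    have t1 : Filter.Tendsto (fun m : ℝ => Real.log m ^ 5 / m) Filter.atTop (nhds 0) := by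
      simpa using Real.tendsto_pow_log_div_mul_add_atTop 1 0 5 one_ne_zero
    have t2 : Filter.Tendsto (fun n : ℕ => (C3 + 5 * C2) * (Real.log (n : ℝ) ^ 5 / (n : ℝ)))
        Filter.atTop (nhds 0) := by
      have := (t1.comp (tendsto_natCast_atTop_atTop (R := ℝ))).const_mul (C3 + 5 * C2)
      simpa using this
    exact Filter.eventually_atTop.1 (t2.eventually_le_const (by positivity))
  obtain ⟨B₀, hB₀⟩ := hB
  refine ⟨max B₀ 3, (tb4_B ^ 5 * (zz.1 : ℝ))⁻¹ * (c1 * c0 ^ 5 / 2), by positivity,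
    le_max_right _ _, fun P1 hP1 K => ?_⟩
  have hP13 : 3 ≤ P1 := le_trans (le_max_right _ _) hP1
  have hP1R : (3 : ℝ) ≤ P1 := by exact_mod_cast hP13
  have hL : 0 < Real.log P1 := Real.log_pos (by linarith)
  have hL5 : 0 < Real.log P1 ^ 5 := by positivity
  set θ : ℝ := c1 * c0 ^ 5 / (20 * Real.log P1 ^ 5) with hθ
  have hθ0 : 0 < θ := by positivity
  have hθP : (C3 + 5 * C2) * (1 / P1) ≤ θ := by
    have := hB₀ P1 (le_trans (le_max_left _ _) hP1)
    rw [hθ, le_div_iff₀ (by positivity)]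
    calc (C3 + 5 * C2) * (1 / (P1 : ℝ)) * (20 * Real.log P1 ^ 5)
        = 20 * ((C3 + 5 * C2) * (Real.log (P1 : ℕ) ^ 5 / (P1 : ℕ))) := by ring
      _ ≤ 20 * (c1 * c0 ^ 5 / 20) := by linarith
      _ = _ := by ring
  obtain ⟨A1, hA1⟩ := hcount P1 hP13
  obtain ⟨A4, hA4⟩ := tb4_large (tb4_B * (zz.1 : ℝ) ^ 2) C2 C3 θ (by positivity) hθ0 K
  refine ⟨θ / (70 * C2), max A1 (max A2 (max A3 A4)), by positivity,
    fun A hA hAK S hS hSs hSc => ?_⟩
  have hAa : ∀ i, 1 ≤ i → i ≤ 4 → A1 ≤ A i := fun i h1 h2 =>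
    (le_max_left _ _).trans (hA i h1 h2)
  have hAb : ∀ i, 1 ≤ i → i ≤ 4 → A2 ≤ A i := fun i h1 h2 =>
    (le_max_left _ _).trans ((le_max_right _ _).trans (hA i h1 h2))
  have hAc : ∀ i, 1 ≤ i → i ≤ 4 → A3 ≤ A i := fun i h1 h2 =>
    (le_max_left _ _).trans ((le_max_right _ _).trans ((le_max_right _ _).trans (hA i h1 h2)))
  have hAd : ∀ i, 1 ≤ i → i ≤ 4 → A4 ≤ A i := fun i h1 h2 =>
    (le_max_right _ _).trans ((le_max_right _ _).trans ((le_max_right _ _).trans (hA i h1 h2)))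
  -- the minimum
  obtain ⟨j, hj, hjmin⟩ := Finset.exists_min_image (Icc 1 4) A ⟨1, by simp⟩
  obtain ⟨hj1, hj4⟩ := Finset.mem_Icc.1 hj
  set m : ℝ := A j with hm
  obtain ⟨m1, m2, m3, m4⟩ := hA4 m (hAd j hj1 hj4)
  have hm0 : 0 < m := by linarith
  have hmin : ∀ i, 1 ≤ i → i ≤ 4 → m ≤ A i := fun i h1 h2 =>
    hjmin i (Finset.mem_Icc.2 ⟨h1, h2⟩)
  have hApos : ∀ i, 1 ≤ i → i ≤ 4 → 0 < A i := fun i h1 h2 =>
    lt_of_lt_of_le hm0 (hmin i h1 h2)
  have hApos' : ∀ i, 0 < tb4_A A i := by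
    intro i
    unfold tb4_A
    split_ifs with h h'
    · exact hApos i h.1 h.2
    · exact one_pos
    · exact hz0
  have hmK : 1 ≤ m ^ K := one_le_pow₀ m1
  have hAK' : ∀ i, tb4_A A i ≤ zz.1 * m ^ K := by
    intro i
    unfold tb4_A
    split_ifs with h h'
    · exact (hAK i j h.1 h.2 hj1 hj4).trans (le_mul_of_one_le_left (by positivity) hz1)
    · exact one_le_mul_of_one_le_of_one_le hz1 hmK
    · exact le_mul_of_one_le_right hz0.le hmK
  -- `σ` and `Q`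
  set σ : ℝ := ∑ i ∈ Icc 1 4, 1 / A i with hσ
  have hσ0 : 0 ≤ σ := Finset.sum_nonneg (fun i hi =>
    by have := hApos i (Finset.mem_Icc.1 hi).1 (Finset.mem_Icc.1 hi).2; positivity)
  have hσm : σ ≤ 4 / m := by
    calc σ ≤ ∑ i ∈ Icc 1 4, 1 / m := Finset.sum_le_sum (fun i hi =>
          one_div_le_one_div_of_le hm0 (hmin i (Finset.mem_Icc.1 hi).1 (Finset.mem_Icc.1 hi).2))
      _ = 4 / m := by simp; ring
  set Q : ℝ := (A 1 * A 2 * A 3 * A 4) ^ 2 with hQ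
  have hQ0 : 0 < Q := by
    have := hApos 1 (by norm_num) (by norm_num)
    have := hApos 2 (by norm_num) (by norm_num)
    have := hApos 3 (by norm_num) (by norm_num)
    have := hApos 4 (by norm_num) (by norm_num)
    positivity
  -- the classes
  obtain ⟨G, hG, hGc⟩ := hA1 A hAa
  have hGc' : 20 * θ * Q ≤ (G.card : ℝ) := by
    refine le_trans ?_ hGc
    have h1 := hkp P1 hP13
    have h2 : (c0 / Real.log P1) ^ 5 ≤ kp P1 ^ 5 := pow_le_pow_left₀ (by positivity) h1 5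
    apply mul_le_mul_of_nonneg_right _ hQ0.le
    calc 20 * θ = c1 * (c0 / Real.log P1) ^ 5 := by
          rw [hθ, div_pow]; field_simp
      _ ≤ _ := mul_le_mul_of_nonneg_left h2 hc1.le
  -- primitive
  set G1 := G.filter (fun y => ∀ i, 1 ≤ i → i ≤ 4 → IsCoprime (vx y i).1 (vx y i).2) with hG1
  have hG1c : ((G.card : ℕ) : ℝ) - C3 * (1 / P1 + σ) * Q ≤ (G1.card : ℝ) := by
    have h1 := hprim A hAc P1 (by omega) G (fun y hy i h1 h2 =>
      ⟨((hG y hy).1 i h1 h2).1, fun p hp hpP hd => by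
        by_cases hpR : p ∣ R
        · have hM : (p : ℤ) ∣ (vx y i).1 - 1 :=
            (Int.natCast_dvd_natCast.2 (hpR.trans R_dvd_M0)).trans ((hG y hy).1 i h1 h2).2.1
          have h3 := dvd_sub hd.1 hM
          rw [sub_sub_cancel] at h3
          have h4 := Int.le_of_dvd one_pos h3
          have := hp.one_lt
          omega
        · exact (hG y hy).2 i h2 p hp hpR hpP (tb4_dvd_both hd.1 hd.2)⟩)
    have h2 := Finset.card_filter_add_card_filter_not (s := G)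
      (fun y => ∀ i, 1 ≤ i → i ≤ 4 → IsCoprime (vx y i).1 (vx y i).2)
    have h3 : (G1.card : ℝ) + ((G.filter (fun y => ¬ ∀ i, 1 ≤ i → i ≤ 4 →
        IsCoprime (vx y i).1 (vx y i).2)).card : ℝ) = G.card := by
      exact_mod_cast h2
    linarith
  have hG1s : ∀ y ∈ G1, ∀ i, 1 ≤ i → i ≤ 4 →
      Bt (A i) (sg (2 * i)) (vx y i) ∧ IsCoprime (vx y i).1 (vx y i).2 := by
    intro y hy i h1 h2
    have hy' := (tb4_mf _ _ _ _).1 hy
    exact ⟨((hG y hy'.1).1 i h1 h2).1, hy'.2 i h1 h2⟩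
  -- the primes of `S`
  set G2 := G1.filter (fun y => ∀ p ∈ S, ∀ a b, a < b → b ≤ 5 →
    ¬ (p : ℤ) ∣ dt (vx y a) (vx y b)) with hG2
  set T := ((range 6) ×ˢ (range 6)).filter (fun x => x.1 < x.2 ∧ (x.1 ≠ 0 ∨ x.2 ≠ 5)) with hT
  have hTc : T.card = 14 := by rw [hT]; decide
  have hSη : (S.card : ℝ) * σ ≤ 4 * (θ / (70 * C2)) := by
    rw [hσ, Finset.mul_sum]
    calc ∑ i ∈ Icc 1 4, (S.card : ℝ) * (1 / A i) ≤ ∑ i ∈ Icc 1 4, θ / (70 * C2) := by
          apply Finset.sum_le_sum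
          intro i hi
          obtain ⟨h1, h2⟩ := Finset.mem_Icc.1 hi
          have h3 := hApos i h1 h2
          rw [mul_one_div, div_le_iff₀ h3]
          exact hSc i h1 h2
      _ = _ := by simp
  have hG2c : (G1.card : ℝ) - θ * Q ≤ (G2.card : ℝ) := by
    have h2 := Finset.card_filter_add_card_filter_not (s := G1)
      (fun y => ∀ p ∈ S, ∀ a b, a < b → b ≤ 5 → ¬ (p : ℤ) ∣ dt (vx y a) (vx y b))
    have hsub : G1.filter (fun y => ¬ ∀ p ∈ S, ∀ a b, a < b → b ≤ 5 →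
        ¬ (p : ℤ) ∣ dt (vx y a) (vx y b)) ⊆
        S.biUnion (fun p => T.biUnion (fun x =>
          G1.filter (fun y => (p : ℤ) ∣ dt (vx y x.1) (vx y x.2)))) := by
      intro y hy
      obtain ⟨g1, g2⟩ := Finset.mem_filter.1 hy
      push Not at g2
      obtain ⟨p, hp, a, b, hab, hb, hd⟩ := g2
      refine Finset.mem_biUnion.2 ⟨p, hp, Finset.mem_biUnion.2 ⟨(a, b), ?_,
        Finset.mem_filter.2 ⟨g1, hd⟩⟩⟩
      refine Finset.mem_filter.2 ⟨Finset.mem_product.2 ⟨Finset.mem_range.2 (by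
        show a < 6; omega), Finset.mem_range.2 (by show b < 6; omega)⟩, hab, ?_⟩
      by_contra hne
      push Not at hne
      obtain ⟨e1, e2⟩ := hne
      simp only at e1 e2
      subst e1 e2
      have h01 : dt (vx y 0) (vx y 5) = zz.2 := by simp [vx, dt]
      rw [h01] at hd
      exact (hS p hp).2 hd
    have h3 : ((G1.filter (fun y => ¬ ∀ p ∈ S, ∀ a b, a < b → b ≤ 5 →
        ¬ (p : ℤ) ∣ dt (vx y a) (vx y b))).card : ℝ) ≤ θ * Q := by
      calc ((G1.filter (fun y => ¬ ∀ p ∈ S, ∀ a b, a < b → b ≤ 5 →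
            ¬ (p : ℤ) ∣ dt (vx y a) (vx y b))).card : ℝ)
          ≤ ((S.biUnion (fun p => T.biUnion (fun x =>
              G1.filter (fun y => (p : ℤ) ∣ dt (vx y x.1) (vx y x.2))))).card : ℝ) := by
            exact_mod_cast Finset.card_le_card hsub
        _ ≤ ∑ p ∈ S, ∑ x ∈ T,
              ((G1.filter (fun y => (p : ℤ) ∣ dt (vx y x.1) (vx y x.2))).card : ℝ) := by
            have h4 : (S.biUnion (fun p => T.biUnion (fun x =>
                G1.filter (fun y => (p : ℤ) ∣ dt (vx y x.1) (vx y x.2))))).card ≤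
                ∑ p ∈ S, ∑ x ∈ T,
                  (G1.filter (fun y => (p : ℤ) ∣ dt (vx y x.1) (vx y x.2))).card :=
              Finset.card_biUnion_le.trans
                (Finset.sum_le_sum (fun p _ => Finset.card_biUnion_le))
            exact_mod_cast h4
        _ ≤ ∑ p ∈ S, ∑ x ∈ T, C2 * (1 / p + σ) * Q := by
            apply Finset.sum_le_sum
            intro p hp
            apply Finset.sum_le_sum
            intro x hx
            obtain ⟨g1, g2, g3⟩ := Finset.mem_filter.1 hx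
            have g4 := Finset.mem_range.1 (Finset.mem_product.1 g1).2
            refine le_trans (le_of_eq ?_)
              (hdt A hAb G1 hG1s p (hS p hp).1 x.1 x.2 g2 (by omega) g3)
            congr 2
        _ = 14 * C2 * Q * (∑ p ∈ S, 1 / (p : ℝ) + S.card * σ) := by
            simp only [Finset.sum_const, hTc, nsmul_eq_mul]
            rw [← Finset.mul_sum, ← Finset.sum_mul, ← Finset.mul_sum, Finset.sum_add_distrib,
              Finset.sum_const, nsmul_eq_mul]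
            push_cast
            ring
        _ ≤ 14 * C2 * Q * (θ / (70 * C2) + 4 * (θ / (70 * C2))) := by
            apply mul_le_mul_of_nonneg_left _ (by positivity)
            linarith
        _ = θ * Q := by field_simp; ring
    have h4 : (G2.card : ℝ) + ((G1.filter (fun y => ¬ ∀ p ∈ S, ∀ a b, a < b → b ≤ 5 →
        ¬ (p : ℤ) ∣ dt (vx y a) (vx y b))).card : ℝ) = G1.card := by
      exact_mod_cast h2
    linarith
  have hG2G : ∀ y ∈ G2, y ∈ G1 ∧ y ∈ G := by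
    intro y hy
    have h1 : y ∈ G1 := ((tb4_mf _ _ _ _).1 hy).1
    exact ⟨h1, ((tb4_mf _ _ _ _).1 h1).1⟩
  have hG2T : G2 ⊆ TinF P1 S A := by
    intro y hy
    obtain ⟨g1, g2⟩ := hG2G y hy
    exact tb4_mem (fun i h1 h2 => (hApos i h1 h2).le) (fun i h1 h2 => ((hG y g2).1 i h1 h2).1)
      (fun i h1 h2 => ((hG y g2).1 i h1 h2).2)
      (fun i h1 h2 => (hG1s y g1 i h1 h2).2) (hG y g2).2 (Finset.mem_filter.1 hy).2
  have hTin : ∀ y ∈ G2, Tin P1 S A (vx y) := by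
    intro y hy
    have h1 := hG2T hy
    unfold TinF at h1
    exact ((tb4_mf _ _ _ _).1 h1).2
  have hDp : ∀ y ∈ G2, ∀ b, b ≤ 4 → 0 < De (vx y) b := fun y hy b hb =>
    (tb4_De hApos' (hTin y hy).bx hb).1
  -- the loss from the primes up to `M`
  set M : ℕ := ⌊m⌋₊ with hM
  have hM1 : 1 ≤ M := (Nat.one_le_floor_iff m).2 m1
  have hMm : (M : ℝ) ≤ m := Nat.floor_le hm0.le
  have hloss : ∀ b ∈ range 5, ∑ y ∈ G2,
      ∑ p ∈ (Dq (vx y) b).primeFactors.filter (fun p => p ≤ M), 1 / (p : ℝ) ≤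
      C2 * Q * (1 / P1 + 4 / m * (1 + Real.log m)) := by
    intro b hb
    have hb4 : b ≤ 4 := by have := Finset.mem_range.1 hb; omega
    refine (tb4_loss (C := C2) (σ := σ) (Q := Q) G2 (fun y => Dq (vx y) b)
      (by omega : 1 ≤ P1) hM1 hC2.le hσ0 hQ0.le ?_ ?_).trans ?_
    · intro y hy p hp hpP hd
      have h1 := hTin y hy
      have h2 := hDp y hy b hb4
      have h3 : (p : ℤ) ∣ De (vx y) b :=
        Int.natCast_dvd.2 (hd.trans (tb4_Dq h1 h2).2.1)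
      by_cases hpR : p ∣ R
      · have h4 := Nat.dvd_gcd hd hpR
        rw [h1.Dq_cop hb4 h2] at h4
        exact hp.one_lt.ne' (Nat.dvd_one.1 h4)
      · exact h1.co b hb4 p hp hpR hpP h3
    · intro p hp
      refine le_trans (Nat.cast_le.2 (Finset.card_le_card ?_))
        (hdt A hAb G2 (fun y hy => hG1s y (hG2G y hy).1) p hp b (b + 1)
          (Nat.lt_succ_self b) (by omega) (by omega))
      intro y hy
      obtain ⟨g1, g2⟩ := (tb4_mf _ _ _ _).1 hy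
      refine (tb4_mf _ _ _ _).2 ⟨g1, ?_⟩
      exact Int.natCast_dvd.2 (g2.trans (tb4_Dq (hTin y g1) (hDp y g1 b hb4)).2.1)
    · apply mul_le_mul_of_nonneg_left _ (by positivity)
      have h1 : Real.log M ≤ Real.log m :=
        Real.log_le_log (by exact_mod_cast hM1) hMm
      have h2 : 0 ≤ Real.log M := Real.log_nonneg (by exact_mod_cast hM1)
      have h3 : σ * (1 + Real.log M) ≤ 4 / m * (1 + Real.log m) :=
        mul_le_mul hσm (by linarith) (by linarith) (by positivity)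
      linarith
  -- the terms
  set q0 : ℝ := tb4_B ^ 5 * (zz.1 : ℝ) with hq0
  have hq0p : 0 < q0 := by positivity
  have hterm : ∀ y ∈ G2, (q0 * Q)⁻¹ * (3 / 4 - ∑ b ∈ range 5,
      ∑ p ∈ (Dq (vx y) b).primeFactors.filter (fun p => p ≤ M), 1 / (p : ℝ)) ≤
      ∏ b ∈ range 5, (((Dq (vx y) b).totient : ℝ) / (Dq (vx y) b : ℝ) ^ 2) := by
    intro y hy
    refine tb4_term (T := tb4_B * (zz.1 : ℝ) ^ 2 * m ^ (2 * K)) (m := m) hApos' (hTin y hy)
      hm0 ?_ ?_ m4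
    · intro p hp
      have : M < p := not_le.1 hp
      exact (Nat.lt_of_floor_lt this).le
    · intro b _
      rw [mul_assoc]
      apply mul_le_mul_of_nonneg_left _ hBp.le
      calc tb4_A A b * tb4_A A (b + 1) ≤ (zz.1 * m ^ K) * (zz.1 * m ^ K) :=
            mul_le_mul (hAK' b) (hAK' (b + 1)) (hApos' _).le (by positivity)
        _ = (zz.1 : ℝ) ^ 2 * m ^ (2 * K) := by ring
  -- the conclusion
  have hfin : (q0 * Q)⁻¹ * (3 / 4 * (G2.card : ℝ) -
      5 * (C2 * Q * (1 / P1 + 4 / m * (1 + Real.log m)))) ≤ ∑ y ∈ TinF P1 S A,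
      ∏ b ∈ range 5, (((Dq (vx y) b).totient : ℝ) / (Dq (vx y) b : ℝ) ^ 2) := by
    calc (q0 * Q)⁻¹ * (3 / 4 * (G2.card : ℝ) -
          5 * (C2 * Q * (1 / P1 + 4 / m * (1 + Real.log m))))
        ≤ (q0 * Q)⁻¹ * (3 / 4 * (G2.card : ℝ) - ∑ b ∈ range 5, ∑ y ∈ G2,
            ∑ p ∈ (Dq (vx y) b).primeFactors.filter (fun p => p ≤ M), 1 / (p : ℝ)) := by
          apply mul_le_mul_of_nonneg_left _ (by positivity)
          have := Finset.sum_le_sum hloss
          rw [Finset.sum_const, Finset.card_range, nsmul_eq_mul] at this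
          push_cast at this
          linarith
      _ = ∑ y ∈ G2, (q0 * Q)⁻¹ * (3 / 4 - ∑ b ∈ range 5,
            ∑ p ∈ (Dq (vx y) b).primeFactors.filter (fun p => p ≤ M), 1 / (p : ℝ)) := by
          rw [← Finset.mul_sum, Finset.sum_sub_distrib, Finset.sum_const, nsmul_eq_mul,
            Finset.sum_comm]
          ring
      _ ≤ ∑ y ∈ G2, ∏ b ∈ range 5,
            (((Dq (vx y) b).totient : ℝ) / (Dq (vx y) b : ℝ) ^ 2) :=
          Finset.sum_le_sum hterm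
      _ ≤ _ := by
          apply Finset.sum_le_sum_of_subset_of_nonneg hG2T
          intro y _ _
          apply Finset.prod_nonneg
          intro b _
          positivity
  refine le_trans ?_ hfin
  have hrp : Real.log P1 ^ (-5 : ℝ) = (Real.log P1 ^ 5)⁻¹ := by
    rw [Real.rpow_neg hL.le]
    congr 1
    exact_mod_cast Real.rpow_natCast (Real.log P1) 5
  rw [hrp]
  have hG2f : 17 * θ * Q ≤ (G2.card : ℝ) := by
    have h1 : C3 * (1 / P1) ≤ θ := by
      have : 0 ≤ 5 * C2 * (1 / (P1 : ℝ)) := by positivity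
      linarith
    have h2 : C3 * σ ≤ θ := (mul_le_mul_of_nonneg_left hσm hC3.le).trans m2
    have h3 : C3 * (1 / P1 + σ) * Q ≤ 2 * θ * Q := by
      apply mul_le_mul_of_nonneg_right _ hQ0.le
      linarith
    linarith
  have hl1 : 5 * (C2 * Q * (1 / P1 + 4 / m * (1 + Real.log m))) ≤ 2 * θ * Q := by
    have h1 : 5 * C2 * (1 / (P1 : ℝ)) ≤ θ := by
      have : 0 ≤ C3 * (1 / (P1 : ℝ)) := by positivity
      linarith
    have h2 : 5 * C2 * (1 / P1 + 4 / m * (1 + Real.log m)) ≤ 2 * θ := by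
      linarith
    have := mul_le_mul_of_nonneg_right h2 hQ0.le
    linarith
  have h10 : 10 * θ * Q ≤ 3 / 4 * (G2.card : ℝ) -
      5 * (C2 * Q * (1 / P1 + 4 / m * (1 + Real.log m))) := by
    have := mul_pos hθ0 hQ0
    linarith
  have h11 : (q0 * Q)⁻¹ * (10 * θ * Q) ≤ (q0 * Q)⁻¹ * (3 / 4 * (G2.card : ℝ) -
      5 * (C2 * Q * (1 / P1 + 4 / m * (1 + Real.log m)))) :=
    mul_le_mul_of_nonneg_left h10 (by positivity)
  refine le_trans (le_of_eq ?_) h11
  rw [hθ]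
  field_simp
  ring

alias tiny_sum := tiny_sum_pr

end Pool.Agent.AQ.TPA
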