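import Pool.Agent.Lib_helper15.AQ.TP.Facts

/-! Block TC1: the number of scales (helper1) -/

set_option autoImplicit false

namespace Pool.Agent.AQ.TPA

open Finset Pool.Agent.PENT Pool.Agent.AQ.NC
open Pool.Agent.TPA (PX ell lc)

variable [Cst]

theorem tc1_CC : 1 ≤ CC := by
  have h1 := Sl_pos
  have h2 := sz_pos
  have h3 := gp_pos
  have h4 : 1 ≤ (1 + Sl) ^ 2 := one_le_pow₀ (by linarith)
  have h5 : 1 ≤ 1 + 1 / sz := by
    have : 0 < 1 / sz := by positivity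
    linarith
  have h6 : 1 ≤ (1 + 1 / gp) ^ 2 := by
    have : 0 < 1 / gp := by positivity
    exact one_le_pow₀ (by linarith)
  unfold CC
  have h7 : 1 ≤ 100 * (1 + Sl) ^ 2 := by linarith
  have h8 : 1 ≤ 100 * (1 + Sl) ^ 2 * (1 + 1 / sz) := one_le_mul_of_one_le_of_one_le h7 h5
  exact one_le_mul_of_one_le_of_one_le h8 h6

omit [Cst] in
/-- one scale -/
theorem tc1_one {X L C e w : ℝ} (hX : 0 < X) (hL : L = Real.log X) (hC : 1 ≤ C) (he : 0 ≤ e)
    (hw : 0 < w) (hb : 4 * Real.log C + 4 ≤ w * L) (i : ℕ)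
    (h1 : ⌈(e * L + Real.log C) / Real.log 2⌉₊ ≤ i)
    (h2 : i < ⌈(e * L + Real.log C) / Real.log 2⌉₊ + ⌊w * L / 2⌋₊) :
    C * X ^ e ≤ 2 ^ i ∧ C * 2 ^ i ≤ X ^ (e + w) := by
  have hl2 : 0 < Real.log 2 := Real.log_pos (by norm_num)
  have hl21 : Real.log 2 ≤ 1 := by
    have := Real.log_two_lt_d9
    linarith
  have hC0 : 0 < C := by linarith
  have hK : 0 ≤ Real.log C := Real.log_nonneg hC
  have hwL : 0 ≤ w * L := by linarith
  have hL0 : 0 ≤ L := by
    by_contra hneg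
    push Not at hneg
    have := mul_neg_of_pos_of_neg hw hneg
    linarith
  have hq : 0 ≤ (e * L + Real.log C) / Real.log 2 := by
    have := mul_nonneg he hL0
    positivity
  have e2 : ((2 : ℝ) ^ i) = Real.exp (i * Real.log 2) := by
    rw [← Real.rpow_natCast, Real.rpow_def_of_pos (by norm_num), mul_comm]
  have eX : ∀ a : ℝ, X ^ a = Real.exp (a * L) := by
    intro a
    rw [hL, Real.rpow_def_of_pos hX, mul_comm]
  have eC : C = Real.exp (Real.log C) := (Real.exp_log hC0).symm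
  constructor
  · rw [e2, eX]
    nth_rewrite 1 [eC]
    rw [← Real.exp_add, Real.exp_le_exp]
    have h3 := Nat.ceil_le.1 h1
    rw [div_le_iff₀ hl2] at h3
    linarith
  · rw [e2, eX]
    nth_rewrite 1 [eC]
    rw [← Real.exp_add, Real.exp_le_exp]
    have h3 : (i : ℝ) < (⌈(e * L + Real.log C) / Real.log 2⌉₊ : ℝ) + (⌊w * L / 2⌋₊ : ℝ) := by
      exact_mod_cast h2
    have h4 := Nat.ceil_lt_add_one hq
    have h5 : (⌊w * L / 2⌋₊ : ℝ) ≤ w * L / 2 := Nat.floor_le (by linarith)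
    have h6 : (i : ℝ) ≤ (e * L + Real.log C) / Real.log 2 + 1 + w * L / 2 := by linarith
    have h7 : (i : ℝ) * Real.log 2 ≤
        ((e * L + Real.log C) / Real.log 2 + 1 + w * L / 2) * Real.log 2 :=
      mul_le_mul_of_nonneg_right h6 hl2.le
    have h8 : ((e * L + Real.log C) / Real.log 2 + 1 + w * L / 2) * Real.log 2 =
        e * L + Real.log C + (1 + w * L / 2) * Real.log 2 := by
      field_simp
      ring
    have h9 : (1 + w * L / 2) * Real.log 2 ≤ (1 + w * L / 2) * 1 :=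
      mul_le_mul_of_nonneg_left hl21 (by linarith)
    have h10 : (e + w) * L = e * L + w * L := by ring
    rw [h10]
    linarith

theorem winP_card_pr {p : Prm 10} {τ : ℝ} (hp : p.Ok τ) : ∃ c : ℝ, 0 < c ∧ ∃ X₀ : ℕ, ∀ X ≥ X₀,
    ∃ I : Finset (Fin 7 → ℕ), (∀ ι ∈ I, WinP p X ι) ∧ c * Real.log X ^ 7 ≤ I.card := by
  have hew := hp.ew0
  have hτ : 0 < τ := lt_of_lt_of_le hp.c10 hp.c11
  have he : ∀ l : Fin 7, 0 < p.e ⟨l.val + 2, by omega⟩ := by
    intro l
    have h1 := hp.ew1 ⟨l.val + 2, by omega⟩ (by simp) (by simp; omega)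
    by_contra hneg
    push Not at hneg
    have h2 : τ * p.e ⟨l.val + 2, by omega⟩ ≤ 0 := mul_nonpos_of_nonneg_of_nonpos hτ.le hneg
    linarith
  have hC := tc1_CC
  have hK : 0 ≤ Real.log CC := Real.log_nonneg hC
  have ht : Filter.Tendsto (fun n : ℕ => Real.log (n : ℝ)) Filter.atTop Filter.atTop :=
    Real.tendsto_log_atTop.comp tendsto_natCast_atTop_atTop
  obtain ⟨X₀, hX₀⟩ :=
    Filter.eventually_atTop.1 (ht.eventually_ge_atTop ((4 * Real.log CC + 4) / p.ew))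
  refine ⟨(p.ew / 4) ^ 7, by positivity, X₀ + 1, fun X hX => ?_⟩
  have hXX : X₀ ≤ X := by omega
  have hXpos : (0 : ℝ) < X := by
    have : 0 < X := by omega
    exact_mod_cast this
  obtain ⟨L, hL⟩ : ∃ L : ℝ, L = Real.log X := ⟨_, rfl⟩
  have hbig : (4 * Real.log CC + 4) / p.ew ≤ L := by rw [hL]; exact hX₀ X hXX
  have hwL : 4 * Real.log CC + 4 ≤ p.ew * L := by
    rw [div_le_iff₀ hew] at hbig
    linarith
  refine ⟨Fintype.piFinset (fun l : Fin 7 =>
    Ico ⌈(p.e ⟨l.val + 2, by omega⟩ * L + Real.log CC) / Real.log 2⌉₊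
    (⌈(p.e ⟨l.val + 2, by omega⟩ * L + Real.log CC) / Real.log 2⌉₊ + ⌊p.ew * L / 2⌋₊)), ?_, ?_⟩
  · intro i hi l
    have h1 := mem_Ico.1 (Fintype.mem_piFinset.1 hi l)
    exact tc1_one hXpos hL hC (he l).le hew hwL (i l) h1.1 h1.2
  · rw [Fintype.card_piFinset]
    simp only [Nat.card_Ico, Nat.add_sub_cancel_left]
    rw [Finset.prod_const]
    have hc5 : (univ : Finset (Fin 7)).card = 7 := by simp
    rw [hc5, ← hL]
    push_cast
    rw [← mul_pow]
    have h3 : p.ew * L / 2 < (⌊p.ew * L / 2⌋₊ : ℝ) + 1 := Nat.lt_floor_add_one _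
    have h4 : p.ew / 4 * L = p.ew * L / 4 := by ring
    apply pow_le_pow_left₀
    · rw [h4]; linarith
    · rw [h4]
      linarith

alias winP_card := winP_card_pr

end Pool.Agent.AQ.TPA
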