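import Pool.Agent.Lib_helper15.AQ.TP.Facts

/-!
# AQ (MP_892e4c_nt), (LB), block TC2: the path is in the family (helper35, port of helper24's block)
-/

set_option autoImplicit false

namespace Pool.Agent.AQ.TPA

open Finset Pool.Agent.PENT Pool.Agent.AQ.NC
open Pool.Agent.TPA (PX ell lc)

variable [Cst]

theorem tc2_plucker (x y w z : ℤ × ℤ) :
    dt x w * dt y z - dt x z * dt y w = dt x y * dt w z := by
  simp only [dt]
  ring

theorem tc2_swap (x y : ℤ × ℤ) : dt x y = -dt y x := by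
  simp only [dt]
  ring

theorem tc2_swapN (x y : ℤ × ℤ) : (dt x y).natAbs = (dt y x).natAbs := by
  rw [tc2_swap, Int.natAbs_neg]

theorem tc2_smul (w : ℤ × ℤ) (a x y : ℤ) : dt w (a * x, a * y) = a * dt w (x, y) := by
  simp only [dt]
  ring

/-- coprimality with the determinant with an even vertex -/
theorem tc2_star {D : Dat} (h : D.Hyp) {t : ℕ → ℕ} (hp : Dat.PF D 10 t) {j l : ℕ} (hj : j ≤ 9)
    (hl : l ≤ 10) (h1 : l ≠ j) (h2 : l ≠ j + 1) :
    Nat.Coprime (t j) (dt (D.v ((j + 1) / 2)) (D.pv t l)).natAbs := by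
  rcases Nat.even_or_odd' l with ⟨c, rfl | rfl⟩
  · rw [Dat.pv_even]
    rcases Nat.lt_or_ge ((j + 1) / 2) c with hc | hc
    · exact hp.cv j (by omega) _ _ hc (by omega)
    · rw [tc2_swapN]
      exact hp.cv j (by omega) _ _ (by omega) (by omega)
  · by_cases j9 : j = 9
    · subst j9
      have hc : c ≤ 3 := by omega
      have h4 := (hp.clo c hc (by omega)).2.2.2
      rw [hp.lc_eq (by omega) (by omega), tc2_smul, Int.natAbs_mul] at h4
      rw [hp.t9 (by norm_num)]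
      exact h4.coprime_dvd_right (dvd_mul_left _ _)
    · by_cases hcj : c < j / 2
      · exact hp.od j (by omega) (by omega) _ (by omega) c hcj
      · by_cases hca : c = (j + 1) / 2
        · have he := hp.edge_abs h (j := 2 * c) (by omega) (by omega)
          rw [Dat.pv_even] at he
          rw [← hca, he]
          exact hp.ct j (2 * c) (by omega) (by omega)
        · by_cases c4 : c = 4
          · subst c4
            have h4 := (hp.clo8 (by norm_num)).2.2.2 j (by omega)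
            have e := hp.lc_eq (b := 4) (by omega) (by omega)
            rw [show (2 * 4 : ℕ) = 8 by norm_num, show (8 + 1 : ℕ) = 9 by norm_num,
              hp.t9 (by norm_num)] at e
            have e' : lc (D.v 4) (D.v 5) (t 8) (-(D.d9 : ℤ)) =
              (De D.v 4 * (D.pv t 9).1, De D.v 4 * (D.pv t 9).2) := e
            rw [e', tc2_smul, Int.natAbs_mul] at h4
            exact h4.coprime_dvd_right (dvd_mul_left _ _)
          · have h4 := (hp.clo c (by omega) (by omega)).2.2.1 j (by omega)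
            rw [hp.lc_eq (by omega) (by omega), tc2_smul, Int.natAbs_mul] at h4
            exact h4.coprime_dvd_right (dvd_mul_left _ _)

theorem tc2_nice {D : Dat} (h : D.Hyp) {t : ℕ → ℕ} (hp : Dat.PF D 10 t) {j l : ℕ} (hj : j ≤ 9)
    (hl : l ≤ 10) (h1 : l ≠ j) (h2 : l ≠ j + 1) :
    Nat.Coprime (t j) (dt (D.pv t j) (D.pv t l)).natAbs := by
  have hs := tc2_star h hp hj hl h1 h2
  rcases Nat.even_or_odd' j with ⟨b, rfl | rfl⟩
  · rw [Dat.pv_even]
    have e : (2 * b + 1) / 2 = b := by omega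
    rwa [e] at hs
  · have e : (2 * b + 1 + 1) / 2 = b + 1 := by omega
    rw [e] at hs
    refine Nat.coprime_of_dvd fun r hr hr1 hr2 => ?_
    have hr' : Prime (r : ℤ) := Nat.prime_iff_prime_int.1 hr
    have g2 : (r : ℤ) ∣ dt (D.pv t (2 * b + 1)) (D.pv t l) := Int.natCast_dvd.2 hr2
    have g1 : (r : ℤ) ∣ dt (D.pv t (2 * b + 1)) (D.v (b + 1)) := by
      have := hp.edge_abs h (j := 2 * b + 1) (by omega) (by omega)
      rw [show 2 * b + 1 + 1 = 2 * (b + 1) by ring, Dat.pv_even] at this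
      exact Int.natCast_dvd.2 (by rw [this]; exact hr1)
    have e2 : (dt (D.v b) (D.pv t (2 * b + 1))).natAbs = t (2 * b) := by
      have := hp.edge_abs h (j := 2 * b) (by omega) (by omega)
      rwa [Dat.pv_even] at this
    have e3 := tc2_plucker (D.pv t (2 * b + 1)) (D.v (b + 1)) (D.pv t l) (D.v b)
    have g3 : (r : ℤ) ∣ dt (D.pv t (2 * b + 1)) (D.v b) * dt (D.v (b + 1)) (D.pv t l) := by
      have : dt (D.pv t (2 * b + 1)) (D.v b) * dt (D.v (b + 1)) (D.pv t l) =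
          dt (D.pv t (2 * b + 1)) (D.pv t l) * dt (D.v (b + 1)) (D.v b) -
            dt (D.pv t (2 * b + 1)) (D.v (b + 1)) * dt (D.pv t l) (D.v b) := by
        linear_combination -e3
      rw [this]
      exact dvd_sub (g2.mul_right _) (g1.mul_right _)
    rcases hr'.dvd_or_dvd g3 with g4 | g4
    · rw [tc2_swap, dvd_neg] at g4
      have g5 : r ∣ t (2 * b) := by
        rw [← e2]
        exact Int.natCast_dvd.1 g4
      have g6 := hp.ct (2 * b) (2 * b + 1) (by omega) (by omega)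
      exact Nat.Prime.not_coprime_iff_dvd.2 ⟨r, hr, g5, hr1⟩ g6
    · have g5 : r ∣ (dt (D.v (b + 1)) (D.pv t l)).natAbs := Int.natCast_dvd.1 g4
      exact Nat.Prime.not_coprime_iff_dvd.2 ⟨r, hr, hr1, g5⟩ hs

theorem tc2_ni {P1 : ℕ} {q : ℤ × ℤ × ℤ} {a : ℤ} {u : ℤ × ℤ}
    (h : NI P1 q (a * u.1, a * u.2)) : NI P1 q u := by
  intro l hl hP hd
  refine h l hl hP ?_
  have : fv q (a * u.1, a * u.2) = a ^ 2 * fv q u := by
    simp only [fv, qf]
    ring
  rw [this]
  exact hd.mul_left _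

theorem tc2_NI {D : Dat} {t : ℕ → ℕ} (hp : Dat.PF D 10 t) {j : ℕ} (hj : j ≤ 10)
    (ho : ¬ Even j) : NI D.P1 D.q (D.pv t j) := by
  rcases Nat.even_or_odd' j with ⟨b, rfl | rfl⟩
  · exact absurd (even_two_mul b) ho
  · by_cases b4 : b = 4
    · subst b4
      have h4 := (hp.clo8 (by norm_num)).2.2.1
      have e := hp.lc_eq (b := 4) (by omega) (by omega)
      rw [show (2 * 4 : ℕ) = 8 by norm_num, show (8 + 1 : ℕ) = 9 by norm_num,
        hp.t9 (by norm_num)] at e
      have e' : lc (D.v 4) (D.v 5) (t 8) (-(D.d9 : ℤ)) =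
        (De D.v 4 * (D.pv t 9).1, De D.v 4 * (D.pv t 9).2) := e
      rw [e'] at h4
      exact tc2_ni h4
    · have h4 := (hp.clo b (by omega) (by omega)).2.1
      rw [hp.lc_eq (by omega) (by omega)] at h4
      exact tc2_ni h4

/-- positivity of a vector in a box -/
theorem tc2_pos {s : ℝ} {l : ℕ} {u : ℤ × ℤ} (hs : 0 < s) (hl : 1 ≤ l)
    (h : Nr (HH * ee) s (sg l) u) : 0 < u.1 ∧ 0 < u.2 := by
  obtain ⟨h1, h2⟩ := h
  rw [abs_le] at h1 h2
  have h3 := hee_le
  have h4 := hee_le'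
  have h5 := sg_ge hl
  have h6 := gp_pos
  have h7 : HH * ee * s ≤ 1 / 400 * s := mul_le_mul_of_nonneg_right h4 hs.le
  have h8 : HH * ee * s ≤ gp / 400 * s := mul_le_mul_of_nonneg_right h3 hs.le
  have h9 : s * gp ≤ s * sg l := mul_le_mul_of_nonneg_left h5 hs.le
  have h10 : 0 < s * gp := mul_pos hs h6
  constructor
  · have : (0 : ℝ) < (u.1 : ℝ) := by linarith [h1.1]
    exact_mod_cast this
  · have : (0 : ℝ) < (u.2 : ℝ) := by
      have e : gp / 400 * s = s * gp / 400 := by ring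
      linarith [h2.1]
    exact_mod_cast this

/-- the cone condition -/
theorem tc2_cone {c1 s : ℝ} (hc1 : 0 ≤ c1) (hc2 : c1 * (2 + Sl) ≤ ρ₂ * ka / 12) {l : ℕ}
    (hl : l ≤ 10) {u : ℤ × ℤ} (hs : 0 < s) (h : Nr (HH * ee) s (sg l) u)
    (hn : (nm u : ℝ) ≤ (2 + Sl) * s) :
    c1 * (nm u : ℝ) ≤ (u.1 : ℝ) - ρ₂ * (u.2 : ℝ) := by
  obtain ⟨h1, h2⟩ := h
  rw [abs_le] at h1 h2
  have hρ := rho_pos
  have hρS : ρ₂ * Sl = 1 := by
    unfold Sl
    field_simp
  have k1 := ee_le_gp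
  have k2 := sg_le hl
  have k3 := gp_le_ka
  have k4 := Sl_pos
  have k5 : 0 < HH * ee := mul_pos HH_pos ee_pos
  have k6 := ka_pos
  have a1 : c1 * (nm u : ℝ) ≤ ρ₂ * ka / 12 * s := by
    calc c1 * (nm u : ℝ) ≤ c1 * ((2 + Sl) * s) := mul_le_mul_of_nonneg_left hn hc1
      _ = c1 * (2 + Sl) * s := by ring
      _ ≤ _ := mul_le_mul_of_nonneg_right hc2 hs.le
  have a2 : (u.1 : ℝ) ≥ s - HH * ee * s := by linarith [h1.1]
  have a3 : (u.2 : ℝ) ≤ s * (Sl - ka / 6) + HH * ee * s := by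
    have : s * sg l ≤ s * (Sl - ka / 6) := mul_le_mul_of_nonneg_left k2 hs.le
    linarith [h2.2]
  have a4 : ρ₂ * (u.2 : ℝ) ≤ ρ₂ * (s * (Sl - ka / 6) + HH * ee * s) :=
    mul_le_mul_of_nonneg_left a3 hρ.le
  have a5 : ρ₂ * (s * (Sl - ka / 6) + HH * ee * s) =
      s - ρ₂ * ka / 6 * s + ρ₂ * (HH * ee) * s := by
    linear_combination s * hρS
  have a6 : HH * ee + ρ₂ * (HH * ee) ≤ ρ₂ * ka / 12 := by
    have b1 : HH * ee + ρ₂ * (HH * ee) = ρ₂ * ((1 + Sl) * (HH * ee)) := by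
      linear_combination (-(HH * ee)) * hρS
    have b2 : (1 + Sl) * (HH * ee) ≤ KK * (HH * ee) := by
      apply mul_le_mul_of_nonneg_right _ k5.le
      unfold KK
      linarith
    rw [b1]
    calc ρ₂ * ((1 + Sl) * (HH * ee)) ≤ ρ₂ * (ka / 12) := by
          apply mul_le_mul_of_nonneg_left _ hρ.le
          linarith
      _ = _ := by ring
  have a7 : (HH * ee + ρ₂ * (HH * ee)) * s ≤ ρ₂ * ka / 12 * s :=
    mul_le_mul_of_nonneg_right a6 hs.le
  have a8 : ρ₂ * ka / 6 * s = 2 * (ρ₂ * ka / 12 * s) := by ring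
  have a9 : (HH * ee + ρ₂ * (HH * ee)) * s = HH * ee * s + ρ₂ * (HH * ee) * s := by ring
  rw [a9] at a7
  rw [a5] at a4
  linarith

theorem tc2_CC : 2 ≤ CC ∧ 2 + Sl ≤ CC := by
  have h1 := Sl_pos
  have h2 := sz_pos
  have h3 := gp_pos
  have k1 : 1 ≤ 1 + 1 / sz := by
    have : 0 ≤ 1 / sz := by positivity
    linarith
  have k2 : 1 ≤ (1 + 1 / gp) ^ 2 := by
    have : 0 ≤ 1 / gp := by positivity
    nlinarith
  have k3 : 0 ≤ 100 * (1 + Sl) ^ 2 := by positivity
  have k4 : 100 * (1 + Sl) ^ 2 ≤ CC := by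
    unfold CC
    calc 100 * (1 + Sl) ^ 2 = 100 * (1 + Sl) ^ 2 * 1 * 1 := by ring
      _ ≤ 100 * (1 + Sl) ^ 2 * (1 + 1 / sz) * (1 + 1 / gp) ^ 2 := by
        apply mul_le_mul (mul_le_mul_of_nonneg_left k1 k3) k2 zero_le_one
        positivity
  constructor <;> nlinarith

theorem tc2_sc {X P1 : ℕ} {q : ℤ × ℤ × ℤ} {f : ℕ × ℕ} {ι : Fin 7 → ℕ}
    {y : Fin 4 → ℤ × ℤ} {l : ℕ} (h2 : 2 ≤ l) (h8 : l ≤ 8) :
    Dat.sc (dat X P1 q f ι y) l = 2 ^ ι ⟨l - 2, by omega⟩ := by
  rcases Nat.even_or_odd' l with ⟨b, rfl | rfl⟩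
  · unfold Dat.sc
    rw [if_pos (by omega), Nat.mul_div_cancel_left _ (by norm_num)]
    show sA ι b = _
    unfold sA ex
    rw [if_neg (by omega), if_neg (by omega), dif_pos (by omega)]
  · unfold Dat.sc
    have e : (2 * b + 1) / 2 = b := by omega
    rw [if_neg (by omega), e]
    unfold Dat.ZZ
    rw [if_neg (by omega), if_neg (by omega)]
    show sZ ι b = _
    unfold sZ ex
    rw [dif_pos (by omega)]
    congr 2

theorem path_gp_pr {p : Prm 10} {τ : ℝ} (hp : p.Ok τ) (hτ : τ ≤ 1 / 200)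
    (hc1 : p.c1 * (2 + Sl) ^ 2 ≤ 99 / 100 * gp) (hc2 : p.c1 * (2 + Sl) ≤ ρ₂ * ka / 12)
    {X P1 : ℕ} (hX : 2 ≤ X)
    {q : ℤ × ℤ × ℤ} {f : ℕ × ℕ} (hf : f ∈ Fac p X) {ι : Fin 7 → ℕ} (hι : WinP p X ι)
    {y : Fin 4 → ℤ × ℤ} (h : (dat X P1 q f ι y).Hyp) {t : ℕ → ℕ}
    (ht : ∀ j < 10, t j ∈ (dat X P1 q f ι y).SS j t) :
    GP p X ((dat X P1 q f ι y).path t) ∧ fE ((dat X P1 q f ι y).path t) = f ∧
      (∀ i, 1 ≤ i → i ≤ 10 → dE ((dat X P1 q f ι y).path t) i = t (i - 1)) ∧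
      ∀ j : Fin 11, ¬ Even j.val → NI P1 q ((dat X P1 q f ι y).path t j) := by
  classical
  have hF := Dat.pf_of_mem h (le_refl 10) ht
  set D := dat X P1 q f ι y with hD
  -- the edges
  have hdE : ∀ i, 1 ≤ i → i ≤ 10 → dE (D.path t) i = t (i - 1) := by
    intro i h1 h2
    unfold dE
    rw [dif_pos ⟨h1, h2⟩]
    have he := hF.edge_abs h (j := i - 1) (by omega) (by omega)
    have e1 : i - 1 + 1 = i := by omega
    rw [e1] at he
    exact he
  have t0 : t 0 = f.1 := hF.t0 (by norm_num)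
  have t9 : t 9 = f.2 := hF.t9 (by norm_num)
  have hfm := (mem_filter.1 hf).2
  have hbox : ∀ l, l ≤ 10 → Nr (HH * ee) (D.sc l) (sg l) (D.pv t l) := fun l hl =>
    hF.box h hl fun _ => by omega
  have hnm : ∀ l, l ≤ 10 → D.sc l / 2 ≤ (nm (D.pv t l) : ℝ) ∧
      (nm (D.pv t l) : ℝ) ≤ (2 + Sl) * D.sc l := fun l hl =>
    nr_nm hee_le' (h.sc_pos l) (sg_nonneg l) (sg_le' hl) (hbox l hl)
  obtain ⟨hC2, hCS⟩ := tc2_CC
  have hS := Sl_pos
  refine ⟨?_, ?_, hdE, ?_⟩
  · refine ⟨?_, ?_, ?_, ?_, ?_, ?_, ?_, ?_, ?_, ?_, ?_, ?_, ?_, ?_⟩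
    · -- first
      show D.pv t 0 = (1, 0)
      have := Dat.pv_even (D := D) t 0
      rw [Nat.mul_zero] at this
      rw [this]
      exact h.tin.v0
    · -- last
      show D.pv t 10 = zz
      have := Dat.pv_even (D := D) t 5
      rw [show 2 * 5 = 10 by norm_num] at this
      rw [this]
      exact h.tin.v5
    · -- positivity
      intro j h1 h2
      exact tc2_pos (h.sc_pos j.val) h1 (hbox j.val (by omega))
    · -- low
      intro j h1 h2
      have e : D.sc j.val = 2 ^ ι ⟨j.val - 2, by omega⟩ := tc2_sc h1 (by omega)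
      have w := (hι ⟨j.val - 2, by omega⟩).1
      have e2 : (⟨j.val - 2 + 2, by omega⟩ : Fin 11) = j := Fin.ext (by show j.val - 2 + 2 = _; omega)
      have w' : CC * (X : ℝ) ^ p.e j ≤ 2 ^ ι ⟨j.val - 2, by omega⟩ := by
        have := w
        simp only [e2] at this
        exact this
      have h3 := (hnm j.val (by omega)).1
      rw [e] at h3
      have h4 : 0 ≤ (X : ℝ) ^ p.e j := by positivity
      have h5 : 2 * (X : ℝ) ^ p.e j ≤ CC * (X : ℝ) ^ p.e j := mul_le_mul_of_nonneg_right hC2 h4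
      show (X : ℝ) ^ p.e j ≤ (nm (D.pv t j.val) : ℝ)
      linarith
    · -- upp
      intro j h1 h2
      have e : D.sc j.val = 2 ^ ι ⟨j.val - 2, by omega⟩ := tc2_sc h1 (by omega)
      have w := (hι ⟨j.val - 2, by omega⟩).2
      have e2 : (⟨j.val - 2 + 2, by omega⟩ : Fin 11) = j := Fin.ext (by show j.val - 2 + 2 = _; omega)
      have w' : CC * (2 : ℝ) ^ ι ⟨j.val - 2, by omega⟩ ≤ (X : ℝ) ^ (p.e j + p.ew) := by
        have := w
        simp only [e2] at this
        exact this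
      have h3 := (hnm j.val (by omega)).2
      rw [e] at h3
      have h4 : (0 : ℝ) < 2 ^ ι ⟨j.val - 2, by omega⟩ := by positivity
      refine h3.trans (le_trans ?_ w')
      exact mul_le_mul_of_nonneg_right hCS h4.le
    · -- the cone
      intro j
      exact tc2_cone hp.c10.le hc2 (by omega : j.val ≤ 10) (h.sc_pos j.val)
        (hbox j.val (by omega)) (hnm j.val (by omega)).2
    · -- even
      intro j hj
      obtain ⟨b, hb⟩ := hj
      show IsCoprime (D.pv t j.val).1 (R : ℤ)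
      have e : j.val = 2 * b := by omega
      rw [e, Dat.pv_even]
      exact h.tin.unit (by omega)
    · -- odd
      intro j hj
      rw [Nat.not_even_iff_odd] at hj
      obtain ⟨b, hb⟩ := hj
      show a0 ∣ (D.pv t j.val).1
      rw [hb]
      exact hF.odd h (by omega) (by omega)
    · -- separation
      intro i j hij
      have d := (hF.dts h (l := i.val) (l' := j.val) hij (by omega) (fun _ => by omega)
        (fun _ => by omega)).1
      have n1 := hnm i.val (by omega)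
      have n2 := hnm j.val (by omega)
      have s1 := h.sc_pos i.val
      have s2 := h.sc_pos j.val
      have s12 := mul_pos s1 s2
      have m1 : (nm (D.pv t i.val) : ℝ) * (nm (D.pv t j.val) : ℝ) ≤
          ((2 + Sl) * D.sc i.val) * ((2 + Sl) * D.sc j.val) :=
        mul_le_mul n1.2 n2.2 (le_trans (by positivity) n2.1) (by positivity)
      show p.c1 * ((nm (D.pv t i.val) : ℝ) * (nm (D.pv t j.val) : ℝ)) ≤
        sgn i.val j.val * (dt (D.pv t i.val) (D.pv t j.val) : ℝ)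
      calc p.c1 * ((nm (D.pv t i.val) : ℝ) * (nm (D.pv t j.val) : ℝ)) ≤
            p.c1 * (((2 + Sl) * D.sc i.val) * ((2 + Sl) * D.sc j.val)) :=
            mul_le_mul_of_nonneg_left m1 hp.c10.le
        _ = p.c1 * (2 + Sl) ^ 2 * (D.sc i.val * D.sc j.val) := by ring
        _ ≤ 99 / 100 * gp * (D.sc i.val * D.sc j.val) :=
            mul_le_mul_of_nonneg_right hc1 s12.le
        _ ≤ _ := d
    · -- dp
      intro i h1 h2
      rw [hdE i h1 h2]
      exact hF.dp _ (by omega)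
    · rw [hdE 1 le_rfl (by norm_num), show 1 - 1 = 0 by norm_num, t0]
      exact hfm.1
    · rw [hdE 10 (by norm_num) le_rfl, show 10 - 1 = 9 by norm_num, t9]
      exact hfm.2.1
    · -- cop
      intro i j h1 hij h2
      rw [hdE i h1 (by omega), hdE j (by omega) h2]
      exact hF.ct _ _ (by omega) (by omega)
    · -- nice
      intro j l h1 h2
      rw [hdE (j.val + 1) (by omega) (by omega)]
      have e : j.val + 1 - 1 = j.val := by omega
      rw [e]
      exact tc2_nice h hF (j := j.val) (l := l.val) (by omega) (by omega)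
        (fun hh => h1 (Fin.ext hh)) (fun hh => h2 (Fin.ext hh))
  · unfold fE
    rw [hdE 1 le_rfl (by norm_num), hdE 10 (by norm_num) le_rfl]
    show (t 0, t 9) = f
    rw [t0, t9]
  · intro j hj
    exact tc2_NI hF (by omega) hj

alias path_gp := path_gp_pr

end Pool.Agent.AQ.TPA
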