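import Pool.Agent.Lib_helper15.AQ.TP.Facts
import Pool.Agent.Lib_helper88.AQN.NL1
import Pool.Agent.Lib_helper88.AQN.NL2
import Pool.Agent.Lib_helper18.AQ.M.FD
import Pool.Agent.Lib_helper8.PENT.YFin

/-! AQ (MP_892e4c_nt), (LB), block TC5: the product over the other primes from below (port of helper8's
file; helper18) -/

set_option autoImplicit false

namespace Pool.Agent.AQ.TPA

open Finset Filter Pool.Agent.PENT Pool.Agent.AQ.NC
open Pool.Agent.TPA (PX ell lc)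

variable [Cst]

open Classical in
/-- the sum of `1/p` over the primes `p ≤ z` with `-D` a square -/
noncomputable def tc5_sq (z : ℝ) : ℝ := ∑ p ∈ (Finset.Icc 1 ⌊z⌋₊).filter
  (fun p => p.Prime ∧ IsSquare ((-PENM.DJ 0 : ℤ) : ZMod p)), 1 / (p : ℝ)

theorem tc5_sp {p : ℕ} (h : Sp p) : IsSquare ((-PENM.DJ 0 : ℤ) : ZMod p) := by
  obtain ⟨_, _, t, ht⟩ := h
  have e : PENM.DJ 0 = Pool.Agent.AQ.D := by
    unfold PENM.DJ
    rw [if_neg (by decide)]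
  rw [e]
  refine ⟨(t : ZMod p), ?_⟩
  rw [← ZMod.intCast_zmod_eq_zero_iff_dvd] at ht
  push_cast at ht ⊢
  linear_combination -ht

/-- the sum over a set of split primes at most `z` -/
theorem tc5_s14 {z : ℝ} (hz : 0 ≤ z) (T : Finset ℕ)
    (hT : ∀ p ∈ T, p.Prime ∧ (p : ℝ) ≤ z ∧ IsSquare ((-PENM.DJ 0 : ℤ) : ZMod p)) : ∑ p ∈ T, 1 / (p : ℝ) ≤ tc5_sq z := by
  classical
  unfold tc5_sq
  refine Finset.sum_le_sum_of_subset_of_nonneg (fun p hp => ?_) (fun p _ _ => by positivity)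
  obtain ⟨h1, h2, h3⟩ := hT p hp
  rw [Finset.mem_filter, Finset.mem_Icc]
  exact ⟨⟨h1.one_lt.le, (Nat.le_floor_iff hz).2 h2⟩, h1, h3⟩

/-- the sum over a set of split primes in `(P, Y]` -/
theorem tc5_s14' {P Y : ℝ} (hP : 0 ≤ P) (hPY : P ≤ Y) (T : Finset ℕ)
    (hT : ∀ p ∈ T, p.Prime ∧ (p : ℝ) ≤ Y ∧ Sp p ∧ P < (p : ℝ)) :
    ∑ p ∈ T, 1 / (p : ℝ) ≤ tc5_sq Y - tc5_sq P := by
  classical
  set U := (Finset.Icc 1 ⌊P⌋₊).filter (fun p => p.Prime ∧ IsSquare ((-PENM.DJ 0 : ℤ) : ZMod p)) with hU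
  have hdis : Disjoint T U := by
    rw [Finset.disjoint_left]
    intro p hp hpU
    rw [hU, Finset.mem_filter, Finset.mem_Icc] at hpU
    have := (Nat.le_floor_iff hP).1 hpU.1.2
    exact absurd (hT p hp).2.2.2 (not_lt.2 this)
  have h1 : ∑ p ∈ T ∪ U, 1 / (p : ℝ) ≤ tc5_sq Y := by
    apply tc5_s14 (hP.trans hPY)
    intro p hp
    rcases Finset.mem_union.1 hp with h | h
    · exact ⟨(hT p h).1, (hT p h).2.1, tc5_sp (hT p h).2.2.1⟩
    · rw [hU, Finset.mem_filter, Finset.mem_Icc] at h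
      exact ⟨h.2.1, ((Nat.le_floor_iff hP).1 h.1.2).trans hPY, h.2.2⟩
  rw [Finset.sum_union hdis] at h1
  have h2 : ∑ p ∈ U, 1 / (p : ℝ) = tc5_sq P := rfl
  linarith

theorem tc5_prod (a b C K : ℝ) (ha : 0 ≤ a) (hb : 0 ≤ b) (hC : 0 ≤ C) (hK : 1 ≤ K) :
    ∃ c : ℝ, 0 < c ∧ ∀ (P Y : ℝ) (S : Finset ℕ) (g : ℕ → ℝ), 2 ≤ P → P ≤ Y →
    (∀ p ∈ S, p.Prime ∧ Sp p ∧ (p : ℝ) ≤ Y) →
    (∀ p ∈ S, 0 ≤ g p ∧ g p ≤ 1 - 1 / K ∧
      g p ≤ (if (p : ℝ) ≤ P then a else b) / (p : ℝ) + C / (p : ℝ) ^ 2) →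
    c * Real.log P ^ ((b - a) / 2) * Real.log Y ^ (-b / 2) ≤ ∏ p ∈ S, (1 - g p) := by
  classical
  obtain ⟨C1, hC1'⟩ := PENM.DJ_mt 0
  have hC1 : ∀ z : ℝ, 2 ≤ z → |tc5_sq z - 1 / 2 * Real.log (Real.log z)| ≤ C1 := hC1'
  have hC10 : 0 ≤ C1 := (abs_nonneg _).trans (hC1 2 le_rfl)
  obtain ⟨D, hD0, hD⟩ := yc_sq
  have hK0 : 0 < K := by linarith
  refine ⟨Real.exp (-((C + K * (a + b + C) ^ 2) * D + (a + 2 * b) * C1)), Real.exp_pos _, ?_⟩
  intro P Y S g hP hPY hS hg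
  have hY : 2 ≤ Y := hP.trans hPY
  have hlP : 0 < Real.log P := Real.log_pos (by linarith)
  have hlY : 0 < Real.log Y := Real.log_pos (by linarith)
  have hprod : Real.exp (-∑ p ∈ S, (g p + K * g p ^ 2)) ≤ ∏ p ∈ S, (1 - g p) := by
    rw [← Finset.sum_neg_distrib, Real.exp_sum]
    exact Finset.prod_le_prod (fun _ _ => (Real.exp_pos _).le)
      (fun p hp => yc_exp hK (hg p hp).2.1)
  have hterm : ∀ p ∈ S, g p + K * g p ^ 2 ≤
      (C + K * (a + b + C) ^ 2) * (1 / (p : ℝ) ^ 2) +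
      (a * (if (p : ℝ) ≤ P then 1 / (p : ℝ) else 0) +
        b * (if P < (p : ℝ) then 1 / (p : ℝ) else 0)) := by
    intro p hp
    obtain ⟨h1, _, h3⟩ := hg p hp
    have hp1 : (1 : ℝ) ≤ p := by exact_mod_cast (hS p hp).1.one_lt.le
    have hpp : (0 : ℝ) < p := by linarith
    have hinv : 1 / (p : ℝ) ^ 2 ≤ 1 / (p : ℝ) := by
      apply one_div_le_one_div_of_le hpp
      nlinarith
    have hw : (if (p : ℝ) ≤ P then a else b) / (p : ℝ) =
        a * (if (p : ℝ) ≤ P then 1 / (p : ℝ) else 0) +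
          b * (if P < (p : ℝ) then 1 / (p : ℝ) else 0) := by
      by_cases h : (p : ℝ) ≤ P
      · rw [if_pos h, if_pos h, if_neg (not_lt.2 h)]; ring
      · rw [if_neg h, if_neg h, if_pos (not_le.1 h)]; ring
    have hg1 : g p ≤ (a + b + C) * (1 / (p : ℝ)) := by
      have h5 : (if (p : ℝ) ≤ P then a else b) / (p : ℝ) ≤ (a + b) * (1 / (p : ℝ)) := by
        rw [div_eq_mul_one_div]
        apply mul_le_mul_of_nonneg_right _ (by positivity)
        split_ifs <;> linarith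
      have h6 : C / (p : ℝ) ^ 2 ≤ C * (1 / (p : ℝ)) := by
        rw [div_eq_mul_one_div]
        exact mul_le_mul_of_nonneg_left hinv hC
      linarith
    have hsq : g p ^ 2 ≤ (a + b + C) ^ 2 * (1 / (p : ℝ) ^ 2) := by
      calc g p ^ 2 ≤ ((a + b + C) * (1 / (p : ℝ))) ^ 2 := pow_le_pow_left₀ h1 hg1 2
        _ = (a + b + C) ^ 2 * (1 / (p : ℝ) ^ 2) := by rw [mul_pow, div_pow, one_pow]
    have h7 := mul_le_mul_of_nonneg_left hsq hK0.le
    rw [hw] at h3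
    have h8 : C / (p : ℝ) ^ 2 = C * (1 / (p : ℝ) ^ 2) := by rw [div_eq_mul_one_div]
    nlinarith [h3, h7, h8]
  have hsum : ∑ p ∈ S, (g p + K * g p ^ 2) ≤ (C + K * (a + b + C) ^ 2) * D +
      (a * tc5_sq P + b * (tc5_sq Y - tc5_sq P)) := by
    refine (Finset.sum_le_sum hterm).trans ?_
    rw [Finset.sum_add_distrib, Finset.sum_add_distrib, ← Finset.mul_sum, ← Finset.mul_sum,
      ← Finset.mul_sum, ← Finset.sum_filter, ← Finset.sum_filter]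
    have e1 := mul_le_mul_of_nonneg_left (hD S)
      (show 0 ≤ C + K * (a + b + C) ^ 2 by positivity)
    have e2 : ∑ p ∈ S.filter (fun p : ℕ => (p : ℝ) ≤ P), 1 / (p : ℝ) ≤ tc5_sq P :=
      tc5_s14 (by linarith) _ (fun p hp => by
        rw [Finset.mem_filter] at hp
        exact ⟨(hS p hp.1).1, hp.2, tc5_sp (hS p hp.1).2.1⟩)
    have e3 : ∑ p ∈ S.filter (fun p : ℕ => P < (p : ℝ)), 1 / (p : ℝ) ≤ tc5_sq Y - tc5_sq P :=
      tc5_s14' (by linarith) hPY _ (fun p hp => by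
        rw [Finset.mem_filter] at hp
        exact ⟨(hS p hp.1).1, (hS p hp.1).2.2, (hS p hp.1).2.1, hp.2⟩)
    have e4 := mul_le_mul_of_nonneg_left e2 ha
    have e5 := mul_le_mul_of_nonneg_left e3 hb
    linarith
  have hY1 := (abs_le.1 (hC1 Y hY)).2
  have hP1 := (abs_le.1 (hC1 P hP)).2
  have hP2 := (abs_le.1 (hC1 P hP)).1
  have hfin : ∑ p ∈ S, (g p + K * g p ^ 2) ≤
      (C + K * (a + b + C) ^ 2) * D + (a + 2 * b) * C1 +
        ((a - b) / 2 * Real.log (Real.log P) + b / 2 * Real.log (Real.log Y)) := by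
    have e4 : a * tc5_sq P ≤ a * (1 / 2 * Real.log (Real.log P) + C1) :=
      mul_le_mul_of_nonneg_left (by linarith) ha
    have e5 : b * (tc5_sq Y - tc5_sq P) ≤
        b * (1 / 2 * Real.log (Real.log Y) - 1 / 2 * Real.log (Real.log P) + 2 * C1) :=
      mul_le_mul_of_nonneg_left (by linarith) hb
    refine hsum.trans ?_
    linarith
  refine le_trans ?_ hprod
  rw [Real.rpow_def_of_pos hlP, Real.rpow_def_of_pos hlY, ← Real.exp_add, ← Real.exp_add]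
  refine Real.exp_le_exp.2 ?_
  linarith [hfin]

theorem tc5_nums {p : Prm 10} {τ : ℝ} (hp : p.Ok τ) (hτ : τ ≤ 1 / 200) :
    0 < p.ta ∧ p.ta ≤ 1 := by
  have hτ0 : 0 < τ := lt_of_lt_of_le hp.c10 hp.c11
  have h1 := hp.ew1 2 (by decide) (by decide)
  have h2 := hp.even 2 (by decide) (by decide) (by decide)
  have h3 := hp.em_ta
  have h4 := hp.ta_ep
  have h5 := hp.ep1
  have e2 : 0 < p.e 2 := by
    by_contra hc
    push Not at hc
    have := mul_nonpos_of_nonneg_of_nonpos hτ0.le hc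
    linarith [hp.ew0]
  have em : 0 < p.em := by
    by_contra hc
    push Not at hc
    have := mul_nonpos_of_nonneg_of_nonpos hτ0.le hc
    linarith
  have ta : 0 < p.ta := by
    by_contra hc
    push Not at hc
    have := mul_nonpos_of_nonneg_of_nonpos hτ0.le hc
    linarith
  refine ⟨ta, ?_⟩
  have h6 : τ * p.ep ≤ τ * τ := mul_le_mul_of_nonneg_left h5 hτ0.le
  nlinarith

/-- one line -/
theorem tc5_one {l : ℕ} (hl : l.Prime) (h4 : Sp l) (v : ℤ × ℤ)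
    (hv : ¬ ((l : ℤ) ∣ v.1 ∧ (l : ℤ) ∣ v.2)) :
    MV l (fun q => if (l : ℤ) ∣ fv q v then 1 else 0) = 2 / ((l : ℝ) + 1) :=
  MV_line hl h4 v hv

theorem tc5_PW {ι : Type} (s : Finset ι) (v : ι → ℤ × ℤ) (b : ι → ℝ)
    (hb : ∀ i, 0 ≤ b i ∧ b i ≤ 1) {l : ℕ} (hl : l.Prime) (h4 : Sp l)
    (hv : ∀ i ∈ s, ¬ ((l : ℤ) ∣ (v i).1 ∧ (l : ℤ) ∣ (v i).2)) :
    1 - MV l (PW s v b l) ≤ (∑ i ∈ s, (1 - b i)) * (2 / ((l : ℝ) + 1)) := by
  classical
  have h1 : MV l (fun _ => (1 : ℝ)) ≤ MV l (fun q => PW s v b l q +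
      ∑ i ∈ s, (1 - b i) * (if (l : ℤ) ∣ fv q (v i) then 1 else 0)) := by
    apply MV_mono'
    intro q
    have h2 := yh_weier s (fun i => if (l : ℤ) ∣ fv q (v i) then b i else 1) (fun i => by
      split_ifs
      · exact hb i
      · exact ⟨zero_le_one, le_rfl⟩)
    have h3 : ∑ i ∈ s, (1 - (if (l : ℤ) ∣ fv q (v i) then b i else 1)) =
        ∑ i ∈ s, (1 - b i) * (if (l : ℤ) ∣ fv q (v i) then 1 else 0) := by
      refine Finset.sum_congr rfl (fun i _ => ?_)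
      split_ifs <;> ring
    rw [h3] at h2
    have h5 : PW s v b l q = ∏ i ∈ s, (if (l : ℤ) ∣ fv q (v i) then b i else 1) := rfl
    rw [h5]
    linarith
  rw [MV_const' hl.pos, MV_add', MV_sum'] at h1
  have h6 : ∑ i ∈ s, MV l (fun q => (1 - b i) * (if (l : ℤ) ∣ fv q (v i) then 1 else 0)) =
      (∑ i ∈ s, (1 - b i)) * (2 / ((l : ℝ) + 1)) := by
    rw [Finset.sum_mul]
    refine Finset.sum_congr rfl (fun i hi => ?_)
    rw [MV_smul', tc5_one hl h4 (v i) (hv i hi)]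
  rw [h6] at h1
  linarith

theorem tc5_wyV (P Y : ℝ) (j l : ℕ) : 0 ≤ wyV 10 P Y j l ∧ wyV 10 P Y j l ≤ 1 := by
  unfold wyV boV beV
  split_ifs <;> norm_num

/-- the sums of the weights -/
theorem tc5_sum_bo : ∑ j ∈ ivx 10, (1 - boV j.val) = 5 := by
  unfold ivx boV
  rw [Finset.sum_filter]
  simp only [Fin.sum_univ_succ, Fin.sum_univ_zero]
  norm_num [Fin.val_succ, Nat.even_iff]

theorem tc5_sum_be : ∑ j ∈ ivx 10, (1 - beV 10 j.val) = 7 := by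
  unfold ivx beV
  rw [Finset.sum_filter]
  simp only [Fin.sum_univ_succ, Fin.sum_univ_zero]
  norm_num [Fin.val_succ]

theorem tc5_fv {m : ℤ} {q w : ℤ × ℤ × ℤ} (v : ℤ × ℤ) (h1 : m ∣ q.1 - w.1)
    (h2 : m ∣ q.2.1 - w.2.1) (h3 : m ∣ q.2.2 - w.2.2) : m ∣ fv q v - fv w v := by
  have e : fv q v - fv w v = (q.1 - w.1) * v.1 ^ 2 + (q.2.1 - w.2.1) * (2 * v.1 * v.2) +
      (q.2.2 - w.2.2) * v.2 ^ 2 := by
    unfold fv qf
    ring
  rw [e]
  exact dvd_add (dvd_add (h1.mul_right _) (h2.mul_right _)) (h3.mul_right _)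

/-- small primes -/
theorem tc5_small {p : Prm 10} {X : ℕ} {u : Vec 10} {l : ℕ} (hl : l.Prime) (h2 : ¬ l ∣ R)
    (hP : (l : ℝ) ≤ PP X) {q : ℤ × ℤ × ℤ} (hq : q.1 * q.2.2 - q.2.1 ^ 2 = DD)
    (ho : ∀ j : Fin 11, ¬ Even j.val → ¬ (l : ℤ) ∣ fv q (u j)) :
    1 / (l : ℝ) ^ 3 ≤ MV l (Iv p X u l) := by
  classical
  have hl0 : (0 : ℤ) < l := by exact_mod_cast hl.pos
  set q0 : ℤ × ℤ × ℤ := (q.1 % l, q.2.1 % l, q.2.2 % l) with hq0
  have d1 : (l : ℤ) ∣ q.1 - q0.1 := Int.dvd_self_sub_emod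
  have d2 : (l : ℤ) ∣ q.2.1 - q0.2.1 := Int.dvd_self_sub_emod
  have d3 : (l : ℤ) ∣ q.2.2 - q0.2.2 := Int.dvd_self_sub_emod
  have hmem : q0 ∈ V3 l := by
    unfold V3
    rw [mem_filter, mem_product, mem_product, mem_Ico, mem_Ico, mem_Ico]
    refine ⟨⟨⟨Int.emod_nonneg _ hl0.ne', Int.emod_lt_of_pos _ hl0⟩,
      ⟨Int.emod_nonneg _ hl0.ne', Int.emod_lt_of_pos _ hl0⟩,
      ⟨Int.emod_nonneg _ hl0.ne', Int.emod_lt_of_pos _ hl0⟩⟩, ?_⟩
    have e : q0.1 * q0.2.2 - q0.2.1 ^ 2 - DD = -((q.1 - q0.1) * q.2.2 + q0.1 * (q.2.2 - q0.2.2) -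
        (q.2.1 - q0.2.1) * (q.2.1 + q0.2.1)) + (q.1 * q.2.2 - q.2.1 ^ 2 - DD) := by ring
    show (l : ℤ) ∣ q0.1 * q0.2.2 - q0.2.1 ^ 2 - DD
    rw [e, hq, sub_self, add_zero]
    exact (dvd_neg).2 (dvd_sub (dvd_add (d1.mul_right _) (d3.mul_left _)) (d2.mul_right _))
  have hI : Iv p X u l q0 = 1 := by
    unfold Iv PW
    apply Finset.prod_eq_one
    intro j _
    by_cases hd : (l : ℤ) ∣ fv q0 (u j)
    · rw [if_pos hd]
      have hev : Even j.val := by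
        by_contra hne
        apply ho j hne
        have := dvd_add (tc5_fv (u j) d1 d2 d3) hd
        rwa [sub_add_cancel] at this
      show wyV 10 (PP X) (p.Y X) j.val l = 1
      unfold wyV boV
      rw [if_neg h2, if_pos hP, if_pos hev]
    · rw [if_neg hd]
  have hnn : ∀ v, 0 ≤ Iv p X u l v := by
    intro v
    unfold Iv PW
    apply Finset.prod_nonneg
    intro j _
    split_ifs
    · exact (tc5_wyV _ _ _ _).1
    · exact zero_le_one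
  have hsum : 1 ≤ ∑ v ∈ V3 l, Iv p X u l v := by
    rw [← hI]
    exact Finset.single_le_sum (fun v _ => hnn v) hmem
  have hcard : ((V3 l).card : ℝ) ≤ (l : ℝ) ^ 3 := by
    have h1 : (V3 l).card ≤ l ^ 3 := by
      unfold V3
      refine (Finset.card_filter_le _ _).trans ?_
      rw [card_product, card_product, Int.card_Ico, sub_zero, Int.toNat_natCast]
      exact le_of_eq (by ring)
    exact_mod_cast h1
  have hpos : (0 : ℝ) < ((V3 l).card : ℝ) := by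
    exact_mod_cast Finset.card_pos.2 ⟨q0, hmem⟩
  unfold MV
  exact div_le_div₀ (by linarith) hsum hpos hcard

/-- block TC5: the product over the other primes from below: `l ≤ B₀`: `MV l ≥ 1/l³`
(the form `q` itself); `l > B₀`: `MV l ≥ 1 - ∑_j (1 - b_j) 2/(l+1)`, `∑ (1 - b_j) = 5` for `l ≤ P`, `= 7`
for `P < l ≤ Y`; `log (PP X) = (log X)^(1/100)`: `5/100 + 7 · 99/100 = 698/100`. -/
theorem gS_lower_pr {p : Prm 10} {τ : ℝ} (hp : p.Ok τ) (hτ : τ ≤ 1 / 200) : ∃ (c : ℝ) (B₀ : ℕ),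
    0 < c ∧ ∀ P00 : ℕ, pB 10 ≤ P00 → ∃ X₀ : ℕ, ∀ X ≥ X₀, ∀ u : Vec 10, GP p X u →
      ∀ q : ℤ × ℤ × ℤ, q.1 * q.2.2 - q.2.1 ^ 2 = DD →
      (∀ l : ℕ, Sp l → l ≤ B₀ → ∀ j : Fin 11, ¬ Even j.val → ¬ (l : ℤ) ∣ fv q (u j)) →
      c * Real.log X ^ (-(698 / 100) : ℝ) ≤ gS p X P00 u := by
  classical
  obtain ⟨hta, hta1⟩ := tc5_nums hp hτ
  obtain ⟨c2, hc2, hprod⟩ := tc5_prod 10 14 (10 ^ 4) (10 ^ 6) (by norm_num) (by norm_num)
    (by norm_num) (by norm_num)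
  refine ⟨c2, 100, hc2, fun P00 hP00 => ?_⟩
  have ev1 := ev_PP 100
  have ev2 := ev_PY p.ta hta
  have ev4 : ∀ᶠ x : ℝ in atTop, (1 : ℝ) ≤ Real.log x :=
    Real.tendsto_log_atTop.eventually_ge_atTop _
  obtain ⟨x₀, hx₀⟩ := eventually_atTop.1 (ev1.and (ev2.and (ev4.and
    (eventually_ge_atTop (2 : ℝ)))))
  refine ⟨⌈x₀⌉₊, ?_⟩
  intro X hX u hu q hq hno
  have hXx : x₀ ≤ (X : ℝ) := (Nat.le_ceil x₀).trans (by exact_mod_cast hX)
  obtain ⟨q1, q2, q4, q5⟩ := hx₀ (X : ℝ) hXx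
  have hX0 : (0 : ℝ) < X := by linarith
  have hX1 : (1 : ℝ) ≤ X := by linarith
  set Lg := Real.log (X : ℝ) with hLg
  have hLg0 : 0 < Lg := by linarith
  have hPdef : PP X = Real.exp (Lg ^ (1 / 100 : ℝ)) := rfl
  have hP100 : 100 ≤ PP X := by
    rw [hPdef]
    have : 100 * 1 ≤ 100 * Lg := by linarith
    linarith
  have hlogP : Real.log (PP X) = Lg ^ (1 / 100 : ℝ) := by rw [hPdef, Real.log_exp]
  have hYdef : p.Y X = (X : ℝ) ^ p.ta := rfl
  have hPY : PP X ≤ p.Y X := by rw [hPdef, hYdef]; linarith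
  have hY0 : 0 ≤ p.Y X := by linarith
  have hlogY : Real.log (p.Y X) = p.ta * Lg := by
    rw [hYdef, Real.log_rpow hX0]
  set S := (Spr P00 (p.Y X)).filter (fun l => ¬ l ∣ Dall u) with hS
  have hSm : ∀ l ∈ S, l.Prime ∧ Sp l ∧ (l : ℝ) ≤ p.Y X ∧ ¬ l ∣ Dall u := by
    intro l hl
    rw [hS, mem_filter] at hl
    obtain ⟨h1, h2⟩ := hl
    unfold Spr at h1
    rw [mem_filter, mem_Ioc] at h1
    exact ⟨h1.2.1, h1.2, (Nat.le_floor_iff hY0).1 h1.1.2, h2⟩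
  have hprim : ∀ l ∈ S, ∀ j ∈ ivx 10, ¬ ((l : ℤ) ∣ (u j).1 ∧ (l : ℤ) ∣ (u j).2) := by
    intro l hl j hj hd
    obtain ⟨h1, h2, h3, h4⟩ := hSm l hl
    unfold ivx at hj
    rw [mem_filter] at hj
    obtain ⟨-, j1, j2⟩ := hj
    apply h4
    have h5 : l ∣ dE u j.val := by
      unfold dE
      rw [dif_pos ⟨j1, by omega⟩]
      apply Int.natCast_dvd.1
      have e : (⟨j.val, by omega⟩ : Fin 11) = j := rfl
      unfold dt
      rw [e]
      exact dvd_sub (hd.2.mul_left _) (hd.1.mul_left _)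
    refine h5.trans ?_
    unfold Dall
    exact Finset.dvd_prod_of_mem (fun i => dE u i) (mem_Icc.2 ⟨j1, by omega⟩)
  have hgS : gS p X P00 u = ∏ l ∈ S, (1 - (1 - MV l (Iv p X u l))) := by
    unfold gS
    rw [hS]
    refine Finset.prod_congr rfl (fun l _ => ?_)
    rw [sub_sub_cancel]
  have hI01 : ∀ (l : ℕ) (v : ℤ × ℤ × ℤ), Iv p X u l v ≤ 1 := by
    intro l v
    unfold Iv PW
    apply Finset.prod_le_one
    · intro j _
      split_ifs
      · exact (tc5_wyV _ _ _ _).1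
      · exact zero_le_one
    · intro j _
      split_ifs
      · exact (tc5_wyV _ _ _ _).2
      · exact le_rfl
  have hMV1 : ∀ l ∈ S, MV l (Iv p X u l) ≤ 1 := by
    intro l hl
    have h1 : MV l (Iv p X u l) ≤ MV l (fun _ => (1 : ℝ)) := MV_mono' (fun v => hI01 l v)
    rwa [MV_const' (hSm l hl).1.pos] at h1
  have key := hprod (PP X) (p.Y X) S (fun l => 1 - MV l (Iv p X u l)) (by linarith) hPY
    (fun l hl => ⟨(hSm l hl).1, (hSm l hl).2.1, (hSm l hl).2.2.1⟩) (fun l hl => ?_)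
  · rw [hgS]
    refine le_trans ?_ key
    rw [hlogP, hlogY]
    have e1 : (Lg ^ (1 / 100 : ℝ)) ^ (((14 : ℝ) - 10) / 2) = Lg ^ (2 / 100 : ℝ) := by
      rw [← Real.rpow_mul hLg0.le]
      norm_num
    have e2 : (p.ta * Lg) ^ (-(14 : ℝ) / 2) = p.ta ^ (-(14 : ℝ) / 2) * Lg ^ (-(14 : ℝ) / 2) :=
      Real.mul_rpow hta.le hLg0.le
    have e3 : (1 : ℝ) ≤ p.ta ^ (-(14 : ℝ) / 2) :=
      Real.one_le_rpow_of_pos_of_le_one_of_nonpos hta hta1 (by norm_num)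
    have e4 : Lg ^ (-(698 / 100) : ℝ) = Lg ^ (2 / 100 : ℝ) * Lg ^ (-(14 : ℝ) / 2) := by
      rw [← Real.rpow_add hLg0]
      norm_num
    rw [e1, e2, e4]
    have h5 : 0 ≤ Lg ^ (2 / 100 : ℝ) := by positivity
    have h6 : 0 ≤ Lg ^ (-(14 : ℝ) / 2) := by positivity
    calc c2 * (Lg ^ (2 / 100 : ℝ) * Lg ^ (-(14 : ℝ) / 2))
        = c2 * Lg ^ (2 / 100 : ℝ) * (1 * Lg ^ (-(14 : ℝ) / 2)) := by ring
      _ ≤ c2 * Lg ^ (2 / 100 : ℝ) * (p.ta ^ (-(14 : ℝ) / 2) * Lg ^ (-(14 : ℝ) / 2)) := by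
          apply mul_le_mul_of_nonneg_left _ (by positivity)
          exact mul_le_mul_of_nonneg_right e3 h6
  · obtain ⟨h1, h2, h3, h4⟩ := hSm l hl
    have hlpos : (0 : ℝ) < l := by exact_mod_cast h1.pos
    have hl2 : ¬ l ∣ R := h2.2.1
    show 0 ≤ 1 - MV l (Iv p X u l) ∧ 1 - MV l (Iv p X u l) ≤ 1 - 1 / 10 ^ 6 ∧
      1 - MV l (Iv p X u l) ≤ (if (l : ℝ) ≤ PP X then (10 : ℝ) else 14) / (l : ℝ) +
        10 ^ 4 / (l : ℝ) ^ 2
    refine ⟨by linarith [hMV1 l hl], ?_⟩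
    by_cases hB : l ≤ 100
    · have hB' : (l : ℝ) ≤ 100 := by exact_mod_cast hB
      have hs := tc5_small (p := p) (X := X) (u := u) h1 hl2 (hB'.trans hP100) hq
        (hno l h2 hB)
      have hl3 : 1 / (10 : ℝ) ^ 6 ≤ 1 / (l : ℝ) ^ 3 := by
        apply one_div_le_one_div_of_le (by positivity)
        calc (l : ℝ) ^ 3 ≤ 100 ^ 3 := pow_le_pow_left₀ hlpos.le hB' 3
          _ = 10 ^ 6 := by norm_num
      constructor
      · linarith
      · have h6 : (1 : ℝ) ≤ 10 ^ 4 / (l : ℝ) ^ 2 := by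
          rw [le_div_iff₀ (by positivity), one_mul]
          calc (l : ℝ) ^ 2 ≤ 100 ^ 2 := pow_le_pow_left₀ hlpos.le hB' 2
            _ = 10 ^ 4 := by norm_num
        have h7 : 0 ≤ (if (l : ℝ) ≤ PP X then (10 : ℝ) else 14) / (l : ℝ) := by
          apply div_nonneg _ hlpos.le
          split_ifs <;> norm_num
        have h8 : 0 < 1 / (l : ℝ) ^ 3 := by positivity
        linarith
    · push Not at hB
      have hB' : (100 : ℝ) < l := by exact_mod_cast hB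
      have hg := tc5_PW (ivx 10) u (fun j => wyV 10 (PP X) (p.Y X) j.val l)
        (fun j => tc5_wyV _ _ _ _) h1 h2 (hprim l hl)
      have hg' : 1 - MV l (Iv p X u l) ≤
          (∑ j ∈ ivx 10, (1 - wyV 10 (PP X) (p.Y X) j.val l)) * (2 / ((l : ℝ) + 1)) := hg
      have hsum : ∑ j ∈ ivx 10, (1 - wyV 10 (PP X) (p.Y X) j.val l) =
          if (l : ℝ) ≤ PP X then 5 else 7 := by
        by_cases hP : (l : ℝ) ≤ PP X
        · rw [if_pos hP, ← tc5_sum_bo]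
          refine Finset.sum_congr rfl (fun j _ => ?_)
          unfold wyV
          rw [if_neg hl2, if_pos hP]
        · rw [if_neg hP, ← tc5_sum_be]
          refine Finset.sum_congr rfl (fun j _ => ?_)
          unfold wyV
          rw [if_neg hl2, if_neg hP, if_pos h3]
      rw [hsum] at hg'
      have h9 : (if (l : ℝ) ≤ PP X then (5 : ℝ) else 7) * (2 / ((l : ℝ) + 1)) ≤
          (if (l : ℝ) ≤ PP X then (10 : ℝ) else 14) / (l : ℝ) := by
        have h10 : 2 / ((l : ℝ) + 1) ≤ 2 / (l : ℝ) :=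
          div_le_div_of_nonneg_left (by norm_num) hlpos (by linarith)
        split_ifs
        · calc (5 : ℝ) * (2 / ((l : ℝ) + 1)) ≤ 5 * (2 / (l : ℝ)) := by linarith
            _ = 10 / (l : ℝ) := by ring
        · calc (7 : ℝ) * (2 / ((l : ℝ) + 1)) ≤ 7 * (2 / (l : ℝ)) := by linarith
            _ = 14 / (l : ℝ) := by ring
      have h11 : (if (l : ℝ) ≤ PP X then (10 : ℝ) else 14) / (l : ℝ) ≤ 14 / 100 := by
        have h12 : (if (l : ℝ) ≤ PP X then (10 : ℝ) else 14) ≤ 14 := by split_ifs <;> norm_num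
        calc (if (l : ℝ) ≤ PP X then (10 : ℝ) else 14) / (l : ℝ) ≤ 14 / (l : ℝ) :=
              div_le_div_of_nonneg_right h12 hlpos.le
          _ ≤ 14 / 100 := div_le_div_of_nonneg_left (by norm_num) (by norm_num) hB'.le
      constructor
      · have : (14 : ℝ) / 100 ≤ 1 - 1 / 10 ^ 6 := by norm_num
        linarith
      · have : 0 ≤ (10 : ℝ) ^ 4 / (l : ℝ) ^ 2 := by positivity
        linarith

theorem gS_lower : type_of% @gS_lower_pr := @gS_lower_pr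

end Pool.Agent.AQ.TPA
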