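import Pool.Agent.Lib_helper15.AQ.TP.Facts

/-!
# AQ (MP_892e4c_nt), (LB), block TA4: sizes (helper67, port of helper35's)
-/

set_option autoImplicit false

namespace Pool.Agent.AQ.TPA

open Finset Pool.Agent.PENT Pool.Agent.AQ.NC
open Pool.Agent.TPA (PX ell lc)

variable [Cst]

theorem ta4_pow {X : ℕ} (n : ℕ) (e : ℝ) (he : e = (n : ℝ) / 500) :
    ((X : ℝ) ^ (1 / 500 : ℝ)) ^ n = (X : ℝ) ^ e := by
  rw [← Real.rpow_natCast, ← Real.rpow_mul (Nat.cast_nonneg X), he]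
  congr 1
  ring

theorem ta4_na {z : ℤ} (h : 0 < z) : ((z.natAbs : ℕ) : ℝ) = (z : ℝ) := by
  rw [← Int.cast_natCast, Int.natAbs_of_nonneg h.le]

/-- the large factor -/
noncomputable def ta4_G : ℝ := 1 + 1 / gp

theorem ta4_G_ge : 1 ≤ ta4_G := by
  have := gp_pos
  unfold ta4_G
  have : 0 < 1 / gp := by positivity
  linarith

theorem ta4_CC : 100 * ((1 + Sl) * ta4_G) ≤ CC := by
  have h1 := Sl_pos
  have h2 := sz_pos
  have h3 := ta4_G_ge
  have h4 : (1 : ℝ) ≤ 1 + 1 / sz := by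
    have : 0 < 1 / sz := by positivity
    linarith
  have h5 : (1 + Sl) * ta4_G ≤ (1 + Sl) ^ 2 * ta4_G ^ 2 := by
    have e1 : (1 + Sl) ≤ (1 + Sl) ^ 2 := by nlinarith
    have e2 : ta4_G ≤ ta4_G ^ 2 := by nlinarith
    exact mul_le_mul e1 e2 (by linarith) (by positivity)
  have h6 : (1 + Sl) ^ 2 * ta4_G ^ 2 ≤ (1 + Sl) ^ 2 * (1 + 1 / sz) * ta4_G ^ 2 := by
    have : (1 + Sl) ^ 2 * 1 ≤ (1 + Sl) ^ 2 * (1 + 1 / sz) :=
      mul_le_mul_of_nonneg_left h4 (by positivity)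
    rw [mul_one] at this
    exact mul_le_mul_of_nonneg_right this (by positivity)
  have h7 : CC = 100 * ((1 + Sl) ^ 2 * (1 + 1 / sz) * ta4_G ^ 2) := by
    unfold CC ta4_G; ring
  rw [h7]
  linarith

theorem ta4_big {D : Dat} {X : ℕ} (hs : Siz D X) :
    100 * ((1 + Sl) * ta4_G) ≤ (X : ℝ) ^ (1 / 500 : ℝ) := ta4_CC.trans hs.big

theorem ta4_big' {D : Dat} {X : ℕ} (hs : Siz D X) :
    100 ≤ (X : ℝ) ^ (1 / 500 : ℝ) := by
  have h1 := ta4_big hs
  have h2 := Sl_pos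
  have h3 := ta4_G_ge
  have : 1 ≤ (1 + Sl) * ta4_G := by nlinarith
  linarith

theorem ta4_al_ge {b : ℕ} (hb : b ≤ 4) : gp ≤ al b * (sz / 5) ∧ al b * (sz / 5) ≤ Sl := by
  have h := sg_sep (l := 2 * b) (m := 2 * b + 1) (by omega) (by omega)
  rw [sgn_ee, one_mul] at h
  have h1 := sz_pos
  have e : al b * (sz / 5) = sg (2 * b + 1) - sg (2 * b) := by
    unfold al
    field_simp
  rw [e]
  exact h

theorem ta4_be_ge {b : ℕ} (hb : b ≤ 4) : gp ≤ be b * (sz / 5) ∧ be b * (sz / 5) ≤ Sl := by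
  have h := sg_sep (l := 2 * b + 1) (m := 2 * (b + 1)) (by omega) (by omega)
  rw [sgn_oe] at h
  have h1 := sz_pos
  have e : be b * (sz / 5) = -1 * (sg (2 * (b + 1)) - sg (2 * b + 1)) := by
    unfold be
    rw [show 2 * b + 2 = 2 * (b + 1) by ring]
    field_simp
    ring
  rw [e]
  exact h

theorem ta4_ZZ {D : Dat} (h : D.Hyp) {X : ℕ} (hs : Siz D X) (b : ℕ) :
    D.ZZ b ≤ 2 * ta4_G * (X : ℝ) ^ (1 / 500 : ℝ) := by
  have hL := ta4_big' hs
  have hg := gp_pos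
  have hG := ta4_G_ge
  have hG' : 1 ≤ ta4_G * gp := by
    unfold ta4_G
    rw [add_mul, one_mul, div_mul_cancel₀ _ hg.ne']
    linarith
  unfold Dat.ZZ
  split_ifs with h0 h4
  · have h1 := (h.De_bd (b := 0) (by norm_num)).1
    rw [h.a0'] at h1
    have h2 := hs.d0
    have h3 := h.apos 1
    have ha := (ta4_al_ge (b := 0) (by norm_num)).1
    have hal := al_pos (b := 0) (by norm_num)
    have hD0 : (0 : ℝ) < De D.v 0 := by exact_mod_cast h.De_pos (by norm_num : 0 ≤ 4)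
    rw [div_le_iff₀ (by positivity)]
    rw [show (0 : ℕ) + 1 = 1 from rfl] at h1
    have h6 : (D.d0 : ℝ) * D.A 1 ≤ (X : ℝ) ^ (1 / 500 : ℝ) * D.A 1 :=
      mul_le_mul_of_nonneg_right h2 h3.le
    have h7 : 99 / 100 * gp * D.A 1 ≤ al 0 * (De D.v 0 : ℝ) := by
      calc 99 / 100 * gp * D.A 1 ≤ 99 / 100 * (al 0 * (sz / 5)) * D.A 1 := by
            refine mul_le_mul_of_nonneg_right ?_ h3.le
            linarith
        _ = al 0 * (99 / 100 * (sz / 5) * (1 * D.A 1)) := by ring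
        _ ≤ al 0 * (De D.v 0 : ℝ) := mul_le_mul_of_nonneg_left h1 hal.le
    have h8 : (X : ℝ) ^ (1 / 500 : ℝ) * D.A 1 ≤
        2 * ta4_G * (X : ℝ) ^ (1 / 500 : ℝ) * (99 / 100 * gp * D.A 1) := by
      have e : 2 * ta4_G * (X : ℝ) ^ (1 / 500 : ℝ) * (99 / 100 * gp * D.A 1) =
        (198 / 100) * (ta4_G * gp) * ((X : ℝ) ^ (1 / 500 : ℝ) * D.A 1) := by ring
      rw [e]
      have h9 : 0 < (X : ℝ) ^ (1 / 500 : ℝ) * D.A 1 := mul_pos (by linarith) h3
      have h10 : 1 ≤ (198 / 100) * (ta4_G * gp) := by linarith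
      nlinarith
    exact h6.trans (h8.trans (mul_le_mul_of_nonneg_left h7 (mul_nonneg (by linarith) (by linarith))))
  · have h1 := (h.De_bd (b := 4) (by norm_num)).1
    rw [show (4 : ℕ) + 1 = 5 from rfl, h.a5] at h1
    have h2 := hs.d9
    have h3 := h.apos 4
    have ha := (ta4_be_ge (b := 4) (by norm_num)).1
    have hal := be_pos (b := 4) (by norm_num)
    have hz : (1 : ℝ) ≤ (zz.1 : ℝ) := by
      have : (0 : ℤ) < zz.1 := z1_pos
      exact_mod_cast this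
    have hD0 : (0 : ℝ) < De D.v 4 := by exact_mod_cast h.De_pos (by norm_num : 4 ≤ 4)
    rw [div_le_iff₀ (by positivity)]
    have h6 : (D.d9 : ℝ) * D.A 4 ≤ (X : ℝ) ^ (1 / 500 : ℝ) * D.A 4 :=
      mul_le_mul_of_nonneg_right h2 h3.le
    have h7 : 99 / 100 * gp * D.A 4 ≤ be 4 * (De D.v 4 : ℝ) := by
      calc 99 / 100 * gp * D.A 4 ≤ 99 / 100 * (be 4 * (sz / 5)) * D.A 4 := by
            refine mul_le_mul_of_nonneg_right ?_ h3.le
            linarith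
        _ = be 4 * (99 / 100 * (sz / 5) * (D.A 4 * 1)) := by ring
        _ ≤ be 4 * (99 / 100 * (sz / 5) * (D.A 4 * zz.1)) := by
            refine mul_le_mul_of_nonneg_left ?_ hal.le
            have := sz_pos
            refine mul_le_mul_of_nonneg_left ?_ (by positivity)
            exact mul_le_mul_of_nonneg_left hz h3.le
        _ ≤ be 4 * (De D.v 4 : ℝ) := mul_le_mul_of_nonneg_left h1 hal.le
    have h8 : (X : ℝ) ^ (1 / 500 : ℝ) * D.A 4 ≤
        2 * ta4_G * (X : ℝ) ^ (1 / 500 : ℝ) * (99 / 100 * gp * D.A 4) := by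
      have e : 2 * ta4_G * (X : ℝ) ^ (1 / 500 : ℝ) * (99 / 100 * gp * D.A 4) =
        (198 / 100) * (ta4_G * gp) * ((X : ℝ) ^ (1 / 500 : ℝ) * D.A 4) := by ring
      rw [e]
      have h9 : 0 < (X : ℝ) ^ (1 / 500 : ℝ) * D.A 4 := mul_pos (by linarith) h3
      have h10 : 1 ≤ (198 / 100) * (ta4_G * gp) := by linarith
      nlinarith
    exact h6.trans (h8.trans (mul_le_mul_of_nonneg_left h7 (mul_nonneg (by linarith) (by linarith))))
  · have h1 := (hs.z b).2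
    have h2 : (X : ℝ) ^ (1 / 500 : ℝ) * 1 ≤ (X : ℝ) ^ (1 / 500 : ℝ) * (2 * ta4_G) :=
      mul_le_mul_of_nonneg_left (by linarith) (by linarith)
    linarith

theorem ta4_win {D : Dat} (h : D.Hyp) {X : ℕ} (hs : Siz D X) {j : ℕ} (hj : j ≤ 9) :
    D.win j ≤ 3 * (Sl * ta4_G) * ((X : ℝ) ^ (1 / 500 : ℝ)) ^ 2 := by
  have hL := ta4_big' hs
  set L := (X : ℝ) ^ (1 / 500 : ℝ) with hLd
  have hb : j / 2 ≤ 4 := by omega
  have h1 := (h.De_bd hb).2
  have hZ := ta4_ZZ h hs (j / 2)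
  rw [← hLd] at hZ
  have hG := ta4_G_ge
  have hSl := Sl_pos
  have hsz := sz_pos
  have hZ0 := h.ZZ_pos (j / 2)
  have hD : (0 : ℝ) < De D.v (j / 2) := by exact_mod_cast h.De_pos hb
  have hA := h.apos (j / 2)
  have hA' := h.apos (j / 2 + 1)
  have hAL := (hs.a (j / 2)).2
  have hAL' := (hs.a (j / 2 + 1)).2
  rw [← hLd] at hAL hAL'
  have key : ∀ c x y : ℝ, 0 < c → c * (sz / 5) ≤ Sl → 0 < x → 0 < y → x ≤ L →
      (De D.v (j / 2) : ℝ) ≤ 101 / 100 * (sz / 5) * (x * y) →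
      c * (De D.v (j / 2) * D.ZZ (j / 2)) / y ≤ 3 * (Sl * ta4_G) * L ^ 2 := by
    intro c x y hc hcs hx hy hxL hDe
    rw [div_le_iff₀ hy]
    have e1 : (De D.v (j / 2) : ℝ) * D.ZZ (j / 2) ≤
        (101 / 100 * (sz / 5) * (x * y)) * (2 * ta4_G * L) :=
      mul_le_mul hDe hZ hZ0.le (by positivity)
    calc c * ((De D.v (j / 2) : ℝ) * D.ZZ (j / 2))
        ≤ c * ((101 / 100 * (sz / 5) * (x * y)) * (2 * ta4_G * L)) :=
          mul_le_mul_of_nonneg_left e1 hc.le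
      _ = (c * (sz / 5)) * (202 / 100 * (x * y) * (ta4_G * L)) := by ring
      _ ≤ Sl * (202 / 100 * (x * y) * (ta4_G * L)) :=
          mul_le_mul_of_nonneg_right hcs (by
            have : 0 < L := by linarith
            positivity)
      _ = (202 / 100) * (Sl * ta4_G) * (L * y) * x := by ring
      _ ≤ (202 / 100) * (Sl * ta4_G) * (L * y) * L :=
          mul_le_mul_of_nonneg_left hxL (by
            have : 0 < L := by linarith
            positivity)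
      _ ≤ 3 * (Sl * ta4_G) * L ^ 2 * y := by
          have h0 : 0 ≤ (Sl * ta4_G) * (L * y) * L := by
            have : 0 < L := by linarith
            positivity
          nlinarith
  unfold Dat.win
  split_ifs with hp
  · exact key _ _ _ (al_pos hb) (ta4_al_ge hb).2 hA hA' hAL h1
  · refine key _ _ _ (be_pos hb) (ta4_be_ge hb).2 hA' hA hAL' ?_
    rw [mul_comm (D.A (j / 2 + 1))]
    exact h1

theorem ta4_win3 {D : Dat} (h : D.Hyp) {X : ℕ} (hs : Siz D X) {j : ℕ} (hj : j ≤ 9) :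
    (1 + ee) * D.win j ≤ ((X : ℝ) ^ (1 / 500 : ℝ)) ^ 3 := by
  have h2 := ta4_win h hs hj
  have hB := ta4_big hs
  have hL := ta4_big' hs
  set L := (X : ℝ) ^ (1 / 500 : ℝ) with hLd
  have hG := ta4_G_ge
  have hSl := Sl_pos
  have he := ee_le
  have he0 := ee_pos
  have hw := h.win_pos hj
  have e0 : (1 + ee) * D.win j ≤ 2 * (3 * (Sl * ta4_G) * L ^ 2) :=
    mul_le_mul (by linarith) h2 hw.le (by norm_num)
  refine e0.trans ?_
  have e1 : 6 * (Sl * ta4_G) ≤ L := by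
    have : Sl * ta4_G ≤ (1 + Sl) * ta4_G := mul_le_mul_of_nonneg_right (by linarith) (by linarith)
    nlinarith [mul_pos hSl (lt_of_lt_of_le one_pos hG)]
  calc 2 * (3 * (Sl * ta4_G) * L ^ 2) = (6 * (Sl * ta4_G)) * L ^ 2 := by ring
    _ ≤ L * L ^ 2 := mul_le_mul_of_nonneg_right e1 (by positivity)
    _ = L ^ 3 := by ring

theorem ta4_t3 {D : Dat} (h : D.Hyp) {X : ℕ} (hs : Siz D X) {m : ℕ} {t : ℕ → ℕ}
    (hp : Dat.PF D m t) {j : ℕ} (hj : j < m) (h9 : j ≤ 9) :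
    (t j : ℝ) ≤ ((X : ℝ) ^ (1 / 500 : ℝ)) ^ 3 :=
  (hp.win j hj).2.trans (ta4_win3 h hs h9)

/-- block TA4 -/
theorem siz_t_pr {D : Dat} (h : D.Hyp) {X : ℕ} (hs : Siz D X) {m : ℕ} {t : ℕ → ℕ}
    (hp : Dat.PF D m t) : ∀ j < m, j ≤ 9 → (t j : ℝ) ≤ (X : ℝ) ^ (1 / 100 : ℝ) := by
  intro j hj h9
  have hL := ta4_big' hs
  rw [← ta4_pow 5 (1 / 100) (by norm_num)]
  exact (ta4_t3 h hs hp hj h9).trans (pow_le_pow_right₀ (by linarith) (by norm_num))

/-- block TA4 -/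
theorem siz_win_pr {D : Dat} (h : D.Hyp) {X : ℕ} (hs : Siz D X) {j : ℕ} (hj : j ≤ 9) :
    D.win j ≤ (X : ℝ) ^ (1 / 100 : ℝ) := by
  have hL := ta4_big' hs
  have h1 := ta4_win3 h hs hj
  have h2 := h.win_pos hj
  have h3 := ee_pos
  rw [← ta4_pow 5 (1 / 100) (by norm_num)]
  refine le_trans ?_ (h1.trans (pow_le_pow_right₀ (by linarith) (by norm_num)))
  nlinarith

theorem ta4_vv {D : Dat} (h : D.Hyp) {X : ℕ} (hs : Siz D X) {a b : ℕ} (hab : a < b)
    (hb : b ≤ 5) : 0 < (dt (D.v a) (D.v b)).natAbs ∧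
      ((dt (D.v a) (D.v b)).natAbs : ℝ) ≤ ((X : ℝ) ^ (1 / 500 : ℝ)) ^ 3 := by
  obtain ⟨-, h2, h3⟩ := h.dtv hab hb
  have hB := ta4_big hs
  have hL := ta4_big' hs
  set L := (X : ℝ) ^ (1 / 500 : ℝ) with hLd
  have hG := ta4_G_ge
  have hSl := Sl_pos
  refine ⟨Int.natAbs_pos.mpr h3.ne', ?_⟩
  rw [ta4_na h3]
  refine h2.trans ?_
  have a1 := (hs.a a).2
  have a2 := (hs.a b).2
  rw [← hLd] at a1 a2
  have p : D.A a * D.A b ≤ L * L := mul_le_mul a1 a2 (h.apos b).le (by linarith)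
  have q1 := sg_nonneg (2 * a)
  have q2 := sg_le' (l := 2 * b) (by omega)
  have q3 : 101 / 100 * (sg (2 * b) - sg (2 * a)) ≤ L := by
    have : Sl ≤ (1 + Sl) * ta4_G := by nlinarith
    linarith
  calc 101 / 100 * (sg (2 * b) - sg (2 * a)) * (D.A a * D.A b) ≤ L * (L * L) := by
        refine mul_le_mul q3 p (mul_pos (h.apos a) (h.apos b)).le (by linarith)
    _ = L ^ 3 := by ring

theorem ta4_vp {D : Dat} (h : D.Hyp) {X : ℕ} (hs : Siz D X) {j : ℕ} (hj : j ≤ 8) {t : ℕ → ℕ}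
    (hp : Dat.PF D j t) {a b : ℕ} (ha : a ≤ 5) (hb : b < j / 2) :
    0 < (dt (D.v a) (D.pv t (2 * b + 1))).natAbs ∧
      ((dt (D.v a) (D.pv t (2 * b + 1))).natAbs : ℝ) ≤ ((X : ℝ) ^ (1 / 500 : ℝ)) ^ 3 := by
  have hB := ta4_big hs
  have hL := ta4_big' hs
  have hZ := ta4_ZZ h hs b
  have hZ0 := h.ZZ_pos b
  have a1 := (hs.a a).2
  have a0 := h.apos a
  have hG := ta4_G_ge
  have hSl := Sl_pos
  set L := (X : ℝ) ^ (1 / 500 : ℝ) with hLd
  have s1 : D.sc (2 * a) = D.A a := Dat.sc_even a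
  have s2 : D.sc (2 * b + 1) = D.ZZ b := Dat.sc_odd b
  have e0 : D.pv t (2 * a) = D.v a := Dat.pv_even t a
  have hbnd : 2 * Sl * (D.A a * D.ZZ b) ≤ L ^ 3 := by
    have p : D.A a * D.ZZ b ≤ L * (2 * ta4_G * L) := mul_le_mul a1 hZ hZ0.le (by linarith)
    have q : 4 * (Sl * ta4_G) ≤ L := by
      have : Sl * ta4_G ≤ (1 + Sl) * ta4_G :=
        mul_le_mul_of_nonneg_right (by linarith) (by linarith)
      nlinarith [mul_pos hSl (lt_of_lt_of_le one_pos hG)]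
    calc 2 * Sl * (D.A a * D.ZZ b) ≤ 2 * Sl * (L * (2 * ta4_G * L)) :=
          mul_le_mul_of_nonneg_left p (by linarith)
      _ = (4 * (Sl * ta4_G)) * (L * L) := by ring
      _ ≤ L * (L * L) := mul_le_mul_of_nonneg_right q (by positivity)
      _ = L ^ 3 := by ring
  rcases Nat.lt_or_ge (2 * a) (2 * b + 1) with hlt | hge
  · obtain ⟨-, h2, h3⟩ := hp.dts h hlt (by omega) (by omega) (by omega)
    rw [e0, s1, s2] at h2
    rw [e0] at h3
    refine ⟨Int.natAbs_pos.mpr h3, ?_⟩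
    rw [Nat.cast_natAbs, Int.cast_abs]
    exact h2.trans hbnd
  · obtain ⟨-, h2, h3⟩ := hp.dts h (l := 2 * b + 1) (l' := 2 * a) (by omega) (by omega)
      (by omega) (by omega)
    rw [e0, s1, s2] at h2
    rw [e0] at h3
    have hsw : dt (D.v a) (D.pv t (2 * b + 1)) = - dt (D.pv t (2 * b + 1)) (D.v a) := by
      simp only [dt]; ring
    rw [hsw, Int.natAbs_neg]
    refine ⟨Int.natAbs_pos.mpr h3, ?_⟩
    rw [Nat.cast_natAbs, Int.cast_abs]
    refine h2.trans ?_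
    rw [mul_comm (D.ZZ b)]
    exact hbnd

theorem ta4_prod {n : ℕ} {f : ℕ → ℕ} {M : ℝ} (h0 : ∀ i < n, 0 < f i)
    (hM : ∀ i < n, (f i : ℝ) ≤ M) :
    0 < ∏ i ∈ range n, f i ∧ ((∏ i ∈ range n, f i : ℕ) : ℝ) ≤ M ^ n := by
  refine ⟨Finset.prod_pos fun i hi => h0 i (Finset.mem_range.mp hi), ?_⟩
  rw [Nat.cast_prod]
  calc ∏ i ∈ range n, (f i : ℝ) ≤ ∏ _i ∈ range n, M :=
        Finset.prod_le_prod (fun i _ => Nat.cast_nonneg _)
          (fun i hi => hM i (Finset.mem_range.mp hi))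
    _ = M ^ n := by rw [Finset.prod_const, Finset.card_range]

/-- block TA4 -/
theorem siz_MM_pr {D : Dat} (h : D.Hyp) {X : ℕ} (hs : Siz D X) {j : ℕ} (hj : j ≤ 8) {t : ℕ → ℕ}
    (hp : Dat.PF D j t) : 0 < D.MM j t ∧ (D.MM j t : ℝ) ≤ (X : ℝ) ^ (1 / 2 : ℝ) := by
  have hL := ta4_big' hs
  have hd9 := hs.d9
  have hvv := fun a b (hab : a < b) (hb : b ≤ 5) => ta4_vv h hs hab hb
  have hvp := fun a b (ha : a ≤ 5) (hb : b < j / 2) => ta4_vp h hs hj hp ha hb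
  have htt := fun l (hl : l < j) => ta4_t3 h hs hp hl (by omega)
  rw [← ta4_pow 250 (1 / 2) (by norm_num)]
  set L := (X : ℝ) ^ (1 / 500 : ℝ) with hLd
  have hL1 : 1 ≤ L := by linarith
  have hL3 : 1 ≤ L ^ 3 := one_le_pow₀ hL1
  -- the first factor
  have f1 : 0 < ∏ a ∈ range 6, ∏ b ∈ range 6, (if a < b then (dt (D.v a) (D.v b)).natAbs else 1) ∧
      ((∏ a ∈ range 6, ∏ b ∈ range 6, (if a < b then (dt (D.v a) (D.v b)).natAbs else 1) : ℕ) : ℝ)
        ≤ ((L ^ 3) ^ 6) ^ 6 := by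
    apply ta4_prod
    · intro a ha
      refine (ta4_prod (M := L ^ 3) ?_ ?_).1
      · intro b hb
        split_ifs with hab
        · exact (hvv a b hab (by omega)).1
        · exact one_pos
      · intro b hb
        split_ifs with hab
        · exact (hvv a b hab (by omega)).2
        · simpa using hL3
    · intro a ha
      refine (ta4_prod (M := L ^ 3) ?_ ?_).2
      · intro b hb
        split_ifs with hab
        · exact (hvv a b hab (by omega)).1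
        · exact one_pos
      · intro b hb
        split_ifs with hab
        · exact (hvv a b hab (by omega)).2
        · simpa using hL3
  have f2 : 0 < ∏ l ∈ range j, t l ∧ ((∏ l ∈ range j, t l : ℕ) : ℝ) ≤ (L ^ 3) ^ j :=
    ta4_prod (fun l hl => hp.pos hl) htt
  have f4 : 0 < ∏ a ∈ range 6, ∏ b ∈ range (j / 2), (dt (D.v a) (D.pv t (2 * b + 1))).natAbs ∧
      ((∏ a ∈ range 6, ∏ b ∈ range (j / 2), (dt (D.v a) (D.pv t (2 * b + 1))).natAbs : ℕ) : ℝ)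
        ≤ ((L ^ 3) ^ (j / 2)) ^ 6 := by
    apply ta4_prod
    · intro a ha
      exact (ta4_prod (M := L ^ 3) (fun b hb => (hvp a b (by omega) hb).1)
        (fun b hb => (hvp a b (by omega) hb).2)).1
    · intro a ha
      exact (ta4_prod (M := L ^ 3) (fun b hb => (hvp a b (by omega) hb).1)
        (fun b hb => (hvp a b (by omega) hb).2)).2
  have f2' : ((∏ l ∈ range j, t l : ℕ) : ℝ) ≤ L ^ 24 := by
    refine f2.2.trans ?_
    calc (L ^ 3) ^ j ≤ (L ^ 3) ^ 8 := pow_le_pow_right₀ hL3 hj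
      _ = L ^ 24 := by rw [← pow_mul]
  have f4' : ((∏ a ∈ range 6, ∏ b ∈ range (j / 2),
      (dt (D.v a) (D.pv t (2 * b + 1))).natAbs : ℕ) : ℝ) ≤ L ^ 72 := by
    refine f4.2.trans ?_
    calc ((L ^ 3) ^ (j / 2)) ^ 6 ≤ ((L ^ 3) ^ 4) ^ 6 :=
          pow_le_pow_left₀ (by positivity) (pow_le_pow_right₀ hL3 (by omega)) 6
      _ = L ^ 72 := by rw [← pow_mul, ← pow_mul]
  have f1' : ((∏ a ∈ range 6, ∏ b ∈ range 6,
      (if a < b then (dt (D.v a) (D.v b)).natAbs else 1) : ℕ) : ℝ) ≤ L ^ 108 := by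
    refine f1.2.trans (le_of_eq ?_)
    rw [← pow_mul, ← pow_mul]
  unfold Dat.MM
  constructor
  · exact Nat.mul_pos (Nat.mul_pos (Nat.mul_pos f1.1 f2.1) h.d9_pos) f4.1
  · rw [Nat.cast_mul, Nat.cast_mul, Nat.cast_mul]
    calc ((∏ a ∈ range 6, ∏ b ∈ range 6,
          (if a < b then (dt (D.v a) (D.v b)).natAbs else 1) : ℕ) : ℝ) *
          ((∏ l ∈ range j, t l : ℕ) : ℝ) * (D.d9 : ℝ) *
          ((∏ a ∈ range 6, ∏ b ∈ range (j / 2),
            (dt (D.v a) (D.pv t (2 * b + 1))).natAbs : ℕ) : ℝ)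
        ≤ L ^ 108 * L ^ 24 * L * L ^ 72 := by
          refine mul_le_mul (mul_le_mul (mul_le_mul f1' f2' (Nat.cast_nonneg _) (by positivity))
            hd9 (Nat.cast_nonneg _) (by positivity)) f4' (Nat.cast_nonneg _) (by positivity)
      _ = L ^ 205 := by ring
      _ ≤ L ^ 250 := pow_le_pow_right₀ hL1 (by norm_num)

alias siz_t := siz_t_pr
alias siz_win := siz_win_pr
alias siz_MM := siz_MM_pr

end Pool.Agent.AQ.TPA
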