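import Pool.Agent.Lib_helper15.AQ.TP.Facts
import Pool.Agent.Lib_helper15.AQ.TPF.TA4

/-! Block TA6 (uses TA4: `siz_t`, `siz_win`, `siz_MM`) -/

set_option autoImplicit false

namespace Pool.Agent.AQ.TPA

open Finset Pool.Agent.PENT Pool.Agent.AQ.NC
open Pool.Agent.TPA (PX ell lc)

variable [Cst]

theorem ta6_CC : (1 : ℝ) < CC := by
  have h1 := Sl_pos
  have h2 := sz_pos
  have h3 := gp_pos
  have a1 : (1 : ℝ) ≤ (1 + Sl) ^ 2 := by nlinarith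
  have a2 : (1 : ℝ) ≤ 1 + 1 / sz := by
    have : 0 < 1 / sz := by positivity
    linarith
  have a3 : (1 : ℝ) ≤ (1 + 1 / gp) ^ 2 := by
    have : 0 < 1 / gp := by positivity
    nlinarith
  have a4 : (1 : ℝ) ≤ (1 + Sl) ^ 2 * (1 + 1 / sz) := one_le_mul_of_one_le_of_one_le a1 a2
  have a5 : (1 : ℝ) ≤ (1 + Sl) ^ 2 * (1 + 1 / sz) * (1 + 1 / gp) ^ 2 :=
    one_le_mul_of_one_le_of_one_le a4 a3
  have e : CC = 100 * ((1 + Sl) ^ 2 * (1 + 1 / sz) * (1 + 1 / gp) ^ 2) := by unfold CC; ring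
  rw [e]
  linarith

/-- block TA6 (uses TA4; template TPF/TA6): the step `j = 8`; modulus `Dq 4` (`De v 4 = gb Dq`), class
`ρ` modulo `M0` (which gives `M0 ∣ n z.1 - d9`); `lc (v 4) (v 5) n (-d9) = lc (v 5) (v 4) (-d9) n`. `Int2`
modulo `gb`: `z.1 (n z.2 - d9 v_4.2) = z.2 (n z.1 - d9 v_4.1) + d9 Δ_4`, and `z.1` is a unit modulo
`gb`. -/
theorem step_eight_pr {D : Dat} (h : D.Hyp) {X : ℕ} (hs : Siz D X) (hX : PX X D.P)
    {α c δ τ : ℝ} {ρ : ℤ} (hρ : ∀ n : ℤ, (M0 : ℤ) ∣ n - ρ → (M0 : ℤ) ∣ n * zz.1 - D.d9)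
    (hc : ∀ (W : ℝ) (Δ : ℕ) (r₀ : ℤ) (F : Finset (ℕ × ℤ)) (v w : ℤ × ℤ) (s : ℤ),
      (X : ℝ) ^ δ ≤ W → W ≤ X → (∀ p : ℕ, p.Prime → p ≤ D.P1 → ¬ p ∣ Δ) → 0 < Δ →
      Nat.Coprime Δ R → (Δ : ℝ) ≤ (X : ℝ) ^ (δ * τ) → IsCoprime r₀ (Δ : ℤ) →
      (∀ x ∈ F, x.1.Prime ∧ D.P < (x.1 : ℝ) ∧ ¬ x.1 ∣ Δ) → (F.card : ℝ) ≤ 100 * Real.log X →
      (∀ p : ℕ, p.Prime → ¬ p ∣ R → p ≤ D.P1 → ¬ (p : ℤ) ∣ dt v w) →
      (∀ p : ℕ, p.Prime → ¬ p ∣ R → p ≤ D.P1 → ¬ (p : ℤ) ∣ s) → ∀ G : Finset ℕ,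
      (∀ n ∈ PD W D.P Δ r₀ M0 ρ F, NI D.P1 D.q (lc v w s n) → n ∈ G) →
      c * ((Δ.totient : ℝ) / (Δ : ℝ) ^ 2) ≤ ∑ n ∈ G, fw D.P α n / n)
    {t : ℕ → ℕ} (hp : Dat.PF D 8 t) (hw : (X : ℝ) ^ δ ≤ D.win 8)
    (hΔ : (Dq D.v 4 : ℝ) ≤ (X : ℝ) ^ (δ * τ)) :
    c * (((Dq D.v 4).totient : ℝ) / (Dq D.v 4 : ℝ) ^ 2) ≤
      ∑ n ∈ D.SS 8 t, fw D.P α n / n := by
  classical
  have hX1 : (1 : ℝ) < X := by
    have h1 := hs.big
    have h0 := ta6_CC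
    by_contra hne
    push Not at hne
    have h2 : (X : ℝ) ^ (1 / 500 : ℝ) ≤ 1 := Real.rpow_le_one (Nat.cast_nonneg _) hne (by norm_num)
    linarith
  have hlX : 0 < Real.log X := Real.log_pos hX1
  have hwp : 0 < D.win 8 := h.win_pos (by omega)
  obtain ⟨hM0, hM⟩ := siz_MM h hs (by omega : 8 ≤ 8) hp
  have hlM : Real.log (D.MM 8 t : ℝ) ≤ 1 / 2 * Real.log X := by
    rw [← Real.log_rpow (by linarith)]
    exact Real.log_le_log (by exact_mod_cast hM0) hM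
  have hWX : D.win 8 ≤ X := by
    refine (siz_win h hs (by omega)).trans ?_
    calc (X : ℝ) ^ (1 / 100 : ℝ) ≤ (X : ℝ) ^ (1 : ℝ) :=
          Real.rpow_le_rpow_of_exponent_le hX1.le (by norm_num)
      _ = X := Real.rpow_one _
  have hD : 0 < De D.v 4 := h.De_pos (by norm_num)
  have hq : 0 < Dq D.v 4 := h.Dq_pos (by norm_num)
  -- `Δ_4 = gb Dq`
  have hDe : De D.v 4 = (gb : ℤ) * (Dq D.v 4 : ℤ) := by
    have h7 := h.tin.De_eq 4
    rw [if_pos rfl] at h7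
    have : ((De D.v 4).natAbs : ℤ) = De D.v 4 := Int.natAbs_of_nonneg hD.le
    rw [← this, h7]; push_cast; ring
  have hqD : (Dq D.v 4 : ℤ) ∣ De D.v 4 := ⟨(gb : ℤ), by rw [hDe]; ring⟩
  have e5 : D.v 5 = zz := h.tin.v5
  obtain ⟨m1, m2⟩ := mu_spec (h.tin.cp 4 (by norm_num) (by norm_num))
    (show IsCoprime (D.v 5).1 (D.v 5).2 from h.tin.prim le_rfl)
  change IsCoprime (mu (D.v 4) (D.v 5)) (De D.v 4) at m1
  obtain ⟨ν, κ, hν⟩ := m1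
  have hνc : IsCoprime ν (De D.v 4) := ⟨mu (D.v 4) (D.v 5), κ, by linarith⟩
  have h9c : IsCoprime (D.d9 : ℤ) (De D.v 4) := by
    have := Dat.cop_of_tin h (dvd_mul_left D.d9 D.d0) (by norm_num : 4 < 5) (by norm_num)
    rw [Int.isCoprime_iff_gcd_eq_one, Int.gcd_eq_natAbs, Int.natAbs_natCast]
    exact this
  have hrc' : IsCoprime (ν * (-(D.d9 : ℤ))) (De D.v 4) := IsCoprime.mul_left hνc h9c.neg_left
  have hrc : IsCoprime (ν * (-(D.d9 : ℤ))) (Dq D.v 4 : ℤ) := hrc'.of_isCoprime_of_dvd_right hqD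
  -- the solution `ν (-d9)` of `Int2`
  have hint0 : Int2 (D.v 4) (D.v 5) (ν * (-(D.d9 : ℤ))) (-(D.d9 : ℤ)) := by
    rw [m2]
    change De D.v 4 ∣ (-(D.d9 : ℤ)) - mu (D.v 4) (D.v 5) * (ν * (-(D.d9 : ℤ)))
    refine ⟨-(D.d9 : ℤ) * κ, ?_⟩
    linear_combination (D.d9 : ℤ) * hν
  set F : Finset (ℕ × ℤ) := (Fz D.P (D.MM 8 t) ∪ (range 7).biUnion (fun l => Fr D.P (t l)
    (dt (D.v ((l + 1) / 2)) (D.v 5)) (-(D.d9 : ℤ) * dt (D.v ((l + 1) / 2)) (D.v 4)))).filter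
      (fun a => ¬ a.1 ∣ Dq D.v 4) with hF
  refine hc (D.win 8) (Dq D.v 4) (ν * (-(D.d9 : ℤ))) F (D.v 5) (D.v 4) (-(D.d9 : ℤ))
    hw hWX ?_ hq (h.tin.Dq_cop (by norm_num) hD) hΔ hrc ?_ ?_ ?_ ?_ (D.SS 8 t) ?_
  · intro p hp1 hp2 hd
    have := (h.Dq_prime (by norm_num) hp1 hd).2
    omega
  · intro a ha
    rw [hF, mem_filter, mem_union] at ha
    obtain ⟨ha1, ha2⟩ := ha
    rcases ha1 with ha1 | ha1
    · obtain ⟨b1, b2, -⟩ := fz_mem.1 ha1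
      exact ⟨Nat.prime_of_mem_primeFactors b1, b2, ha2⟩
    · rw [mem_biUnion] at ha1
      obtain ⟨l, _, hl⟩ := ha1
      obtain ⟨b1, b2, -⟩ := fr_mem.1 hl
      exact ⟨Nat.prime_of_mem_primeFactors b1, b2, ha2⟩
  · have c1 : ((Fz D.P (D.MM 8 t)).card : ℝ) ≤ Real.log X := by
      refine (fz_card D.P hM0).trans ?_
      linarith
    have c2 : ∀ l ∈ range 7, ((Fr D.P (t l)
        (dt (D.v ((l + 1) / 2)) (D.v 5)) (-(D.d9 : ℤ) * dt (D.v ((l + 1) / 2)) (D.v 4))).card : ℝ) ≤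
        Real.log X := by
      intro l hl
      rw [mem_range] at hl
      have ht0 : 0 < t l := hp.pos (by omega)
      refine (fr_card D.P _ _ ht0).trans ?_
      have h3 := siz_t h hs hp l (by omega) (by omega)
      have h4 : Real.log (t l : ℝ) ≤ 1 / 100 * Real.log X := by
        rw [← Real.log_rpow (by linarith)]
        exact Real.log_le_log (by exact_mod_cast ht0) h3
      linarith
    have c3 : (F.card : ℝ) ≤ (Fz D.P (D.MM 8 t)).card + ∑ l ∈ range 7, ((Fr D.P (t l)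
        (dt (D.v ((l + 1) / 2)) (D.v 5))
          (-(D.d9 : ℤ) * dt (D.v ((l + 1) / 2)) (D.v 4))).card : ℝ) := by
      have c4 : F.card ≤ (Fz D.P (D.MM 8 t)).card + ∑ l ∈ range 7, (Fr D.P (t l)
        (dt (D.v ((l + 1) / 2)) (D.v 5))
          (-(D.d9 : ℤ) * dt (D.v ((l + 1) / 2)) (D.v 4))).card := by
        refine (card_filter_le _ _).trans ((card_union_le _ _).trans ?_)
        exact Nat.add_le_add_left card_biUnion_le _
      exact_mod_cast c4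
    have c5 := sum_le_sum c2
    rw [sum_const, card_range, nsmul_eq_mul] at c5
    push_cast at c5
    linarith
  · intro p hp1 hpR hp2 hd
    rw [dt_neg] at hd
    exact h.tin.co 4 (by norm_num) p hp1 hpR hp2 ((dvd_neg).1 hd)
  · intro p hp1 hpR hp2 hd
    have h3 := (h.e9.2 p hp1 (Int.natCast_dvd_natCast.1 ((dvd_neg).1 hd))).2
    have h4 := h.P1le
    have h5 : (p : ℝ) ≤ D.P1 := by exact_mod_cast hp2
    linarith
  · intro n hn hni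
    rw [mem_PD hwp.le] at hn
    obtain ⟨n1, n2, n3, n6, n4, n5⟩ := hn
    have n7 := hρ n n6
    rw [Dat.mem_SS (by norm_num) (by norm_num) hwp.le]
    -- `n` is coprime to `Dq_4`
    have hnc : IsCoprime (n : ℤ) (Dq D.v 4 : ℤ) := by
      obtain ⟨k, hk⟩ := n3
      have e : (n : ℤ) = ν * (-(D.d9 : ℤ)) + (Dq D.v 4 : ℤ) * k := by linarith
      rw [e]
      exact IsCoprime.add_mul_left_left hrc k
    have hnp : ∀ p : ℕ, p.Prime → p ∣ n → ¬ p ∣ Dq D.v 4 := by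
      intro p hp1 hp2 hp3
      have h6 := hnc.isUnit_of_dvd' (Int.natCast_dvd_natCast.2 hp2) (Int.natCast_dvd_natCast.2 hp3)
      exact (Nat.prime_iff_prime_int.1 hp1).not_isUnit h6
    have elc : lc (D.v 4) (D.v 5) n (-(D.d9 : ℤ)) = lc (D.v 5) (D.v 4) (-(D.d9 : ℤ)) n := by
      unfold lc
      rw [add_comm, add_comm ((n : ℤ) * (D.v 5).2)]
    -- the congruences modulo `Dq`
    have q1 : (Dq D.v 4 : ℤ) ∣ (n : ℤ) * (D.v 5).1 + -(D.d9 : ℤ) * (D.v 4).1 := by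
      have a1 : (Dq D.v 4 : ℤ) ∣ ν * (-(D.d9 : ℤ)) * (D.v 5).1 + -(D.d9 : ℤ) * (D.v 4).1 :=
        hqD.trans hint0.1
      have a2 := dvd_add a1 (n3.mul_right (D.v 5).1)
      refine a2.trans (dvd_of_eq ?_)
      ring
    have q2 : (Dq D.v 4 : ℤ) ∣ (n : ℤ) * (D.v 5).2 + -(D.d9 : ℤ) * (D.v 4).2 := by
      have a1 : (Dq D.v 4 : ℤ) ∣ ν * (-(D.d9 : ℤ)) * (D.v 5).2 + -(D.d9 : ℤ) * (D.v 4).2 :=
        hqD.trans hint0.2
      have a2 := dvd_add a1 (n3.mul_right (D.v 5).2)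
      refine a2.trans (dvd_of_eq ?_)
      ring
    -- the congruences modulo `gb`
    have hgM : (gb : ℤ) ∣ (M0 : ℤ) := Int.natCast_dvd_natCast.2 gb_dvd_M0
    have g1 : (gb : ℤ) ∣ (n : ℤ) * (D.v 5).1 + -(D.d9 : ℤ) * (D.v 4).1 := by
      have a1 : (gb : ℤ) ∣ (n : ℤ) * zz.1 - D.d9 := hgM.trans n7
      have a2 : (gb : ℤ) ∣ (D.v 4).1 - 1 := hgM.trans (h.tin.cl1 (b := 4) le_rfl)
      rw [e5]
      have a3 := dvd_sub a1 (a2.mul_left (D.d9 : ℤ))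
      refine a3.trans (dvd_of_eq ?_)
      ring
    have hzg : IsCoprime (gb : ℤ) (D.v 5).1 := by
      rw [e5]
      have b1 : IsCoprime zz.1 (R : ℤ) := z_unit
      have b2 : IsCoprime zz.1 (M0 : ℤ) := by
        have b3 : Nat.Coprime zz.1.natAbs R := by
          rw [Int.isCoprime_iff_gcd_eq_one, Int.gcd_eq_natAbs, Int.natAbs_natCast] at b1
          exact b1
        have b4 := (adm_M0.cop_iff).2 b3
        rw [Int.isCoprime_iff_gcd_eq_one, Int.gcd_eq_natAbs, Int.natAbs_natCast]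
        exact b4
      exact (b2.of_isCoprime_of_dvd_right hgM).symm
    have g2 : (gb : ℤ) ∣ (n : ℤ) * (D.v 5).2 + -(D.d9 : ℤ) * (D.v 4).2 := by
      have a1 : (gb : ℤ) ∣ De D.v 4 := ⟨(Dq D.v 4 : ℤ), hDe⟩
      have a2 : (D.v 5).1 * ((n : ℤ) * (D.v 5).2 + -(D.d9 : ℤ) * (D.v 4).2) =
          (D.v 5).2 * ((n : ℤ) * (D.v 5).1 + -(D.d9 : ℤ) * (D.v 4).1) +
            (D.d9 : ℤ) * De D.v 4 := by
        simp only [De, dt]
        ring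
      have a3 : (gb : ℤ) ∣ (D.v 5).1 * ((n : ℤ) * (D.v 5).2 + -(D.d9 : ℤ) * (D.v 4).2) := by
        rw [a2]
        exact dvd_add (g1.mul_left _) (a1.mul_left _)
      exact hzg.dvd_of_dvd_mul_left a3
    have hgq : IsCoprime (gb : ℤ) (Dq D.v 4 : ℤ) := by
      have b1 : Nat.Coprime (Dq D.v 4) M0 :=
        (adm_M0.cop_iff).2 (h.tin.Dq_cop (by norm_num) hD)
      exact (Nat.isCoprime_iff_coprime.2 (Nat.Coprime.coprime_dvd_right gb_dvd_M0 b1)).symm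
    refine ⟨n1, n2, n5, ?_, fun ho => absurd ho (by norm_num), fun ho => absurd ho (by norm_num),
      fun _ => ⟨n7, ⟨?_, ?_⟩, ?_, ?_⟩⟩
    · refine dp_cop n5 ?_
      intro p hp1 hp2 hp3 hp4
      refine n4 (p, 0) ?_ ?_
      · rw [hF, mem_filter, mem_union]
        exact ⟨Or.inl (fz_mem.2 ⟨Nat.mem_primeFactors.2 ⟨hp1, hp2, hM0.ne'⟩, hp3, rfl⟩),
          hnp p hp1 hp4⟩
      · simpa using Int.natCast_dvd_natCast.2 hp4
    · change De D.v 4 ∣ _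
      rw [hDe]
      exact hgq.mul_dvd g1 q1
    · change De D.v 4 ∣ _
      rw [hDe]
      exact hgq.mul_dvd g2 q2
    · rw [elc]
      exact hni
    · intro l hl
      rw [Nat.coprime_iff_gcd_eq_one]
      by_contra hne
      obtain ⟨p, hp1, hpd⟩ := Nat.exists_prime_and_dvd hne
      have h1 : p ∣ t l := hpd.trans (Nat.gcd_dvd_left _ _)
      have h2 : (p : ℤ) ∣ dt (D.v ((l + 1) / 2)) (lc (D.v 4) (D.v 5) n (-(D.d9 : ℤ))) :=
        Int.natCast_dvd.2 (hpd.trans (Nat.gcd_dvd_right _ _))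
      have h3 : dt (D.v ((l + 1) / 2)) (lc (D.v 4) (D.v 5) n (-(D.d9 : ℤ))) =
          dt (D.v ((l + 1) / 2)) (D.v 5) * n + -(D.d9 : ℤ) * dt (D.v ((l + 1) / 2)) (D.v 4) := by
        simp only [dt, lc]
        ring
      rw [h3] at h2
      have hP : D.P < (p : ℝ) := ((hp.dp l (by omega)).2 p hp1 h1).2
      have hcop := hp.cv l (by omega) ((l + 1) / 2) 5 (by omega) (by norm_num)
      have hpc : IsCoprime (p : ℤ) (dt (D.v ((l + 1) / 2)) (D.v 5)) := by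
        rw [Int.isCoprime_iff_gcd_eq_one, Int.gcd_eq_natAbs, Int.natAbs_natCast]
        exact Nat.Coprime.coprime_dvd_left h1 hcop
      rw [rs_spec hpc] at h2
      refine n4 (p, rs p (dt (D.v ((l + 1) / 2)) (D.v 5))
        (-(D.d9 : ℤ) * dt (D.v ((l + 1) / 2)) (D.v 4))) ?_ h2
      rw [hF, mem_filter, mem_union, mem_biUnion]
      refine ⟨Or.inr ⟨l, mem_range.2 hl, fr_mem.2 ⟨Nat.mem_primeFactors.2
        ⟨hp1, h1, (hp.pos (by omega)).ne'⟩, hP, rfl⟩⟩, ?_⟩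
      intro hd
      have hcop2 := hp.cv l (by omega) 4 5 (by norm_num) (by norm_num)
      have hd2 : p ∣ (dt (D.v 4) (D.v 5)).natAbs := by
        have h7 := h.tin.De_eq 4
        rw [if_pos rfl] at h7
        change p ∣ (De D.v 4).natAbs
        rw [h7]
        exact hd.mul_left _
      exact hp1.one_lt.ne' (Nat.dvd_one.1 (hcop2 ▸ Nat.dvd_gcd h1 hd2))

alias step_eight := step_eight_pr

end Pool.Agent.AQ.TPA
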