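import Pool.Agent.Lib_helper15.AQ.TPF.TA5
import Pool.Agent.Lib_helper15.AQ.TPF.TA6
import Pool.Agent.Lib_helper15.AQ.TPF.TA7
import Pool.Agent.Lib_helper15.PENT.TSum

/-!
# AQ (MP_892e4c_nt), (LB): the nested sum (helper15)
-/

set_option autoImplicit false

namespace Pool.Agent.AQ.TPA

open Finset Filter Pool.Agent.PENT Pool.Agent.AQ.NC
open Pool.Agent.TPA (PX ell lc)

variable [Cst]

theorem pv_dep {D : Dat} {t t' : ℕ → ℕ} {b j : ℕ} (h : ∀ i < j, t i = t' i) (hb : 2 * b + 1 < j) :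
    D.pv t (2 * b + 1) = D.pv t' (2 * b + 1) := by
  rw [Dat.pv_odd, Dat.pv_odd, h _ hb, h _ (by omega)]

theorem ss_dep (D : Dat) (j : ℕ) (hj : j ≤ 9) (t t' : ℕ → ℕ) (h : ∀ i < j, t i = t' i) :
    D.SS j t = D.SS j t' := by
  classical
  unfold Dat.SS
  by_cases h0 : j = 0
  · rw [if_pos h0, if_pos h0]
  by_cases h9 : j = 9
  · rw [if_neg h0, if_neg h0, if_pos h9, if_pos h9]
  rw [if_neg h0, if_neg h0, if_neg h9, if_neg h9]
  have hM : D.MM j t = D.MM j t' := by
    unfold Dat.MM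
    congr 1
    · congr 1
      congr 1
      exact Finset.prod_congr rfl (fun l hl => h l (Finset.mem_range.1 hl))
    · apply Finset.prod_congr rfl
      intro a _
      apply Finset.prod_congr rfl
      intro b hb
      have hb' := Finset.mem_range.1 hb
      rw [pv_dep h (by omega)]
  have hC : ∀ n : ℕ, (j % 2 = 1 → D.Clo (j / 2) t n) ↔ (j % 2 = 1 → D.Clo (j / 2) t' n) := by
    intro n
    by_cases hj2 : j % 2 = 1
    · have e : 2 * (j / 2) < j := by omega
      have e1 : ∀ l < 2 * (j / 2) - 1, t l = t' l := fun l hl => h l (by omega)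
      have key : D.Clo (j / 2) t n ↔ D.Clo (j / 2) t' n := by
        unfold Dat.Clo
        rw [h _ e]
        refine and_congr Iff.rfl (and_congr Iff.rfl (and_congr ?_ Iff.rfl))
        constructor
        · intro H l hl; rw [← e1 l hl]; exact H l hl
        · intro H l hl; rw [e1 l hl]; exact H l hl
      exact ⟨fun H _ => key.1 (H hj2), fun H _ => key.2 (H hj2)⟩
    · exact ⟨fun _ h' => absurd h' hj2, fun _ h' => absurd h' hj2⟩
  have hC8 : ∀ n : ℕ, (j = 8 → D.Clo8 t n) ↔ (j = 8 → D.Clo8 t' n) := by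
    intro n
    by_cases h8 : j = 8
    · have key : D.Clo8 t n ↔ D.Clo8 t' n := by
        unfold Dat.Clo8
        refine and_congr Iff.rfl (and_congr Iff.rfl (and_congr Iff.rfl ?_))
        constructor
        · intro H l hl; rw [← h l (by omega)]; exact H l hl
        · intro H l hl; rw [h l (by omega)]; exact H l hl
      exact ⟨fun H _ => key.1 (H h8), fun H _ => key.2 (H h8)⟩
    · exact ⟨fun _ h' => absurd h' h8, fun _ h' => absurd h' h8⟩
  apply Finset.filter_congr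
  intro n _
  rw [hM]
  refine and_congr Iff.rfl (and_congr Iff.rfl (and_congr Iff.rfl (and_congr Iff.rfl
    (and_congr (hC n) (hC8 n)))))

/-- the members of the nested set -/
theorem TT_SS_mem {D : Dat} {m : ℕ} (hm : m ≤ 10) {t : ℕ → ℕ} (h : t ∈ TT D.SS m) :
    ∀ j < m, t j ∈ D.SS j t := by
  induction m generalizing t with
  | zero => intro j hj; omega
  | succ m ih =>
    intro j hj
    obtain ⟨s, hs, n, hn, rfl⟩ := TT_succ_mem.1 h
    rcases Nat.lt_succ_iff_lt_or_eq.1 hj with h1 | h1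
    · rw [Function.update_of_ne (by omega)]
      have h2 := ih (by omega) hs j h1
      rw [ss_dep D j (by omega) (Function.update s m n) s
        (fun i hi => by rw [Function.update_of_ne (by omega)])]
      exact h2
    · subst h1
      rw [Function.update_self]
      rw [ss_dep D j (by omega) (Function.update s j n) s
        (fun i hi => by rw [Function.update_of_ne (by omega)])]
      exact hn

/-- the weights of the entries -/
noncomputable def wt (P α : ℝ) (j : ℕ) (_ : ℕ → ℕ) (n : ℕ) : ℝ :=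
  if j = 0 ∨ j = 9 then 1 else fw P α n / n

theorem fw_nonneg' {P α : ℝ} (hα : 0 ≤ α) (n : ℕ) : 0 ≤ fw P α n := by
  unfold fw
  split_ifs
  · positivity
  · exact le_rfl

/-- the hypothesis of the closing steps, class `ρ` modulo `a` -/
def HCl (D : Dat) (X : ℕ) (α c δ τ : ℝ) (a : ℕ) (ρ : ℤ) : Prop :=
  ∀ (W : ℝ) (Δ : ℕ) (r₀ : ℤ) (F : Finset (ℕ × ℤ)) (v w : ℤ × ℤ) (s : ℤ),
      (X : ℝ) ^ δ ≤ W → W ≤ X → (∀ p : ℕ, p.Prime → p ≤ D.P1 → ¬ p ∣ Δ) → 0 < Δ →
      Nat.Coprime Δ R → (Δ : ℝ) ≤ (X : ℝ) ^ (δ * τ) → IsCoprime r₀ (Δ : ℤ) →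
      (∀ x ∈ F, x.1.Prime ∧ D.P < (x.1 : ℝ) ∧ ¬ x.1 ∣ Δ) → (F.card : ℝ) ≤ 100 * Real.log X →
      (∀ p : ℕ, p.Prime → ¬ p ∣ R → p ≤ D.P1 → ¬ (p : ℤ) ∣ dt v w) →
      (∀ p : ℕ, p.Prime → ¬ p ∣ R → p ≤ D.P1 → ¬ (p : ℤ) ∣ s) → ∀ G : Finset ℕ,
      (∀ n ∈ PD W D.P Δ r₀ a ρ F, NI D.P1 D.q (lc v w s n) → n ∈ G) →
      c * ((Δ.totient : ℝ) / (Δ : ℝ) ^ 2) ≤ ∑ n ∈ G, fw D.P α n / n

/-- the nested sum for fixed even vertices -/
theorem nest {D : Dat} (h : D.Hyp) {X : ℕ} (hs : Siz D X) (hX : PX X D.P) {α c c' δ τ : ℝ}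
    {ρ : ℤ} (hρ : ∀ n : ℤ, (M0 : ℤ) ∣ n - ρ → (M0 : ℤ) ∣ n * zz.1 - D.d9)
    (hα : 0 ≤ α) (hc0 : 0 ≤ c) (hc0' : 0 ≤ c')
    (hc : HCl D X α c δ τ a0.natAbs D.d0) (hc8 : HCl D X α c δ τ M0 ρ)
    (hc' : ∀ (W : ℝ) (F : Finset (ℕ × ℤ)), (X : ℝ) ^ δ ≤ W → W ≤ X →
      (∀ x ∈ F, x.1.Prime ∧ D.P < (x.1 : ℝ)) → (F.card : ℝ) ≤ 100 * Real.log X →
      c' ≤ ∑ n ∈ PD W D.P 1 0 a0.natAbs D.d0 F, fw D.P α n / n)
    (hw : ∀ j, 1 ≤ j → j ≤ 8 → (X : ℝ) ^ δ ≤ D.win j)
    (hΔ : ∀ b, b ≤ 4 → (Dq D.v b : ℝ) ≤ (X : ℝ) ^ (δ * τ)) :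
    c ^ 5 * c' ^ 3 * ∏ b ∈ range 5, (((Dq D.v b).totient : ℝ) / (Dq D.v b : ℝ) ^ 2) ≤
      ∑ t ∈ TT D.SS 10, ∏ j ∈ range 10, wt D.P α j t (t j) := by
  classical
  let g : ℕ → ℝ := fun b => ((Dq D.v b).totient : ℝ) / (Dq D.v b : ℝ) ^ 2
  have hg : ∀ b, 0 ≤ g b := fun b => by positivity
  let cc : ℕ → ℝ := fun j => if j = 0 ∨ j = 9 then 1 else if j = 8 then c * g 4
    else if j % 2 = 1 then c * g (j / 2) else c'
  have hcc : ∀ j, 0 ≤ cc j := by
    intro j
    simp only [cc]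
    split_ifs
    · exact zero_le_one
    · exact mul_nonneg hc0 (hg _)
    · exact mul_nonneg hc0 (hg _)
    · exact hc0'
  have main := TT_sum_ge (S := D.SS) (wt D.P α) cc (fun j t t' _ => rfl)
    (fun j t n => by
      unfold wt
      split_ifs
      · exact zero_le_one
      · exact div_nonneg (fw_nonneg' hα n) (Nat.cast_nonneg n)) hcc 10 (by
      intro j hj t ht
      have hmem := TT_SS_mem (by omega) ht
      have hp := Dat.pf_of_mem h (by omega) hmem
      by_cases h0 : j = 0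
      · subst h0
        simp [cc, wt, Dat.SS]
      by_cases h9 : j = 9
      · subst h9
        simp [cc, wt, Dat.SS]
      have e1 : ∀ n : ℕ, wt D.P α j t n = fw D.P α n / n := fun n => by
        unfold wt; rw [if_neg (by omega)]
      simp only [e1]
      by_cases h8 : j = 8
      · subst h8
        have := step_eight h hs hX (α := α) hρ hc8 hp (hw 8 (by norm_num) le_rfl) (hΔ 4 le_rfl)
        simpa [cc, g] using this
      rcases Nat.even_or_odd' j with ⟨b, rfl | rfl⟩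
      · have hb1 : 1 ≤ b := by omega
        have hb3 : b ≤ 3 := by omega
        have := step_even h hs hX (α := α) hc' hb1 hb3 hp (hw _ (by omega) (by omega))
        have e : cc (2 * b) = c' := by
          simp only [cc]
          rw [if_neg (by omega), if_neg (by omega), if_neg (by omega)]
        rw [e]; exact this
      · have hb3 : b ≤ 3 := by omega
        have := step_odd h hs hX (α := α) hc hb3 hp (hw _ (by omega) (by omega)) (hΔ b (by omega))
        have e : cc (2 * b + 1) = c * g b := by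
          simp only [cc]
          rw [if_neg (by omega), if_neg (by omega), if_pos (by omega),
            show (2 * b + 1) / 2 = b by omega]
        rw [e]; exact this)
  refine le_trans (le_of_eq ?_) main
  simp only [Finset.prod_range_succ, Finset.prod_range_zero, cc]
  norm_num
  simp only [g]
  ring

end Pool.Agent.AQ.TPA
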