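import Pool.Agent.Lib_helper15.AQ.TPF.TA4

/-!
# AQ (MP_892e4c_nt), (LB), block TA5: the closing steps (helper67, port of helper99's)
-/

set_option autoImplicit false

namespace Pool.Agent.AQ.TPA

open Finset Pool.Agent.PENT Pool.Agent.AQ.NC
open Pool.Agent.TPA (PX ell lc)

variable [Cst]

theorem ta5_dt_lc (z v w : ℤ × ℤ) (a n : ℤ) :
    dt z (lc v w a (-n)) = -dt z v * n + a * dt z w := by
  simp only [dt, lc]
  ring

/-- primes of `m` (all `> P`), residues `rs`: the values are prime to `m` -/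
theorem ta5_cop {P : ℝ} {m n Δ : ℕ} {x y : ℤ} (hm : 0 < m)
    (hP : ∀ p : ℕ, p.Prime → p ∣ m → P < (p : ℝ)) (hx : Nat.Coprime m x.natAbs)
    (hΔ : Nat.Coprime m Δ)
    (h : ∀ a ∈ Fr P m x y, ¬ a.1 ∣ Δ → ¬ (a.1 : ℤ) ∣ (n : ℤ) - a.2) :
    Nat.Coprime m (x * n + y).natAbs := by
  rw [Nat.coprime_iff_gcd_eq_one]
  by_contra hne
  obtain ⟨p, hp, hpd⟩ := Nat.exists_prime_and_dvd hne
  have r1 : p ∣ m := hpd.trans (Nat.gcd_dvd_left _ _)
  have r2 : (p : ℤ) ∣ x * n + y := Int.natCast_dvd.2 (hpd.trans (Nat.gcd_dvd_right _ _))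
  have r4 : IsCoprime (p : ℤ) x := by
    rw [Int.isCoprime_iff_gcd_eq_one, Int.gcd_eq_natAbs, Int.natAbs_natCast]
    exact Nat.Coprime.coprime_dvd_left r1 hx
  have r5 : ¬ p ∣ Δ := by
    intro h5
    have h6 := Nat.dvd_gcd r1 h5
    rw [hΔ] at h6
    exact hp.one_lt.ne' (Nat.dvd_one.1 h6)
  exact h (p, rs p x y) (fr_mem.2 ⟨Nat.mem_primeFactors.2 ⟨hp, r1, hm.ne'⟩, hP p hp r1, rfl⟩) r5
    ((rs_spec r4 _ _).1 r2)

theorem ta5_logX {X : ℕ} (h : 100 ≤ (X : ℝ) ^ (1 / 500 : ℝ)) : (1 : ℝ) < X ∧ 0 < Real.log X := by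
  have h0 : (0 : ℝ) ≤ X := Nat.cast_nonneg _
  have h1 : (1 : ℝ) < X := by
    by_contra hne
    push Not at hne
    have h2 : (X : ℝ) ^ (1 / 500 : ℝ) ≤ 1 := Real.rpow_le_one h0 hne (by norm_num)
    linarith
  exact ⟨h1, Real.log_pos h1⟩

/-- block TA5 (uses TA4, `close_sum`): the closing steps `j = 2b + 1`, `b ≤ 3` -/
theorem step_odd_pr {D : Dat} (h : D.Hyp) {X : ℕ} (hs : Siz D X) (hX : PX X D.P)
    {α c δ τ : ℝ}
    (hc : ∀ (W : ℝ) (Δ : ℕ) (r₀ : ℤ) (F : Finset (ℕ × ℤ)) (v w : ℤ × ℤ) (s : ℤ),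
      (X : ℝ) ^ δ ≤ W → W ≤ X → (∀ p : ℕ, p.Prime → p ≤ D.P1 → ¬ p ∣ Δ) → 0 < Δ →
      Nat.Coprime Δ R → (Δ : ℝ) ≤ (X : ℝ) ^ (δ * τ) → IsCoprime r₀ (Δ : ℤ) →
      (∀ x ∈ F, x.1.Prime ∧ D.P < (x.1 : ℝ) ∧ ¬ x.1 ∣ Δ) → (F.card : ℝ) ≤ 100 * Real.log X →
      (∀ p : ℕ, p.Prime → ¬ p ∣ R → p ≤ D.P1 → ¬ (p : ℤ) ∣ dt v w) →
      (∀ p : ℕ, p.Prime → ¬ p ∣ R → p ≤ D.P1 → ¬ (p : ℤ) ∣ s) → ∀ G : Finset ℕ,
      (∀ n ∈ PD W D.P Δ r₀ a0.natAbs D.d0 F, NI D.P1 D.q (lc v w s n) → n ∈ G) →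
      c * ((Δ.totient : ℝ) / (Δ : ℝ) ^ 2) ≤ ∑ n ∈ G, fw D.P α n / n)
    {b : ℕ} (hb : b ≤ 3) {t : ℕ → ℕ} (hp : Dat.PF D (2 * b + 1) t)
    (hw : (X : ℝ) ^ δ ≤ D.win (2 * b + 1)) (hΔ : (Dq D.v b : ℝ) ≤ (X : ℝ) ^ (δ * τ)) :
    c * (((Dq D.v b).totient : ℝ) / (Dq D.v b : ℝ) ^ 2) ≤
      ∑ n ∈ D.SS (2 * b + 1) t, fw D.P α n / n := by
  classical
  obtain ⟨hX1, hlX⟩ := ta5_logX (ta4_big' hs)
  have hX0 : (0 : ℝ) ≤ X := by linarith
  have hD : 0 < De D.v b := h.De_pos (by omega)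
  have hDq : Dq D.v b = (De D.v b).natAbs := by
    have := h.tin.De_eq b
    rw [if_neg (by omega), one_mul] at this
    exact this.symm
  have hDz : ((Dq D.v b : ℕ) : ℤ) = De D.v b := by
    rw [hDq]; exact Int.natAbs_of_nonneg hD.le
  obtain ⟨hM0, hMX⟩ := siz_MM_pr h hs (j := 2 * b + 1) (by omega) hp
  have hcv : ∀ j, j < 2 * b + 1 → Nat.Coprime (t j) (Dq D.v b) := fun j hj => by
    rw [hDq]
    exact hp.cv j hj b (b + 1) (by omega) (by omega)
  have h9v : Nat.Coprime D.d9 (Dq D.v b) := by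
    rw [hDq]
    exact Dat.cop_of_tin h (dvd_mul_left _ _) (Nat.lt_succ_self b) (by omega)
  obtain ⟨m1, m2⟩ := mu_spec (h.tin.prim (b := b) (by omega)) (h.tin.prim (b := b + 1) (by omega))
  -- the excluded residues
  set j : ℕ := 2 * b + 1 with hj
  set r₀ : ℤ := -(mu (D.v b) (D.v (b + 1)) * (t (2 * b) : ℤ)) with hr0
  set Fl : ℕ → Finset (ℕ × ℤ) := fun l => Fr D.P (t l) (-dt (D.v ((l + 1) / 2)) (D.v b))
    (t (2 * b) * dt (D.v ((l + 1) / 2)) (D.v (b + 1))) with hFl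
  set F9 : Finset (ℕ × ℤ) := Fr D.P D.d9 (-dt (D.v 5) (D.v b))
    (t (2 * b) * dt (D.v 5) (D.v (b + 1))) with hF9
  set F : Finset (ℕ × ℤ) := ((Fz D.P (D.MM j t) ∪ (range (2 * b - 1)).biUnion Fl) ∪ F9).filter
    (fun a => ¬ a.1 ∣ Dq D.v b) with hF
  have hpr : ∀ a ∈ F, a.1.Prime ∧ D.P < (a.1 : ℝ) ∧ ¬ a.1 ∣ Dq D.v b := by
    intro a ha
    rw [hF, mem_filter, mem_union, mem_union, mem_biUnion] at ha
    obtain ⟨ha1, ha2⟩ := ha
    rcases ha1 with (ha1 | ⟨l, -, ha1⟩) | ha1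
    · obtain ⟨b1, b2, -⟩ := fz_mem.1 ha1
      exact ⟨Nat.prime_of_mem_primeFactors b1, b2, ha2⟩
    · obtain ⟨b1, b2, -⟩ := fr_mem.1 ha1
      exact ⟨Nat.prime_of_mem_primeFactors b1, b2, ha2⟩
    · obtain ⟨b1, b2, -⟩ := fr_mem.1 ha1
      exact ⟨Nat.prime_of_mem_primeFactors b1, b2, ha2⟩
  have hcard : (F.card : ℝ) ≤ 100 * Real.log X := by
    have c1 : F.card ≤ (Fz D.P (D.MM j t)).card + ∑ l ∈ range (2 * b - 1), (Fl l).card +
        F9.card := by
      refine (card_filter_le _ _).trans ((card_union_le _ _).trans ?_)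
      refine Nat.add_le_add_right ((card_union_le _ _).trans ?_) _
      exact Nat.add_le_add_left card_biUnion_le _
    have c2 : ((Fz D.P (D.MM j t)).card : ℝ) ≤ Real.log X := by
      refine (fz_card D.P hM0).trans ?_
      have e1 : Real.log (D.MM j t) ≤ 1 / 2 * Real.log X := by
        rw [← Real.log_rpow (by linarith)]
        exact Real.log_le_log (by exact_mod_cast hM0) hMX
      linarith
    have c3 : ∀ l ∈ range (2 * b - 1), ((Fl l).card : ℝ) ≤ Real.log X := by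
      intro l hl
      rw [mem_range] at hl
      have hlm : l < 2 * b + 1 := by omega
      have e0 : 0 < t l := hp.pos hlm
      refine (fr_card D.P _ _ e0).trans ?_
      have e1 : Real.log (t l) ≤ 1 / 100 * Real.log X := by
        rw [← Real.log_rpow (by linarith)]
        exact Real.log_le_log (by exact_mod_cast e0) (siz_t_pr h hs hp l hlm (by omega))
      linarith
    have c4 : (F9.card : ℝ) ≤ Real.log X := by
      refine (fr_card D.P _ _ h.d9_pos).trans ?_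
      have e1 : Real.log D.d9 ≤ 1 / 500 * Real.log X := by
        rw [← Real.log_rpow (by linarith)]
        exact Real.log_le_log (by exact_mod_cast h.d9_pos) hs.d9
      linarith
    have c5 : ((∑ l ∈ range (2 * b - 1), (Fl l).card : ℕ) : ℝ) ≤ 5 * Real.log X := by
      push_cast
      calc ∑ l ∈ range (2 * b - 1), ((Fl l).card : ℝ) ≤ ∑ _l ∈ range (2 * b - 1), Real.log X :=
            sum_le_sum c3
        _ = ((2 * b - 1 : ℕ) : ℝ) * Real.log X := by
            rw [sum_const, card_range, nsmul_eq_mul]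
        _ ≤ 5 * Real.log X := by
            apply mul_le_mul_of_nonneg_right _ hlX.le
            exact_mod_cast (by omega : 2 * b - 1 ≤ 5)
    have c6 : (F.card : ℝ) ≤ (Fz D.P (D.MM j t)).card +
        ((∑ l ∈ range (2 * b - 1), (Fl l).card : ℕ) : ℝ) + F9.card := by exact_mod_cast c1
    linarith
  have hr : IsCoprime r₀ ((Dq D.v b : ℕ) : ℤ) := by
    rw [hr0]
    refine IsCoprime.neg_left ?_
    rw [hDz]
    refine IsCoprime.mul_left m1 ?_
    rw [← hDz]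
    rw [Int.isCoprime_iff_gcd_eq_one, Int.gcd_eq_natAbs, Int.natAbs_natCast, Int.natAbs_natCast]
    exact hcv (2 * b) (by omega)
  have hco : ∀ p : ℕ, p.Prime → ¬ p ∣ R → p ≤ D.P1 → ¬ (p : ℤ) ∣ De D.v b :=
    h.tin.co b (by omega)
  have hlc : ∀ n : ℤ, lc (-(D.v b).1, -(D.v b).2) (D.v (b + 1)) (t (2 * b)) n =
      lc (D.v b) (D.v (b + 1)) (t (2 * b)) (-n) := by
    intro n
    simp only [lc, Prod.mk.injEq]
    constructor <;> ring
  refine hc (D.win j) (Dq D.v b) r₀ F (-(D.v b).1, -(D.v b).2)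
    (D.v (b + 1)) (t (2 * b)) hw
    (by
      refine (siz_win_pr h hs (by omega)).trans ?_
      calc (X : ℝ) ^ (1 / 100 : ℝ) ≤ (X : ℝ) ^ (1 : ℝ) :=
            Real.rpow_le_rpow_of_exponent_le hX1.le (by norm_num)
        _ = X := Real.rpow_one _)
    (fun p h1 h2 h3 => by
      have := (h.Dq_prime (b := b) (by omega) h1 h3).2
      omega)
    (h.Dq_pos (by omega)) (h.tin.Dq_cop (by omega) hD) hΔ hr hpr hcard
    (fun p h1 h1' h2 h3 => by
      refine hco p h1 h1' h2 ?_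
      have e : dt (-(D.v b).1, -(D.v b).2) (D.v (b + 1)) = -De D.v b := by
        simp only [dt, De]; ring
      rw [e] at h3
      exact (dvd_neg.1 h3))
    (fun p h1 _ h2 h3 => by
      have h4 : p ∣ t (2 * b) := Int.natCast_dvd_natCast.1 h3
      have h5 := ((hp.dp (2 * b) (by omega)).2 p h1 h4).2
      have h6 : (p : ℝ) ≤ D.P1 := by exact_mod_cast h2
      have h7 := h.P1le
      linarith)
    (D.SS j t)
    (by
      intro n hn hNI
      rw [hlc] at hNI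
      have hwp : 0 ≤ D.win j := (h.win_pos (by omega)).le
      rw [mem_PD hwp] at hn
      obtain ⟨n1, n2, n3, n3', n4, n5⟩ := hn
      rw [a0n_cast] at n3'
      rw [Dat.mem_SS (by omega) (by omega) hwp]
      refine ⟨n1, n2, n5, ?_, fun _ => n3', fun _ => ?_, fun h8 => ?_⟩
      · refine dp_cop n5 fun p h1 h2 h3 h4 => ?_
        by_cases h5 : p ∣ Dq D.v b
        · have h6 : (p : ℤ) ∣ ((Dq D.v b : ℕ) : ℤ) := Int.natCast_dvd_natCast.2 h5
          have h7 : (p : ℤ) ∣ r₀ := by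
            have e1 : r₀ = (n : ℤ) - ((n : ℤ) - r₀) := by ring
            rw [e1]
            exact dvd_sub (Int.natCast_dvd_natCast.2 h4) (h6.trans n3)
          exact (Nat.prime_iff_prime_int.1 h1).not_isUnit (hr.isUnit_of_dvd' h7 h6)
        · refine n4 (p, 0) ?_ ?_
          · rw [hF, mem_filter, mem_union, mem_union]
            exact ⟨Or.inl (Or.inl (fz_mem.2 ⟨Nat.mem_primeFactors.2 ⟨h1, h2, hM0.ne'⟩, h3, rfl⟩)),
              h5⟩
          · simpa using Int.natCast_dvd_natCast.2 h4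
      · rw [show j / 2 = b by omega]
        refine ⟨(m2 _ _).2 ?_, hNI, fun l hl => ?_, ?_⟩
        · rw [hDz] at n3
          have e1 : -(n : ℤ) - mu (D.v b) (D.v (b + 1)) * (t (2 * b) : ℤ) = -((n : ℤ) - r₀) := by
            rw [hr0]; ring
          rw [e1]
          exact (dvd_neg.2 n3)
        · rw [ta5_dt_lc]
          have hlm : l < 2 * b + 1 := by omega
          refine ta5_cop (P := D.P) (Δ := Dq D.v b) (hp.pos hlm)
            (fun p h1 h2 => ((hp.dp l hlm).2 p h1 h2).2)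
            (by
              rw [Int.natAbs_neg]
              exact hp.cv l hlm ((l + 1) / 2) b (by omega) (by omega)) (hcv l hlm)
            (fun a ha h5 => ?_)
          refine n4 a ?_
          rw [hF, mem_filter, mem_union, mem_union, mem_biUnion]
          exact ⟨Or.inl (Or.inr ⟨l, mem_range.2 hl, ha⟩), h5⟩
        · rw [ta5_dt_lc]
          refine ta5_cop (P := D.P) (Δ := Dq D.v b) h.d9_pos
            (fun p h1 h2 => (h.e9.2 p h1 h2).2) ?_ h9v (fun a ha h5 => ?_)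
          · rw [Int.natAbs_neg, dt_neg, Int.natAbs_neg]
            exact Dat.cop_of_tin h (dvd_mul_left _ _) (by omega) le_rfl
          · refine n4 a ?_
            rw [hF, mem_filter, mem_union, mem_union]
            exact ⟨Or.inr ha, h5⟩
      · omega)

alias step_odd := step_odd_pr

end Pool.Agent.AQ.TPA
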